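import Mathlib

/-! # Cech complexes in a domain -/

noncomputable section

namespace Pool.Agent.Lib.MP_52a0c0_ag

open IsLocalRing

section Cech

set_option linter.unusedSectionVars false

variable {S : Type} [CommRing S] [IsDomain S]

/-- The fraction `q` lies in the localization `S[1/g]`. -/
def InAway (g : S) (q : FractionRing S) : Prop :=
  ∃ (n : ℕ) (p : S),
    algebraMap S (FractionRing S) (g ^ n) * q = algebraMap S (FractionRing S) p

theorem InAway.zero (g : S) : InAway g 0 := ⟨0, 0, by simp⟩

theorem InAway.add {g : S} {q q' : FractionRing S} (h : InAway g q) (h' : InAway g q') :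
    InAway g (q + q') := by
  obtain ⟨n, p, hp⟩ := h
  obtain ⟨n', p', hp'⟩ := h'
  refine ⟨n + n', g ^ n' * p + g ^ n * p', ?_⟩
  rw [pow_add, map_mul, map_add, map_mul, map_mul, ← hp, ← hp']
  ring

theorem InAway.smul {g : S} {q : FractionRing S} (a : S) (h : InAway g q) :
    InAway g (a • q) := by
  obtain ⟨n, p, hp⟩ := h
  refine ⟨n, a * p, ?_⟩
  rw [map_mul, ← hp, Algebra.smul_def]
  ring

/-- Cech cochains of degree `k`: families indexed by the subsets `T` with `k` elements, the
component of index `T` lying in `S[1/f_T]`, where `f_T` is the product of the `f i`, `i ∈ T`. -/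
def cochain {r : ℕ} (f : Fin r → S) (k : ℕ) :
    Submodule S (Finset (Fin r) → FractionRing S) where
  carrier := {c | ∀ T, (T.card = k → InAway (∏ i ∈ T, f i) (c T)) ∧ (T.card ≠ k → c T = 0)}
  zero_mem' := fun T => ⟨fun _ => InAway.zero _, fun _ => rfl⟩
  add_mem' := by
    intro c c' h h' T
    refine ⟨fun hT => ((h T).1 hT).add ((h' T).1 hT), fun hT => ?_⟩
    rw [Pi.add_apply, (h T).2 hT, (h' T).2 hT, add_zero]
  smul_mem' := by
    intro a c h T
    refine ⟨fun hT => ((h T).1 hT).smul a, fun hT => ?_⟩
    rw [Pi.smul_apply, (h T).2 hT, smul_zero]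

/-- The Cech differential. -/
def cechD (S : Type) [CommRing S] [IsDomain S] (r : ℕ) :
    (Finset (Fin r) → FractionRing S) →ₗ[S] (Finset (Fin r) → FractionRing S) where
  toFun c T := ∑ i ∈ T, (-1) ^ (T.filter (fun j => j < i)).card * c (T.erase i)
  map_add' c c' := by
    funext T
    simp [mul_add, Finset.sum_add_distrib]
  map_smul' a c := by
    funext T
    simp [Finset.smul_sum]

/-- Cech cocycles. -/
def cocycles {r : ℕ} (f : Fin r → S) (k : ℕ) : Submodule S (Finset (Fin r) → FractionRing S) :=
  cochain f k ⊓ LinearMap.ker (cechD S r)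

/-- Cech coboundaries. -/
def coboundaries {r : ℕ} (f : Fin r → S) : ℕ → Submodule S (Finset (Fin r) → FractionRing S)
  | 0 => ⊥
  | k + 1 => (cochain f k).map (cechD S r)

/-- The local cohomology module `H^k_I(S)`, for the ideal `I` generated by the `f i`, as
Cech cohomology. -/
def LocCoh {r : ℕ} (f : Fin r → S) (k : ℕ) : Type :=
  cocycles f k ⧸ (coboundaries f k).submoduleOf (cocycles f k)

instance {r : ℕ} (f : Fin r → S) (k : ℕ) : AddCommGroup (LocCoh f k) :=
  Submodule.Quotient.addCommGroup _

instance {r : ℕ} (f : Fin r → S) (k : ℕ) : Module S (LocCoh f k) :=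
  Submodule.Quotient.module _

variable [IsLocalRing S]

/-- The dimension over the residue field of the socle of `H^k_I(S)`, that is of
`Hom_S(S / m, H^k_I(S)) = Ext^0_S(S / m, H^k_I(S))`. -/
def socleDim {r : ℕ} (f : Fin r → S) (k : ℕ) : ℕ :=
  Module.finrank (S ⧸ maximalIdeal S)
    (Submodule.torsionBySet S (LocCoh f k) (maximalIdeal S : Set S))

end Cech

end Pool.Agent.Lib.MP_52a0c0_ag
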