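import Mathlib

/-! # Laurent expansions in the fraction field of a power series ring -/

noncomputable section

namespace Pool.Agent.Lib.MP_52a0c0_ag

open MvPowerSeries

instance {σ A : Type} [CommRing A] [IsDomain A] : IsDomain (MvPowerSeries σ A) :=
  NoZeroDivisors.to_isDomain _

section Laurent

set_option linter.unusedSectionVars false

variable {σ : Type} [Fintype σ] [DecidableEq σ] {A : Type} [CommRing A]

open Classical in
/-- Coefficients indexed by vectors of integers. -/
def cz (p : MvPowerSeries σ A) (b : σ → ℤ) : A :=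
  if ∀ v, 0 ≤ b v then coeff (Finsupp.equivFunOnFinite.symm fun v => (b v).toNat) p else 0

theorem cz_of_neg (p : MvPowerSeries σ A) {b : σ → ℤ} (h : ¬ ∀ v, 0 ≤ b v) : cz p b = 0 :=
  if_neg h

theorem cz_nat (p : MvPowerSeries σ A) (n : σ →₀ ℕ) : cz p (fun v => (n v : ℤ)) = coeff n p := by
  unfold cz
  rw [if_pos fun v => Int.natCast_nonneg _]
  congr 1
  congr 1
  ext v
  simp

theorem nonneg_of_cz_ne {p : MvPowerSeries σ A} {b : σ → ℤ} (h : cz p b ≠ 0) (v : σ) :
    0 ≤ b v := by
  by_contra h1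
  exact h (cz_of_neg p fun h2 => h1 (h2 v))

theorem exists_nat {b : σ → ℤ} (h : ∀ v, 0 ≤ b v) :
    ∃ n : σ →₀ ℕ, b = fun v => (n v : ℤ) :=
  ⟨Finsupp.equivFunOnFinite.symm fun v => (b v).toNat, by
    funext v
    simp [h v]⟩

theorem cz_add (p p' : MvPowerSeries σ A) (b : σ → ℤ) : cz (p + p') b = cz p b + cz p' b := by
  unfold cz
  split_ifs
  · exact map_add _ _ _
  · simp

theorem cz_zsmul (n : ℤ) (p : MvPowerSeries σ A) (b : σ → ℤ) : cz (n • p) b = n • cz p b := by
  unfold cz
  split_ifs
  · exact map_zsmul _ _ _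
  · simp

theorem cz_zero (b : σ → ℤ) : cz (0 : MvPowerSeries σ A) b = 0 := by
  unfold cz
  split_ifs
  · exact map_zero _
  · rfl

theorem cz_ext {p p' : MvPowerSeries σ A} (h : ∀ b, cz p b = cz p' b) : p = p' := by
  ext n
  rw [← cz_nat, ← cz_nat, h]

theorem cz_monomial_mul (e : σ →₀ ℕ) (s : A) (p : MvPowerSeries σ A) (b : σ → ℤ) :
    cz (monomial e s * p) b = s * cz p (fun v => b v - e v) := by
  by_cases hb : ∀ v, 0 ≤ b v
  · obtain ⟨n, rfl⟩ := exists_nat hb
    rw [cz_nat, coeff_monomial_mul]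
    by_cases hen : e ≤ n
    · rw [if_pos hen, ← cz_nat]
      congr 2
      funext v
      rw [Finsupp.tsub_apply, Nat.cast_sub (hen v)]
    · rw [if_neg hen, cz_of_neg, mul_zero]
      intro h
      apply hen
      intro v
      have := h v
      beta_reduce at this
      omega
  · rw [cz_of_neg _ hb, cz_of_neg, mul_zero]
    intro h
    apply hb
    intro v
    have := h v
    have h2 : (0 : ℤ) ≤ e v := Int.natCast_nonneg _
    omega

/-- A power series with given coefficients. -/
theorem exists_cz (g : (σ → ℤ) → A) (hg : ∀ b, g b ≠ 0 → ∀ v, 0 ≤ b v) :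
    ∃ p : MvPowerSeries σ A, ∀ b, cz p b = g b := by
  refine ⟨fun n => g fun v => (n v : ℤ), fun b => ?_⟩
  by_cases hb : ∀ v, 0 ≤ b v
  · obtain ⟨n, rfl⟩ := exists_nat hb
    rw [cz_nat]
    rfl
  · rw [cz_of_neg _ hb]
    by_contra h
    exact hb (hg b (Ne.symm h))

variable [IsDomain A] {K : Type} [Field K] [Algebra A K] [IsFractionRing A K]

/-- The element `q` of the fraction field has the Laurent expansion `g`. -/
def Rep (q : FractionRing (MvPowerSeries σ A)) (g : (σ → ℤ) → K) : Prop :=
  ∃ (m : σ →₀ ℕ) (s : A) (p : MvPowerSeries σ A), s ≠ 0 ∧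
    algebraMap _ (FractionRing (MvPowerSeries σ A)) (monomial m s) * q =
      algebraMap _ (FractionRing (MvPowerSeries σ A)) p ∧
    ∀ b : σ → ℤ, algebraMap A K s * g b = algebraMap A K (cz p fun v => b v + m v)

theorem monomial_ne {m : σ →₀ ℕ} {s : A} (hs : s ≠ 0) :
    algebraMap _ (FractionRing (MvPowerSeries σ A)) (monomial m s) ≠ 0 := by
  rw [Ne, FaithfulSMul.algebraMap_eq_zero_iff]
  intro h
  have := congrArg (coeff m) h
  rw [coeff_monomial, if_pos rfl, map_zero] at this
  exact hs this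

theorem algK_ne {s : A} (hs : s ≠ 0) : algebraMap A K s ≠ 0 := by
  rw [Ne, FaithfulSMul.algebraMap_eq_zero_iff]
  exact hs

theorem algK_inj {s t : A} (h : algebraMap A K s = algebraMap A K t) : s = t :=
  FaithfulSMul.algebraMap_injective A K h

theorem algQ_inj {s t : MvPowerSeries σ A}
    (h : algebraMap _ (FractionRing (MvPowerSeries σ A)) s = algebraMap _ _ t) : s = t :=
  FaithfulSMul.algebraMap_injective _ (FractionRing (MvPowerSeries σ A)) h

theorem rep_iff {q q' : FractionRing (MvPowerSeries σ A)} {g g' : (σ → ℤ) → K}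
    (h : Rep q g) (h' : Rep q' g') : q = q' ↔ g = g' := by
  obtain ⟨m, s, p, hs, hp, hg⟩ := h
  obtain ⟨m', s', p', hs', hp', hg'⟩ := h'
  have h1 : q = q' ↔ monomial m' s' * p = monomial m s * p' := by
    constructor
    · rintro rfl
      apply algQ_inj
      rw [map_mul, map_mul, ← hp, ← hp']
      ring
    · intro h
      have h2 := congrArg (algebraMap _ (FractionRing (MvPowerSeries σ A))) h
      rw [map_mul, map_mul, ← hp, ← hp', ← mul_assoc, ← mul_assoc] at h2
      have h3 := mul_ne_zero (monomial_ne (m := m') hs') (monomial_ne (m := m) hs)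
      rw [mul_comm (algebraMap _ _ (monomial m s)) (algebraMap _ _ (monomial m' s'))] at h2
      exact mul_left_cancel₀ h3 h2
  rw [h1]
  constructor
  · intro h
    funext b
    have h2 : cz (monomial m' s' * p) (fun v => b v + m v + m' v) =
        cz (monomial m s * p') (fun v => b v + m v + m' v) := by rw [h]
    rw [cz_monomial_mul, cz_monomial_mul] at h2
    have e1 : (fun v => b v + m v + m' v - (m' v : ℤ)) = fun v => b v + m v := by
      funext v; ring
    have e2 : (fun v => b v + m v + m' v - (m v : ℤ)) = fun v => b v + m' v := by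
      funext v; ring
    rw [e1, e2] at h2
    have h3 := congrArg (algebraMap A K) h2
    rw [map_mul, map_mul, ← hg, ← hg', ← mul_assoc, ← mul_assoc,
      mul_comm (algebraMap A K s) (algebraMap A K s')] at h3
    exact mul_left_cancel₀ (mul_ne_zero (algK_ne hs') (algK_ne hs)) h3
  · intro h
    apply cz_ext
    intro b
    rw [cz_monomial_mul, cz_monomial_mul]
    apply algK_inj (K := K)
    have e1 : (fun v => b v - (m' v : ℤ)) = fun v => (b v - m' v - m v) + m v := by
      funext v; ring
    have e2 : (fun v => b v - (m v : ℤ)) = fun v => (b v - m' v - m v) + m' v := by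
      funext v; ring
    rw [map_mul, map_mul, e1, e2, ← hg, ← hg', h]
    ring

theorem Rep.zero : Rep (0 : FractionRing (MvPowerSeries σ A)) (0 : (σ → ℤ) → K) :=
  ⟨0, 1, 0, one_ne_zero, by simp, fun b => by simp [cz_zero]⟩

theorem Rep.add {q q' : FractionRing (MvPowerSeries σ A)} {g g' : (σ → ℤ) → K}
    (h : Rep q g) (h' : Rep q' g') : Rep (q + q') (g + g') := by
  obtain ⟨m, s, p, hs, hp, hg⟩ := h
  obtain ⟨m', s', p', hs', hp', hg'⟩ := h'
  refine ⟨m + m', s * s', monomial m' s' * p + monomial m s * p', mul_ne_zero hs hs', ?_, ?_⟩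
  · rw [← monomial_mul_monomial, map_add, map_mul, map_mul, map_mul, ← hp, ← hp']
    ring
  · intro b
    rw [cz_add, cz_monomial_mul, cz_monomial_mul, map_add, map_mul, map_mul, map_mul]
    have e1 : (fun v => b v + ((m + m') v : ℕ) - (m' v : ℤ)) = fun v => b v + m v := by
      funext v; rw [Finsupp.add_apply]; push_cast; ring
    have e2 : (fun v => b v + ((m + m') v : ℕ) - (m v : ℤ)) = fun v => b v + m' v := by
      funext v; rw [Finsupp.add_apply]; push_cast; ring
    rw [e1, e2, ← hg, ← hg', Pi.add_apply]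
    ring

theorem Rep.zsmul (n : ℤ) {q : FractionRing (MvPowerSeries σ A)} {g : (σ → ℤ) → K}
    (h : Rep q g) : Rep (n • q) (n • g) := by
  obtain ⟨m, s, p, hs, hp, hg⟩ := h
  refine ⟨m, s, n • p, hs, ?_, ?_⟩
  · rw [mul_smul_comm, hp, map_zsmul]
  · intro b
    rw [cz_zsmul, map_zsmul, ← hg, Pi.smul_apply, mul_smul_comm]

theorem Rep.sum {ι : Type} (T : Finset ι) {q : ι → FractionRing (MvPowerSeries σ A)}
    {g : ι → (σ → ℤ) → K} (h : ∀ i ∈ T, Rep (q i) (g i)) :
    Rep (∑ i ∈ T, q i) (∑ i ∈ T, g i) := by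
  classical
  induction T using Finset.induction_on with
  | empty => simpa using Rep.zero
  | insert i T hi ih =>
    rw [Finset.sum_insert hi, Finset.sum_insert hi]
    exact (h i (Finset.mem_insert_self i T)).add
      (ih fun j hj => h j (Finset.mem_insert_of_mem hj))

theorem Rep.monomial_mul (e : σ →₀ ℕ) (t : A) {q : FractionRing (MvPowerSeries σ A)}
    {g : (σ → ℤ) → K} (h : Rep q g) :
    Rep (algebraMap _ (FractionRing (MvPowerSeries σ A)) (monomial e t) * q)
      (fun b => algebraMap A K t * g fun v => b v - e v) := by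
  obtain ⟨m, s, p, hs, hp, hg⟩ := h
  refine ⟨m, s, monomial e t * p, hs, ?_, ?_⟩
  · rw [map_mul, ← hp]
    ring
  · intro b
    rw [cz_monomial_mul, map_mul]
    have e1 : (fun v => b v + m v - (e v : ℤ)) = fun v => (b v - e v) + m v := by
      funext v; ring
    rw [e1, ← hg]
    ring

theorem Rep.algebraMap (p : MvPowerSeries σ A) :
    Rep (algebraMap _ (FractionRing (MvPowerSeries σ A)) p) (fun b => algebraMap A K (cz p b)) := by
  refine ⟨0, 1, p, one_ne_zero, ?_, ?_⟩
  · have : (monomial (0 : σ →₀ ℕ)) (1 : A) = 1 := by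
      rw [monomial_zero_eq_C_apply, map_one]
    rw [this, map_one, one_mul]
  · intro b
    simp

/-- Laurent expansions are bounded. -/
theorem Rep.bounded {q : FractionRing (MvPowerSeries σ A)} {g : (σ → ℤ) → K} (h : Rep q g) :
    ∃ m : ℕ, ∀ b, g b ≠ 0 → ∀ v, -(m : ℤ) ≤ b v := by
  obtain ⟨m, s, p, hs, hp, hg⟩ := h
  refine ⟨∑ v, m v, fun b hb v => ?_⟩
  have h1 : cz p (fun v => b v + m v) ≠ 0 := by
    intro h2
    have := hg b
    rw [h2, map_zero] at this
    exact hb ((mul_eq_zero.mp this).resolve_left (algK_ne hs))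
  have h2 := nonneg_of_cz_ne h1 v
  have h3 : m v ≤ ∑ v, m v := Finset.single_le_sum (fun _ _ => Nat.zero_le _) (Finset.mem_univ v)
  have h4 : (m v : ℤ) ≤ ((∑ v, m v : ℕ) : ℤ) := by exact_mod_cast h3
  linarith

/-- Existence of an element with a given expansion. -/
theorem exists_rep (g : (σ → ℤ) → K) (m : ℕ) (hm : ∀ b, g b ≠ 0 → ∀ v, -(m : ℤ) ≤ b v)
    (s : A) (hs : s ≠ 0) (hg : ∀ b, ∃ a : A, algebraMap A K a = algebraMap A K s * g b) :
    ∃ q : FractionRing (MvPowerSeries σ A), Rep q g := by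
  choose a ha using hg
  let e : σ →₀ ℕ := Finsupp.equivFunOnFinite.symm fun _ => m
  have he : ∀ v, e v = m := fun v => rfl
  obtain ⟨p, hp⟩ := exists_cz (fun b : σ → ℤ => a fun v => b v - m) (by
    intro b hb v
    have h1 : g (fun v => b v - m) ≠ 0 := by
      intro h
      have h2 := ha (fun v => b v - m)
      rw [h, mul_zero] at h2
      exact hb (algK_inj (K := K) (by rw [h2, map_zero]))
    have := hm _ h1 v
    linarith)
  refine ⟨(algebraMap _ _ (monomial e s))⁻¹ * algebraMap _ _ p, e, s, p, hs, ?_, ?_⟩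
  · rw [mul_inv_cancel_left₀ (monomial_ne hs)]
  · intro b
    rw [hp]
    simp only [he]
    rw [ha]
    congr 3
    funext v
    ring

end Laurent

end Pool.Agent.Lib.MP_52a0c0_ag
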