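import Mathlib
import Pool.Agent.Lib.MP_52a0c0_ag.Laurent
import Pool.Agent.Lib.MP_52a0c0_ag.Defs

/-! # Localizations at monomials -/

noncomputable section

namespace Pool.Agent.Lib.MP_52a0c0_ag

open MvPowerSeries

section Away

set_option linter.unusedSectionVars false

variable {σ : Type} [Fintype σ] [DecidableEq σ] {A : Type} [CommRing A] [IsDomain A]
  {K : Type} [Field K] [Algebra A K] [IsFractionRing A K]

theorem monomial_pow' (e : σ →₀ ℕ) (s : A) (n : ℕ) :
    (monomial e s) ^ n = monomial (n • e) (s ^ n) := by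
  induction n with
  | zero => rw [pow_zero, pow_zero, zero_smul, monomial_zero_eq_C_apply, map_one]
  | succ n ih => rw [pow_succ, ih, monomial_mul_monomial, succ_nsmul, pow_succ]

variable (K) in
theorem away_iff {e : σ →₀ ℕ} {s0 : A} (hs0 : s0 ≠ 0) (q : FractionRing (MvPowerSeries σ A)) :
    InAway (monomial e s0) q ↔ ∃ g : (σ → ℤ) → K, Rep q g ∧
      (∀ b, g b ≠ 0 → ∀ v, e v = 0 → 0 ≤ b v) ∧
      ∃ n : ℕ, ∀ b, ∃ a : A, algebraMap A K a = algebraMap A K s0 ^ n * g b := by
  constructor
  · rintro ⟨n, p, hp⟩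
    rw [monomial_pow'] at hp
    have hs : algebraMap A K (s0 ^ n) ≠ 0 := algK_ne (pow_ne_zero n hs0)
    refine ⟨fun b => (algebraMap A K (s0 ^ n))⁻¹ * algebraMap A K (cz p fun v => b v + (n • e) v),
      ⟨n • e, s0 ^ n, p, pow_ne_zero n hs0, hp, fun b => ?_⟩, fun b hb v hv => ?_, n,
      fun b => ⟨cz p fun v => b v + (n • e) v, ?_⟩⟩
    · rw [mul_inv_cancel_left₀ hs]
    · have h1 : cz p (fun v => b v + (n • e) v) ≠ 0 := by
        intro h
        apply hb
        beta_reduce
        rw [h, map_zero, mul_zero]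
      have h2 := nonneg_of_cz_ne h1 v
      have h3 : (n • e) v = 0 := by
        rw [Finsupp.smul_apply, hv, smul_zero]
      rw [h3] at h2
      simpa using h2
    · rw [← map_pow, mul_inv_cancel_left₀ hs]
  · rintro ⟨g, hg, hsupp, n, hn⟩
    obtain ⟨m, hm⟩ := hg.bounded
    choose a ha using hn
    let N := n + m
    obtain ⟨p, hp⟩ := exists_cz (fun b : σ → ℤ => s0 ^ m * a fun v => b v - (N • e) v) (by
      intro b hb v
      have h1 : g (fun v => b v - (N • e) v) ≠ 0 := by
        intro h
        have h2 := ha (fun v => b v - (N • e) v)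
        rw [h, mul_zero] at h2
        have h3 := algK_inj (K := K) (h2.trans (map_zero _).symm)
        exact hb (by rw [h3, mul_zero])
      by_cases hv : e v = 0
      · have h2 := hsupp _ h1 v hv
        rw [Finsupp.smul_apply, hv, smul_zero] at h2
        simpa using h2
      · have h2 := hm _ h1 v
        rw [Finsupp.smul_apply] at h2
        have h3 : m ≤ N • e v := by
          rw [smul_eq_mul]
          calc m ≤ N * 1 := by omega
            _ ≤ N * e v := Nat.mul_le_mul_left N (Nat.pos_of_ne_zero hv)
        have h4 : (m : ℤ) ≤ ((N • e v : ℕ) : ℤ) := by exact_mod_cast h3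
        linarith)
    refine ⟨N, p, ?_⟩
    rw [monomial_pow', rep_iff (hg.monomial_mul (N • e) (s0 ^ N)) (Rep.algebraMap (K := K) p)]
    funext b
    rw [hp, map_mul, ha, map_pow, map_pow]
    have : N = m + n := by omega
    rw [this, pow_add]
    ring

/-- The exponent of a product of variables. -/
def ind (N : Finset σ) : σ →₀ ℕ := Finsupp.equivFunOnFinite.symm fun v => if v ∈ N then 1 else 0

theorem ind_apply (N : Finset σ) (v : σ) : ind N v = if v ∈ N then 1 else 0 := rfl

theorem prod_X (N : Finset σ) : ∏ v ∈ N, (X v : MvPowerSeries σ A) = monomial (ind N) 1 := by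
  induction N using Finset.induction_on with
  | empty =>
    rw [Finset.prod_empty]
    have : ind (∅ : Finset σ) = 0 := by
      ext v; simp [ind_apply]
    rw [this, monomial_zero_eq_C_apply, map_one]
  | insert u N hu ih =>
    rw [Finset.prod_insert hu, ih, X_def, monomial_mul_monomial, mul_one]
    have h0 : Finsupp.single u 1 + ind N = ind (insert u N) := by
      ext v
      rw [Finsupp.add_apply, ind_apply, ind_apply, Finsupp.single_apply]
      by_cases h : u = v
      · subst h
        simp [hu]
      · have h' : v ≠ u := Ne.symm h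
        simp [h, h']
    rw [h0]

theorem prod_monomial' {ι : Type} (T : Finset ι) (e : ι → σ →₀ ℕ) :
    ∏ i ∈ T, (monomial (e i) (1 : A)) = monomial (∑ i ∈ T, e i) 1 := by
  classical
  induction T using Finset.induction_on with
  | empty => rw [Finset.prod_empty, Finset.sum_empty, monomial_zero_eq_C_apply, map_one]
  | insert i T hi ih => rw [Finset.prod_insert hi, Finset.sum_insert hi, ih,
      monomial_mul_monomial, mul_one]

theorem sum_ind_eq_zero {ι : Type} (T : Finset ι) (N : ι → Finset σ) (v : σ) :
    (∑ i ∈ T, ind (N i)) v = 0 ↔ ∀ i ∈ T, v ∉ N i := by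
  rw [Finsupp.finsetSum_apply, Finset.sum_eq_zero_iff]
  refine forall₂_congr fun i _ => ?_
  rw [ind_apply]
  by_cases h : v ∈ N i <;> simp [h]

end Away

end Pool.Agent.Lib.MP_52a0c0_ag
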