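import Mathlib

/-! # A corner lemma for double complexes -/

namespace Pool.Agent.Lib.MP_52a0c0_ag

section Corner

variable {M : Type*} [AddCommGroup M] (E : ℕ → ℕ → AddSubgroup M) (δ d : M →+ M)

/-- Elements killed by both differentials. -/
def Zq (a b : ℕ) : AddSubgroup M := E (a + 1) (b + 1) ⊓ δ.ker ⊓ d.ker

/-- The corresponding boundaries. -/
def Bq (a b : ℕ) : AddSubgroup M :=
  (E a (b + 1) ⊓ d.ker).map δ ⊔ (E (a + 1) b ⊓ δ.ker).map d

/-- The elements that link two consecutive corners. -/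
def Wq (a b : ℕ) : AddSubgroup M := E (a + 1) (b + 1) ⊓ (d.comp δ).ker

variable {E δ d}

/-- The data of a double complex with exact rows and columns. -/
structure IsDouble (E : ℕ → ℕ → AddSubgroup M) (δ d : M →+ M) : Prop where
  comm : ∀ x, δ (d x) = d (δ x)
  dd : ∀ x, d (d x) = 0
  δδ : ∀ x, δ (δ x) = 0
  δ_mem : ∀ a b x, x ∈ E (a + 1) (b + 1) → δ x ∈ E (a + 2) (b + 1)
  d_mem : ∀ a b x, x ∈ E (a + 1) (b + 1) → d x ∈ E (a + 1) (b + 2)
  exact_δ : ∀ a b x, x ∈ E (a + 2) b → δ x = 0 → ∃ y ∈ E (a + 1) b, δ y = x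
  exact_d : ∀ a b x, x ∈ E a (b + 2) → d x = 0 → ∃ y ∈ E a (b + 1), d y = x
  left_bot : ∀ b, E 0 b = ⊥
  bot_bot : ∀ a, E a 0 = ⊥

variable (hE : IsDouble E δ d)

include hE in
theorem mem_Bq_left {a b : ℕ} {y : M} (hy : y ∈ Wq E δ d a b) :
    δ y ∈ Bq E δ d (a + 1) b ↔ d y ∈ Bq E δ d a (b + 1) := by
  obtain ⟨hy1, hy2⟩ := hy
  have hy2' : d (δ y) = 0 := hy2
  constructor
  · intro h
    obtain ⟨u, ⟨t, ⟨ht1, ht2⟩, rfl⟩, v, ⟨s, ⟨hs1, hs2⟩, rfl⟩, huv⟩ := AddSubgroup.mem_sup.mp h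
    have ht2' : d t = 0 := ht2
    have hs2' : δ s = 0 := hs2
    obtain ⟨s', hs1', rfl⟩ := hE.exact_δ a b s hs1 hs2'
    have key : d y = d (y - t - d s') := by
      rw [map_sub, map_sub, ht2', hE.dd, sub_zero, sub_zero]
    rw [key]
    refine AddSubgroup.mem_sup_right ⟨y - t - d s', ⟨?_, ?_⟩, rfl⟩
    · refine AddSubgroup.sub_mem _ (AddSubgroup.sub_mem _ hy1 ht1) ?_
      rcases b with _ | b
      · rw [hE.bot_bot] at hs1'
        rw [AddSubgroup.mem_bot.mp hs1', map_zero]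
        exact zero_mem _
      · exact hE.d_mem a b s' hs1'
    · change δ (y - t - d s') = 0
      rw [map_sub, map_sub, ← huv, hE.comm]
      abel
  · intro h
    obtain ⟨u, ⟨t, ⟨ht1, ht2⟩, rfl⟩, v, ⟨s, ⟨hs1, hs2⟩, rfl⟩, huv⟩ := AddSubgroup.mem_sup.mp h
    have ht2' : d t = 0 := ht2
    have hs2' : δ s = 0 := hs2
    obtain ⟨t', ht1', rfl⟩ := hE.exact_d a b t ht1 ht2'
    have key : δ y = δ (y - δ t' - s) := by
      rw [map_sub, map_sub, hE.δδ, hs2', sub_zero, sub_zero]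
    rw [key]
    refine AddSubgroup.mem_sup_left ⟨y - δ t' - s, ⟨?_, ?_⟩, rfl⟩
    · refine AddSubgroup.sub_mem _ (AddSubgroup.sub_mem _ hy1 ?_) hs1
      rcases a with _ | a
      · rw [hE.left_bot] at ht1'
        rw [AddSubgroup.mem_bot.mp ht1', map_zero]
        exact zero_mem _
      · exact hE.δ_mem a b t' ht1'
    · change d (y - δ t' - s) = 0
      rw [map_sub, map_sub, ← huv, ← hE.comm]
      abel

/-- The quotient group at a corner. -/
abbrev Quo (E : ℕ → ℕ → AddSubgroup M) (δ d : M →+ M) (a b : ℕ) : Type _ :=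
  (Zq E δ d a b) ⧸ ((Bq E δ d a b).addSubgroupOf (Zq E δ d a b))

/-- The first projection. -/
def toLeft (hE : IsDouble E δ d) (a b : ℕ) : Wq E δ d a b →+ Quo E δ d (a + 1) b :=
  (QuotientAddGroup.mk' _).comp
    { toFun := fun y => ⟨δ y.1, ⟨hE.δ_mem a b y.1 y.2.1, hE.δδ y.1⟩, y.2.2⟩
      map_zero' := by ext; simp
      map_add' := fun x y => by ext; simp }

/-- The second projection. -/
def toRight (hE : IsDouble E δ d) (a b : ℕ) : Wq E δ d a b →+ Quo E δ d a (b + 1) :=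
  (QuotientAddGroup.mk' _).comp
    { toFun := fun y => ⟨d y.1, ⟨hE.d_mem a b y.1 y.2.1, by
        change δ (d y.1) = 0
        rw [hE.comm]
        exact y.2.2⟩, hE.dd y.1⟩
      map_zero' := by ext; simp
      map_add' := fun x y => by ext; simp }

theorem ker_toLeft (a b : ℕ) : (toLeft hE a b).ker = (toRight hE a b).ker := by
  ext y
  rw [AddMonoidHom.mem_ker, AddMonoidHom.mem_ker]
  have h1 : toLeft hE a b y = 0 ↔ δ y.1 ∈ Bq E δ d (a + 1) b := by
    change (QuotientAddGroup.mk _ : Quo E δ d (a + 1) b) = 0 ↔ _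
    rw [QuotientAddGroup.eq_zero_iff]
    rfl
  have h2 : toRight hE a b y = 0 ↔ d y.1 ∈ Bq E δ d a (b + 1) := by
    change (QuotientAddGroup.mk _ : Quo E δ d a (b + 1)) = 0 ↔ _
    rw [QuotientAddGroup.eq_zero_iff]
    rfl
  rw [h1, h2]
  exact mem_Bq_left hE y.2

theorem toLeft_surjective (a b : ℕ) : Function.Surjective (toLeft hE a b) := by
  intro q
  obtain ⟨⟨x, ⟨hx1, hx2⟩, hx3⟩, rfl⟩ := QuotientAddGroup.mk_surjective q
  have hx2' : δ x = 0 := hx2
  have hx3' : d x = 0 := hx3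
  obtain ⟨y, hy, rfl⟩ := hE.exact_δ a (b + 1) x hx1 hx2'
  exact ⟨⟨y, hy, hx3'⟩, rfl⟩

theorem toRight_surjective (a b : ℕ) : Function.Surjective (toRight hE a b) := by
  intro q
  obtain ⟨⟨x, ⟨hx1, hx2⟩, hx3⟩, rfl⟩ := QuotientAddGroup.mk_surjective q
  have hx2' : δ x = 0 := hx2
  have hx3' : d x = 0 := hx3
  obtain ⟨y, hy, rfl⟩ := hE.exact_d (a + 1) b x hx1 hx3'
  refine ⟨⟨y, hy, ?_⟩, rfl⟩
  change d (δ y) = 0
  rw [← hE.comm]
  exact hx2'

include hE in
/-- Consecutive corners are isomorphic. -/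
theorem corner_step (a b : ℕ) : Nonempty (Quo E δ d (a + 1) b ≃+ Quo E δ d a (b + 1)) := by
  have e1 := QuotientAddGroup.quotientKerEquivOfSurjective _ (toLeft_surjective hE a b)
  have e2 := QuotientAddGroup.quotientKerEquivOfSurjective _ (toRight_surjective hE a b)
  have e3 := QuotientAddGroup.quotientAddEquivOfEq (ker_toLeft hE a b)
  exact ⟨e1.symm.trans (e3.trans e2)⟩

include hE in
/-- The corners are isomorphic. -/
theorem corner (k : ℕ) : Nonempty (Quo E δ d k 0 ≃+ Quo E δ d 0 k) := by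
  have h : ∀ a b : ℕ, Nonempty (Quo E δ d a b ≃+ Quo E δ d 0 (a + b)) := by
    intro a
    induction a with
    | zero =>
      intro b
      rw [Nat.zero_add]
      exact ⟨AddEquiv.refl _⟩
    | succ a ih =>
      intro b
      obtain ⟨e1⟩ := corner_step hE a b
      obtain ⟨e2⟩ := ih (b + 1)
      have h3 : a + 1 + b = a + (b + 1) := by ring
      rw [h3]
      exact ⟨e1.trans e2⟩
  simpa using h k 0

end Corner

end Pool.Agent.Lib.MP_52a0c0_ag
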