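import Mathlib

/-! # Simplicial cochains on finite sets -/

namespace Pool.Agent.Lib.MP_52a0c0_ag

section Sign

variable {X : Type*} [LinearOrder X] {B : Type*} [AddCommGroup B]

/-- The sign `(-1) ^ #{j ∈ T | j < i}`. -/
def sg (T : Finset X) (i : X) : ℤ := (-1) ^ (T.filter (fun j => j < i)).card

theorem sg_mul_self (T : Finset X) (i : X) : sg T i * sg T i = 1 := by
  unfold sg
  rw [← mul_pow]
  simp

theorem sg_swap_aux {T : Finset X} {i j : X} (hi : i ∈ T) (hij : i < j) :
    sg T i * sg (T.erase i) j = -(sg T j * sg (T.erase j) i) := by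
  unfold sg
  have h1 : (T.erase i).filter (fun x => x < j) = (T.filter (fun x => x < j)).erase i := by
    ext x
    simp only [Finset.mem_filter, Finset.mem_erase]
    tauto
  have h2 : (T.erase j).filter (fun x => x < i) = T.filter (fun x => x < i) := by
    ext x
    simp only [Finset.mem_filter, Finset.mem_erase]
    constructor
    · rintro ⟨⟨_, h⟩, h'⟩; exact ⟨h, h'⟩
    · rintro ⟨h, h'⟩; exact ⟨⟨(h'.trans hij).ne, h⟩, h'⟩
  have h3 : i ∈ T.filter (fun x => x < j) := Finset.mem_filter.mpr ⟨hi, hij⟩
  have h4 := Finset.card_erase_add_one h3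
  rw [h1, h2, ← h4, pow_succ]
  ring

theorem sg_swap {T : Finset X} {i j : X} (hi : i ∈ T) (hj : j ∈ T) (hij : i ≠ j) :
    sg T i * sg (T.erase i) j = -(sg T j * sg (T.erase j) i) := by
  rcases lt_or_gt_of_ne hij with h | h
  · exact sg_swap_aux hi h
  · rw [sg_swap_aux hj h, neg_neg]

/-- The coboundary. -/
def bd (c : Finset X → B) (T : Finset X) : B := ∑ i ∈ T, sg T i • c (T.erase i)

theorem bd_add (c c' : Finset X → B) (T : Finset X) : bd (c + c') T = bd c T + bd c' T := by
  simp [bd, Finset.sum_add_distrib]

theorem bd_zero (T : Finset X) : bd (0 : Finset X → B) T = 0 := by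
  simp [bd]

theorem bd_bd (c : Finset X → B) (T : Finset X) : bd (bd c) T = 0 := by
  unfold bd
  have h1 : ∀ i ∈ T, sg T i • ∑ j ∈ T.erase i, sg (T.erase i) j • c ((T.erase i).erase j) =
      ∑ j ∈ T.erase i, (sg T i * sg (T.erase i) j) • c ((T.erase i).erase j) := by
    intro i _
    rw [Finset.smul_sum]
    exact Finset.sum_congr rfl fun j _ => by rw [mul_smul]
  rw [Finset.sum_congr rfl h1, Finset.sum_sigma']
  refine Finset.sum_involution (fun p _ => ⟨p.2, p.1⟩) ?_ ?_ ?_ ?_
  · rintro ⟨i, j⟩ hp
    simp only [Finset.mem_sigma, Finset.mem_erase] at hp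
    obtain ⟨hi, hji, hj⟩ := hp
    rw [sg_swap hi hj (Ne.symm hji), Finset.erase_right_comm, neg_smul, neg_add_cancel]
  · rintro ⟨i, j⟩ hp _ h
    simp only [Finset.mem_sigma, Finset.mem_erase] at hp
    simp only [Sigma.mk.injEq] at h
    exact hp.2.1 h.1
  · rintro ⟨i, j⟩ hp
    simp only [Finset.mem_sigma, Finset.mem_erase] at hp ⊢
    exact ⟨hp.2.2, hp.2.1.symm, hp.1⟩
  · rintro ⟨i, j⟩ _
    rfl

/-- The contraction by `x`. -/
def ct (x : X) (c : Finset X → B) (T : Finset X) : B :=
  if x ∈ T then 0 else sg (insert x T) x • c (insert x T)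

theorem bd_ct (x : X) (c : Finset X → B) (T : Finset X) :
    bd (ct x c) T + ct x (bd c) T = c T := by
  by_cases hx : x ∈ T
  · have h2 : ct x (bd c) T = 0 := by simp [ct, hx]
    rw [h2, add_zero]
    unfold bd
    rw [Finset.sum_eq_single_of_mem x hx]
    · have h3 : ct x c (T.erase x) = sg T x • c T := by
        unfold ct
        rw [if_neg (Finset.notMem_erase x T), Finset.insert_erase hx]
      rw [h3, smul_smul, sg_mul_self, one_smul]
    · intro i hi hix
      have : x ∈ T.erase i := Finset.mem_erase.mpr ⟨hix.symm, hx⟩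
      simp [ct, this]
  · have hxi : x ∈ insert x T := Finset.mem_insert_self x T
    have h2 : ct x (bd c) T = sg (insert x T) x • bd c (insert x T) := by simp [ct, hx]
    rw [h2]
    unfold bd
    rw [Finset.sum_insert hx, Finset.erase_insert hx, smul_add, smul_smul, sg_mul_self, one_smul]
    have h4 : ∑ i ∈ T, sg T i • ct x c (T.erase i) +
        sg (insert x T) x • ∑ i ∈ T, sg (insert x T) i • c ((insert x T).erase i) = 0 := by
      rw [Finset.smul_sum, ← Finset.sum_add_distrib]
      refine Finset.sum_eq_zero fun i hi => ?_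
      have hix : i ≠ x := fun h => hx (h ▸ hi)
      have h5 : x ∉ T.erase i := fun h => hx (Finset.mem_of_mem_erase h)
      have h6 : insert x (T.erase i) = (insert x T).erase i := by
        rw [Finset.erase_insert_of_ne hix.symm]
      have h7 : ct x c (T.erase i) = sg ((insert x T).erase i) x • c ((insert x T).erase i) := by
        unfold ct
        rw [if_neg h5, h6]
      rw [h7, smul_smul, smul_smul, ← add_smul]
      have h8 := sg_swap (Finset.mem_insert_of_mem hi) hxi hix
      have h9 : (insert x T).erase x = T := Finset.erase_insert hx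
      rw [h9] at h8
      -- h8 : sg (insert x T) i * sg ((insert x T).erase i) x = -(sg (insert x T) x * sg T i)
      have h10 : sg T i * sg ((insert x T).erase i) x + sg (insert x T) x * sg (insert x T) i = 0 := by
        have e1 := sg_mul_self (insert x T) i
        have e2 := sg_mul_self (insert x T) x
        have e3 := sg_mul_self ((insert x T).erase i) x
        have : sg T i = - sg (insert x T) x * (sg (insert x T) i * sg ((insert x T).erase i) x) := by
          rw [h8]
          linear_combination (-sg T i) * e2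
        rw [this]
        linear_combination (-(sg (insert x T) x * sg (insert x T) i)) * e3
      rw [h10, zero_smul]
    rw [add_comm (c T), ← add_assoc, h4, zero_add]

end Sign

end Pool.Agent.Lib.MP_52a0c0_ag
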