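import Mathlib
import Pool.Agent.Lib.MP_52a0c0_ag.Corner
import Pool.Agent.Lib.MP_52a0c0_ag.Sign

/-! # The double complex of a relation -/

namespace Pool.Agent.Lib.MP_52a0c0_ag

section Double

set_option linter.unusedSectionVars false

variable {X Y : Type*} [LinearOrder X] [LinearOrder Y] {B : Type*} [AddCommGroup B]

/-- Pairs of sets without related elements. -/
def al (rel : X → Y → Prop) (A : Finset X) (G : Finset Y) (T : Finset X) (U : Finset Y) : Prop :=
  T ⊆ A ∧ U ⊆ G ∧ ∀ i ∈ T, ∀ v ∈ U, ¬ rel i v

open Classical in
/-- The horizontal differential. -/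
noncomputable def del (B : Type*) [AddCommGroup B] (rel : X → Y → Prop) (A : Finset X)
    (G : Finset Y) : (Finset X → Finset Y → B) →+ (Finset X → Finset Y → B) where
  toFun c T U := if al rel A G T U then bd (fun T' => c T' U) T else 0
  map_zero' := by
    funext T U
    split_ifs
    · exact bd_zero T
    · rfl
  map_add' c c' := by
    funext T U
    simp only [Pi.add_apply]
    split_ifs
    · exact bd_add (fun T' => c T' U) (fun T' => c' T' U) T
    · simp

/-- Exchange of the variables. -/
def flip (X Y B : Type*) [AddCommGroup B] :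
    (Finset X → Finset Y → B) →+ (Finset Y → Finset X → B) where
  toFun c U T := c T U
  map_zero' := rfl
  map_add' _ _ := rfl

/-- The swapped relation. -/
def sw (rel : X → Y → Prop) : Y → X → Prop := fun v i => rel i v

/-- The vertical differential. -/
noncomputable def ded (B : Type*) [AddCommGroup B] (rel : X → Y → Prop) (A : Finset X)
    (G : Finset Y) : (Finset X → Finset Y → B) →+ (Finset X → Finset Y → B) :=
  (flip Y X B).comp ((del B (sw rel) G A).comp (flip X Y B))

variable {rel : X → Y → Prop} {A : Finset X} {G : Finset Y}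

theorem al_sw {T : Finset X} {U : Finset Y} : al (sw rel) G A U T ↔ al rel A G T U := by
  unfold al sw
  constructor
  · rintro ⟨h1, h2, h3⟩; exact ⟨h2, h1, fun i hi v hv => h3 v hv i hi⟩
  · rintro ⟨h1, h2, h3⟩; exact ⟨h2, h1, fun i hi v hv => h3 v hv i hi⟩

theorem al_mono {T T' : Finset X} {U U' : Finset Y} (h : al rel A G T U) (hT : T' ⊆ T)
    (hU : U' ⊆ U) : al rel A G T' U' :=
  ⟨hT.trans h.1, hU.trans h.2.1, fun i hi v hv => h.2.2 i (hT hi) v (hU hv)⟩

theorem del_apply (c : Finset X → Finset Y → B) {T : Finset X} {U : Finset Y}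
    (h : al rel A G T U) : del B rel A G c T U = bd (fun T' => c T' U) T := if_pos h

theorem del_apply_not (c : Finset X → Finset Y → B) {T : Finset X} {U : Finset Y}
    (h : ¬ al rel A G T U) : del B rel A G c T U = 0 := if_neg h

theorem ded_apply (c : Finset X → Finset Y → B) {T : Finset X} {U : Finset Y}
    (h : al rel A G T U) : ded B rel A G c T U = bd (fun U' => c T U') U :=
  del_apply (rel := sw rel) (A := G) (G := A) (flip X Y B c) (al_sw.mpr h)

theorem ded_apply_not (c : Finset X → Finset Y → B) {T : Finset X} {U : Finset Y}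
    (h : ¬ al rel A G T U) : ded B rel A G c T U = 0 :=
  del_apply_not (rel := sw rel) (A := G) (G := A) (flip X Y B c) (fun h' => h (al_sw.mp h'))

theorem del_del (c : Finset X → Finset Y → B) : del B rel A G (del B rel A G c) = 0 := by
  funext T U
  by_cases h : al rel A G T U
  · rw [del_apply _ h]
    have h1 : bd (fun T' => del B rel A G c T' U) T = bd (bd (fun T' => c T' U)) T := by
      unfold bd
      refine Finset.sum_congr rfl fun i hi => ?_
      beta_reduce
      rw [del_apply _ (al_mono h (Finset.erase_subset i T) subset_rfl)]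
      rfl
    rw [h1, bd_bd]
    rfl
  · rw [del_apply_not _ h]; rfl

theorem del_ded (c : Finset X → Finset Y → B) :
    del B rel A G (ded B rel A G c) = ded B rel A G (del B rel A G c) := by
  funext T U
  by_cases h : al rel A G T U
  · rw [del_apply _ h, ded_apply _ h]
    unfold bd
    have h1 : ∀ i ∈ T, sg T i • ded B rel A G c (T.erase i) U =
        ∑ v ∈ U, (sg T i * sg U v) • c (T.erase i) (U.erase v) := by
      intro i hi
      rw [ded_apply _ (al_mono h (Finset.erase_subset i T) subset_rfl)]
      unfold bd
      rw [Finset.smul_sum]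
      exact Finset.sum_congr rfl fun v _ => by rw [mul_smul]
    have h2 : ∀ v ∈ U, sg U v • del B rel A G c T (U.erase v) =
        ∑ i ∈ T, (sg T i * sg U v) • c (T.erase i) (U.erase v) := by
      intro v hv
      rw [del_apply _ (al_mono h subset_rfl (Finset.erase_subset v U))]
      unfold bd
      rw [Finset.smul_sum]
      exact Finset.sum_congr rfl fun i _ => by rw [smul_smul, mul_comm]
    rw [Finset.sum_congr rfl h1, Finset.sum_congr rfl h2, Finset.sum_comm]
  · rw [del_apply_not _ h, ded_apply_not _ h]

/-- The bigraded pieces, with a shift by one. -/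
def Ed (B : Type*) [AddCommGroup B] (rel : X → Y → Prop) (A : Finset X) (G : Finset Y)
    (a b : ℕ) : AddSubgroup (Finset X → Finset Y → B) where
  carrier := {c | ∀ T U, c T U ≠ 0 → al rel A G T U ∧ T.card + 1 = a ∧ U.card + 1 = b}
  zero_mem' := fun T U h => absurd rfl h
  add_mem' := by
    intro c c' hc hc' T U h
    by_cases h1 : c T U = 0
    · refine hc' T U fun h2 => h ?_
      simp [h1, h2]
    · exact hc T U h1
  neg_mem' := by
    intro c hc T U h
    exact hc T U fun h1 => h (by simp [h1])

theorem exact_del (a b : ℕ) (x : Finset X → Finset Y → B) (hx : x ∈ Ed B rel A G (a + 2) b)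
    (h0 : del B rel A G x = 0) : ∃ y ∈ Ed B rel A G (a + 1) b, del B rel A G y = x := by
  classical
  -- choose a vertex
  let P : Finset Y → X → Prop := fun U i => i ∈ A ∧ ∀ v ∈ U, ¬ rel i v
  let y : Finset X → Finset Y → B := fun T U =>
    if h : (∃ i, P U i) ∧ al rel A G T U then ct h.1.choose (fun T' => x T' U) T else 0
  have hins : ∀ {T : Finset X} {U : Finset Y} {i : X}, P U i → al rel A G T U →
      al rel A G (insert i T) U := by
    intro T U i hi h
    refine ⟨Finset.insert_subset hi.1 h.1, h.2.1, ?_⟩
    intro j hj v hv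
    rcases Finset.mem_insert.mp hj with rfl | hj
    · exact hi.2 v hv
    · exact h.2.2 j hj v hv
  refine ⟨y, ?_, ?_⟩
  · intro T U hy
    by_cases h : (∃ i, P U i) ∧ al rel A G T U
    · have hy' : y T U = ct h.1.choose (fun T' => x T' U) T := dif_pos h
      rw [hy'] at hy
      unfold ct at hy
      by_cases h1 : h.1.choose ∈ T
      · rw [if_pos h1] at hy; exact absurd rfl hy
      · rw [if_neg h1] at hy
        have h2 : x (insert h.1.choose T) U ≠ 0 := fun h3 => hy (by beta_reduce; rw [h3, smul_zero])
        obtain ⟨-, h4, h5⟩ := hx _ _ h2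
        rw [Finset.card_insert_of_notMem h1] at h4
        exact ⟨h.2, by omega, h5⟩
    · exact absurd (dif_neg h) hy
  · funext T U
    by_cases h : al rel A G T U
    · rw [del_apply _ h]
      by_cases hP : ∃ i, P U i
      · have h1 : bd (fun T' => y T' U) T = bd (ct hP.choose (fun T' => x T' U)) T := by
          unfold bd
          refine Finset.sum_congr rfl fun i hi => ?_
          have h2 : (∃ i, P U i) ∧ al rel A G (T.erase i) U :=
            ⟨hP, al_mono h (Finset.erase_subset i T) subset_rfl⟩
          have h3 : y (T.erase i) U = ct h2.1.choose (fun T' => x T' U) (T.erase i) := dif_pos h2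
          beta_reduce
          rw [h3]
        have h4 := bd_ct hP.choose (fun T' => x T' U) T
        have h5 : ct hP.choose (bd (fun T' => x T' U)) T = 0 := by
          unfold ct
          split_ifs with h6
          · rfl
          · have h7 := congrFun (congrFun h0 (insert hP.choose T)) U
            rw [del_apply _ (hins hP.choose_spec h)] at h7
            rw [h7]
            simp
        rw [h1, ← h4, h5, add_zero]
      · have h1 : x T U = 0 := by
          by_contra h2
          obtain ⟨h3, h4, h5⟩ := hx _ _ h2
          have h6 : T.Nonempty := by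
            rw [← Finset.card_pos]; omega
          obtain ⟨i, hi⟩ := h6
          exact hP ⟨i, h3.1 hi, fun v hv => h3.2.2 i hi v hv⟩
        rw [h1]
        unfold bd
        refine Finset.sum_eq_zero fun i hi => ?_
        have h3 : y (T.erase i) U = 0 := dif_neg fun h' => hP h'.1
        simp only [h3, smul_zero]
    · rw [del_apply_not _ h]
      by_contra h2
      exact h (hx _ _ (Ne.symm h2)).1

theorem del_mem (a b : ℕ) (x : Finset X → Finset Y → B) (hx : x ∈ Ed B rel A G (a + 1) b) :
    del B rel A G x ∈ Ed B rel A G (a + 2) b := by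
  intro T U h
  by_cases hal : al rel A G T U
  · rw [del_apply _ hal] at h
    obtain ⟨i, hi, hi'⟩ := Finset.exists_ne_zero_of_sum_ne_zero h
    have h1 : x (T.erase i) U ≠ 0 := fun h2 => hi' (by simp [h2])
    obtain ⟨-, h2, h3⟩ := hx _ _ h1
    have h4 := Finset.card_erase_add_one hi
    exact ⟨hal, by omega, h3⟩
  · exact absurd (del_apply_not _ hal) h

theorem flip_mem {a b : ℕ} {x : Finset X → Finset Y → B} (hx : x ∈ Ed B rel A G a b) :
    flip X Y B x ∈ Ed B (sw rel) G A b a := by
  intro U T h
  obtain ⟨h1, h2, h3⟩ := hx T U h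
  exact ⟨al_sw.mpr h1, h3, h2⟩

theorem flip_mem' {a b : ℕ} {x : Finset Y → Finset X → B} (hx : x ∈ Ed B (sw rel) G A b a) :
    flip Y X B x ∈ Ed B rel A G a b := by
  intro T U h
  obtain ⟨h1, h2, h3⟩ := hx U T h
  exact ⟨al_sw.mp h1, h3, h2⟩

theorem isDouble (B : Type*) [AddCommGroup B] (rel : X → Y → Prop) (A : Finset X)
    (G : Finset Y) : IsDouble (Ed B rel A G) (del B rel A G) (ded B rel A G) where
  comm := del_ded
  dd := fun x => by
    change flip Y X B (del B (sw rel) G A (del B (sw rel) G A (flip X Y B x))) = 0
    rw [del_del]; rfl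
  δδ := del_del
  δ_mem := fun a b x hx => del_mem a (b + 1) x hx
  d_mem := fun a b x hx => flip_mem' (del_mem b (a + 1) _ (flip_mem hx))
  exact_δ := exact_del
  exact_d := by
    intro a b x hx h
    have h1 : del B (sw rel) G A (flip X Y B x) = 0 := by
      funext U T
      exact congrFun (congrFun h T) U
    obtain ⟨y, hy, hy'⟩ := exact_del b a _ (flip_mem hx) h1
    refine ⟨flip Y X B y, flip_mem' hy, ?_⟩
    change flip Y X B (del B (sw rel) G A y) = x
    rw [hy']
    rfl
  left_bot := by
    intro b
    rw [eq_bot_iff]
    intro x hx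
    rw [AddSubgroup.mem_bot]
    funext T U
    by_contra h
    have := (hx T U h).2.1
    omega
  bot_bot := by
    intro a
    rw [eq_bot_iff]
    intro x hx
    rw [AddSubgroup.mem_bot]
    funext T U
    by_contra h
    have := (hx T U h).2.2
    omega

end Double

end Pool.Agent.Lib.MP_52a0c0_ag
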