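import Mathlib
import Pool.Agent.Lib.MP_52a0c0_ag.Double

/-! # Duality of the two complexes attached to a relation -/

namespace Pool.Agent.Lib.MP_52a0c0_ag

section Dual

set_option linter.unusedSectionVars false

variable {X Y : Type*} [LinearOrder X] [LinearOrder Y] {B : Type*} [AddCommGroup B]

open Classical in
/-- The coboundary cut off outside `A`. -/
noncomputable def bdA (B : Type*) [AddCommGroup B] (A : Finset X) :
    (Finset X → B) →+ (Finset X → B) where
  toFun z T := if T ⊆ A then bd z T else 0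
  map_zero' := by
    funext T
    split_ifs
    · exact bd_zero T
    · rfl
  map_add' z z' := by
    funext T
    simp only [Pi.add_apply]
    split_ifs
    · exact bd_add z z' T
    · simp

/-- Cochains of degree `k` on the sets of `X` that dominate `G`. -/
def Kc (B : Type*) [AddCommGroup B] (rel : X → Y → Prop) (A : Finset X) (G : Finset Y) (k : ℕ) :
    AddSubgroup (Finset X → B) where
  carrier := {z | ∀ T, z T ≠ 0 → T ⊆ A ∧ T.card = k ∧ ∀ v ∈ G, ∃ i ∈ T, rel i v}
  zero_mem' := fun T h => absurd rfl h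
  add_mem' := by
    intro c c' hc hc' T h
    by_cases h1 : c T = 0
    · refine hc' T fun h2 => h ?_
      simp [h1, h2]
    · exact hc T h1
  neg_mem' := by
    intro c hc T h
    exact hc T fun h1 => h (by simp [h1])

/-- The cohomology in degree `k + 1`. -/
abbrev HK (B : Type*) [AddCommGroup B] (rel : X → Y → Prop) (A : Finset X) (G : Finset Y)
    (k : ℕ) : Type _ :=
  ↥(Kc B rel A G (k + 1) ⊓ (bdA B A).ker) ⧸
    (((Kc B rel A G k).map (bdA B A)).addSubgroupOf (Kc B rel A G (k + 1) ⊓ (bdA B A).ker))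

variable {rel : X → Y → Prop} {A : Finset X} {G : Finset Y}

open Classical in
/-- Cochains as bigraded cochains. -/
noncomputable def emb (X Y B : Type*) [AddCommGroup B] :
    (Finset X → B) →+ (Finset X → Finset Y → B) where
  toFun z T U := if U = ∅ then z T else 0
  map_zero' := by
    funext T U
    simp
  map_add' z z' := by
    funext T U
    simp only [Pi.add_apply]
    split_ifs <;> simp

theorem emb_empty (z : Finset X → B) (T : Finset X) : emb X Y B z T ∅ = z T := by
  simp [emb]

theorem emb_ne (z : Finset X → B) (T : Finset X) {U : Finset Y} (h : U ≠ ∅) :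
    emb X Y B z T U = 0 := by
  simp [emb, h]

theorem emb_injective : Function.Injective (emb X Y B) := by
  intro z z' h
  funext T
  have := congrFun (congrFun h T) ∅
  rwa [emb_empty, emb_empty] at this

theorem al_empty {T : Finset X} : al rel A G T ∅ ↔ T ⊆ A := by
  simp [al]

theorem emb_mem {k : ℕ} {z : Finset X → B} :
    emb X Y B z ∈ Ed B rel A G (k + 1) 1 ⊓ (ded B rel A G).ker ↔ z ∈ Kc B rel A G k := by
  constructor
  · rintro ⟨h1, h2⟩ T hT
    have h3 := h1 T ∅ (by rwa [emb_empty])
    refine ⟨h3.1.1, by omega, ?_⟩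
    intro v hv
    by_contra hcon
    push Not at hcon
    have h4 : al rel A G T {v} := by
      refine ⟨h3.1.1, Finset.singleton_subset_iff.mpr hv, ?_⟩
      intro i hi w hw
      rw [Finset.mem_singleton.mp hw]
      exact hcon i hi
    have h5 := congrFun (congrFun h2 T) {v}
    rw [ded_apply _ h4] at h5
    unfold bd at h5
    rw [Finset.sum_singleton, Finset.erase_singleton] at h5
    beta_reduce at h5
    rw [emb_empty] at h5
    have h6 : sg ({v} : Finset Y) v • (sg ({v} : Finset Y) v • z T) = z T := by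
      rw [smul_smul, sg_mul_self, one_smul]
    rw [h5] at h6
    exact hT (by rw [← h6]; exact smul_zero _)
  · intro hz
    refine ⟨?_, ?_⟩
    · intro T U h
      by_cases hU : U = ∅
      · subst hU
        rw [emb_empty] at h
        obtain ⟨h1, h2, h3⟩ := hz T h
        exact ⟨al_empty.mpr h1, by omega, by simp⟩
      · exact absurd (emb_ne z T hU) h
    · change ded B rel A G (emb X Y B z) = 0
      funext T U
      by_cases hal : al rel A G T U
      · rw [ded_apply _ hal]
        unfold bd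
        refine Finset.sum_eq_zero fun v hv => ?_
        by_cases h1 : U.erase v = ∅
        · beta_reduce
          rw [h1, emb_empty]
          by_cases h2 : z T = 0
          · rw [h2, smul_zero]
          · obtain ⟨i, hi, hiv⟩ := (hz T h2).2.2 v (hal.2.1 hv)
            exact absurd hiv (hal.2.2 i hi v hv)
        · beta_reduce
          rw [emb_ne _ _ h1, smul_zero]
      · rw [ded_apply_not _ hal]; rfl

theorem eq_emb {a : ℕ} {c : Finset X → Finset Y → B} (hc : c ∈ Ed B rel A G a 1) :
    c = emb X Y B (fun T => c T ∅) := by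
  funext T U
  by_cases hU : U = ∅
  · subst hU
    rw [emb_empty]
  · rw [emb_ne _ _ hU]
    by_contra h
    have h2 := (hc T U h).2.2
    have h3 : U.card = 0 := by omega
    exact hU (Finset.card_eq_zero.mp h3)

theorem del_emb (z : Finset X → B) :
    del B rel A G (emb X Y B z) = emb X Y B (bdA B A z) := by
  funext T U
  by_cases hU : U = ∅
  · subst hU
    rw [emb_empty]
    by_cases hT : T ⊆ A
    · rw [del_apply _ (al_empty.mpr hT)]
      have h1 : bdA B A z T = bd z T := if_pos hT
      rw [h1]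
      unfold bd
      refine Finset.sum_congr rfl fun i _ => ?_
      beta_reduce
      rw [emb_empty]
    · have h1 : bdA B A z T = 0 := if_neg hT
      rw [del_apply_not _ (fun h => hT (al_empty.mp h)), h1]
  · rw [emb_ne _ _ hU]
    by_cases hal : al rel A G T U
    · rw [del_apply _ hal]
      unfold bd
      refine Finset.sum_eq_zero fun i _ => ?_
      beta_reduce
      rw [emb_ne _ _ hU, smul_zero]
    · rw [del_apply_not _ hal]

/-- The map on cocycles. -/
noncomputable def embHom (B : Type*) [AddCommGroup B] (rel : X → Y → Prop) (A : Finset X)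
    (G : Finset Y) (k : ℕ) : ↥(Kc B rel A G (k + 1) ⊓ (bdA B A).ker) →+
      ↥(Zq (Ed B rel A G) (del B rel A G) (ded B rel A G) (k + 1) 0) where
  toFun z := ⟨emb X Y B z.1, by
    have h1 := emb_mem.mpr z.2.1
    refine ⟨⟨h1.1, ?_⟩, h1.2⟩
    change del B rel A G (emb X Y B z.1) = 0
    rw [del_emb]
    have h2 : bdA B A z.1 = 0 := z.2.2
    rw [h2, map_zero]⟩
  map_zero' := by
    apply Subtype.ext
    exact map_zero _
  map_add' x y := by
    apply Subtype.ext
    exact map_add _ _ _

theorem embHom_bijective (k : ℕ) : Function.Bijective (embHom B rel A G k) := by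
  constructor
  · intro x y hxy
    apply Subtype.ext
    exact emb_injective (congrArg Subtype.val hxy)
  · rintro ⟨c, ⟨hc1, hc2⟩, hc3⟩
    have h1 := eq_emb hc1
    have h2 : (fun T => c T ∅) ∈ Kc B rel A G (k + 1) := by
      rw [← emb_mem, ← h1]
      exact ⟨hc1, hc3⟩
    have h3 : bdA B A (fun T => c T ∅) = 0 := by
      apply emb_injective (X := X) (Y := Y) (B := B)
      rw [← del_emb (rel := rel) (A := A) (G := G), ← h1, map_zero]
      exact hc2
    refine ⟨⟨fun T => c T ∅, h2, h3⟩, ?_⟩
    apply Subtype.ext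
    exact h1.symm

theorem Bq_corner (k : ℕ) : Bq (Ed B rel A G) (del B rel A G) (ded B rel A G) (k + 1) 0 =
    ((Kc B rel A G k).map (bdA B A)).map (emb X Y B) := by
  unfold Bq
  have h1 : Ed B rel A G (k + 1 + 1) 0 = ⊥ := (isDouble B rel A G).bot_bot _
  rw [h1, bot_inf_eq, AddSubgroup.map_bot, sup_bot_eq]
  ext c
  constructor
  · rintro ⟨t, ht, rfl⟩
    have h2 := eq_emb ht.1
    refine ⟨bdA B A (fun T => t T ∅), ⟨fun T => t T ∅, ?_, rfl⟩, ?_⟩
    · change (fun T => t T ∅) ∈ Kc B rel A G k
      rw [← emb_mem, ← h2]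
      exact ht
    · rw [← del_emb (rel := rel) (A := A) (G := G), ← h2]
  · rintro ⟨_, ⟨z, hz, rfl⟩, rfl⟩
    exact ⟨emb X Y B z, emb_mem.mpr hz, del_emb z⟩

/-- The cohomology is the corner. -/
theorem corner_HK (B : Type*) [AddCommGroup B] (rel : X → Y → Prop) (A : Finset X)
    (G : Finset Y) (k : ℕ) : Nonempty (HK B rel A G k ≃+
      Quo (Ed B rel A G) (del B rel A G) (ded B rel A G) (k + 1) 0) := by
  refine ⟨QuotientAddGroup.congr _ _ (AddEquiv.ofBijective _ (embHom_bijective k)) ?_⟩
  ext ⟨c, hc⟩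
  rw [AddSubgroup.mem_addSubgroupOf, Bq_corner]
  constructor
  · rintro ⟨z, hz, hzc⟩
    have hzc' : emb X Y B z.1 = c := congrArg Subtype.val hzc
    exact ⟨z.1, hz, hzc'⟩
  · rintro ⟨z, hz, hzc⟩
    have hzc' : emb X Y B z = c := hzc
    obtain ⟨w, hw⟩ := (embHom_bijective k).2 ⟨c, hc⟩
    have hw' : emb X Y B w.1 = c := congrArg Subtype.val hw
    refine ⟨w, ?_, hw⟩
    have : w.1 = z := emb_injective (X := X) (Y := Y) (B := B) (hw'.trans hzc'.symm)
    change w.1 ∈ (Kc B rel A G k).map (bdA B A)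
    rw [this]
    exact hz

/-- The other corner. -/
theorem corner_flip (B : Type*) [AddCommGroup B] (rel : X → Y → Prop) (A : Finset X)
    (G : Finset Y) (k : ℕ) :
    Nonempty (Quo (Ed B (sw rel) G A) (del B (sw rel) G A) (ded B (sw rel) G A) k 0 ≃+
      Quo (Ed B rel A G) (del B rel A G) (ded B rel A G) 0 k) := by
  have hZ : ∀ c : Finset Y → Finset X → B,
      c ∈ Zq (Ed B (sw rel) G A) (del B (sw rel) G A) (ded B (sw rel) G A) k 0 ↔
      flip Y X B c ∈ Zq (Ed B rel A G) (del B rel A G) (ded B rel A G) 0 k := by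
    intro c
    constructor
    · rintro ⟨⟨h1, h2⟩, h3⟩
      refine ⟨⟨flip_mem' h1, ?_⟩, ?_⟩
      · funext T U
        exact congrFun (congrFun h3 U) T
      · funext T U
        exact congrFun (congrFun h2 U) T
    · rintro ⟨⟨h1, h2⟩, h3⟩
      refine ⟨⟨flip_mem h1, ?_⟩, ?_⟩
      · funext T U
        exact congrFun (congrFun h3 U) T
      · funext T U
        exact congrFun (congrFun h2 U) T
  let e : ↥(Zq (Ed B (sw rel) G A) (del B (sw rel) G A) (ded B (sw rel) G A) k 0) ≃+
      ↥(Zq (Ed B rel A G) (del B rel A G) (ded B rel A G) 0 k) :=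
    { toFun := fun c => ⟨flip Y X B c.1, (hZ _).mp c.2⟩
      invFun := fun c => ⟨flip X Y B c.1, (hZ _).mpr c.2⟩
      left_inv := fun _ => rfl
      right_inv := fun _ => rfl
      map_add' := fun _ _ => rfl }
  have hB : ∀ c : Finset Y → Finset X → B,
      c ∈ Bq (Ed B (sw rel) G A) (del B (sw rel) G A) (ded B (sw rel) G A) k 0 ↔
      flip Y X B c ∈ Bq (Ed B rel A G) (del B rel A G) (ded B rel A G) 0 k := by
    intro c
    unfold Bq
    rw [AddSubgroup.mem_sup, AddSubgroup.mem_sup]
    constructor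
    · rintro ⟨u, ⟨t, ⟨ht1, ht2⟩, rfl⟩, v, ⟨s, ⟨hs1, hs2⟩, rfl⟩, rfl⟩
      refine ⟨del B rel A G (flip Y X B s), ⟨flip Y X B s, ⟨flip_mem' hs1, ?_⟩, rfl⟩,
        ded B rel A G (flip Y X B t), ⟨flip Y X B t, ⟨flip_mem' ht1, ?_⟩, rfl⟩, ?_⟩
      · funext T U
        exact congrFun (congrFun hs2 U) T
      · funext T U
        exact congrFun (congrFun ht2 U) T
      · rw [map_add, add_comm]
        rfl
    · rintro ⟨u, ⟨t, ⟨ht1, ht2⟩, rfl⟩, v, ⟨s, ⟨hs1, hs2⟩, rfl⟩, huv⟩
      refine ⟨del B (sw rel) G A (flip X Y B s), ⟨flip X Y B s, ⟨flip_mem hs1, ?_⟩, rfl⟩,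
        ded B (sw rel) G A (flip X Y B t), ⟨flip X Y B t, ⟨flip_mem ht1, ?_⟩, rfl⟩, ?_⟩
      · funext U T
        exact congrFun (congrFun hs2 T) U
      · funext U T
        exact congrFun (congrFun ht2 T) U
      · funext U T
        have h := congrFun (congrFun huv T) U
        rw [add_comm] at h
        exact h
  refine ⟨QuotientAddGroup.congr _ _ e ?_⟩
  ext ⟨c, hc⟩
  rw [AddSubgroup.mem_addSubgroupOf]
  constructor
  · rintro ⟨z, hz, hzc⟩
    have hzc' : flip Y X B z.1 = c := congrArg Subtype.val hzc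
    have h : flip Y X B z.1 ∈ Bq (Ed B rel A G) (del B rel A G) (ded B rel A G) 0 k :=
      (hB _).mp hz
    rw [hzc'] at h
    exact h
  · intro h
    refine ⟨e.symm ⟨c, hc⟩, ?_, e.apply_symm_apply _⟩
    exact (hB _).mpr h

/-- **Duality.** -/
theorem duality (B : Type*) [AddCommGroup B] (rel : X → Y → Prop) (A : Finset X)
    (G : Finset Y) (k : ℕ) : Nonempty (HK B rel A G k ≃+ HK B (sw rel) G A k) := by
  obtain ⟨e1⟩ := corner_HK B rel A G k
  obtain ⟨e2⟩ := corner (isDouble B rel A G) (k + 1)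
  obtain ⟨e3⟩ := corner_flip B rel A G (k + 1)
  obtain ⟨e4⟩ := corner_HK B (sw rel) G A k
  exact ⟨e1.trans (e2.trans (e3.symm.trans e4.symm))⟩

end Dual

end Pool.Agent.Lib.MP_52a0c0_ag
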