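import Mathlib
import Pool.Agent.Lib.MP_52a0c0_ag.Dual
import Pool.Agent.Lib.MP_52a0c0_ag.Data

/-! # The finite computation -/

namespace Pool.Agent.Lib.MP_52a0c0_ag

section Finite

variable {B : Type*} [AddCommGroup B]

/-- The variable `v` occurs in the generator `i`. -/
def relN (i : Fin 20) (v : Fin 8) : Prop := v ∈ Ngen i

/-- A cochain given by its values on an indexed family. -/
def indf {a : ℕ} (e : Fin a → Finset (Fin 8)) (c : Fin a → B) (T : Finset (Fin 8)) : B :=
  ∑ t, if e t = T then c t else 0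

theorem bd_indf {a : ℕ} (e : Fin a → Finset (Fin 8)) (c : Fin a → B) (U : Finset (Fin 8)) :
    bd (indf e c) U = ∑ t, ent U (e t) • c t := by
  unfold bd indf ent
  have h1 : ∀ v ∈ U, sg U v • (∑ t, if e t = U.erase v then c t else 0) =
      ∑ t, (if U.erase v = e t then sg U v else 0) • c t := by
    intro v _
    rw [Finset.smul_sum]
    refine Finset.sum_congr rfl fun t _ => ?_
    by_cases h : e t = U.erase v
    · rw [if_pos h, if_pos h.symm]
    · rw [if_neg h, if_neg (Ne.symm h), smul_zero, zero_smul]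
  rw [Finset.sum_congr rfl h1, Finset.sum_comm]
  refine Finset.sum_congr rfl fun t _ => ?_
  rw [Finset.sum_smul]

theorem indf_apply {a : ℕ} {e : Fin a → Finset (Fin 8)} (he : ∀ i j, e i = e j → i = j)
    (c : Fin a → B) (t : Fin a) : indf e c (e t) = c t := by
  unfold indf
  rw [Finset.sum_eq_single t]
  · rw [if_pos rfl]
  · intro s _ hs
    rw [if_neg fun h => hs (he s t h)]
  · intro h
    exact absurd (Finset.mem_univ t) h

theorem exists_of_indf_ne {a : ℕ} {e : Fin a → Finset (Fin 8)} {c : Fin a → B}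
    {T : Finset (Fin 8)} (h : indf e c T ≠ 0) : ∃ t, e t = T ∧ c t ≠ 0 := by
  obtain ⟨t, _, ht⟩ := Finset.exists_ne_zero_of_sum_ne_zero h
  by_cases h1 : e t = T
  · exact ⟨t, h1, by rwa [if_pos h1] at ht⟩
  · rw [if_neg h1] at ht
    exact absurd rfl ht

theorem indf_eq {a : ℕ} {e : Fin a → Finset (Fin 8)} (he : ∀ i j, e i = e j → i = j)
    (w : Finset (Fin 8) → B) (hw : ∀ T, w T ≠ 0 → ∃ t, e t = T) :
    indf e (fun t => w (e t)) = w := by
  funext T
  by_cases h : ∃ t, e t = T
  · obtain ⟨t, rfl⟩ := h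
    rw [indf_apply he]
  · have h1 : w T = 0 := by
      by_contra h2
      exact h (hw T h2)
    rw [h1]
    by_contra h3
    obtain ⟨t, ht, -⟩ := exists_of_indf_ne h3
    exact h ⟨t, ht⟩

theorem bdA_mem {X Y : Type*} [LinearOrder X] [LinearOrder Y] {rel : X → Y → Prop}
    {A : Finset X} {G : Finset Y} {k : ℕ} {z : Finset X → B} (hz : z ∈ Kc B rel A G k) :
    bdA B A z ∈ Kc B rel A G (k + 1) := by
  intro T hT
  by_cases hTA : T ⊆ A
  · have h1 : bdA B A z T = bd z T := if_pos hTA
    rw [h1] at hT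
    obtain ⟨i, hi, hi'⟩ := Finset.exists_ne_zero_of_sum_ne_zero hT
    have h2 : z (T.erase i) ≠ 0 := fun h => hi' (by rw [h, smul_zero])
    obtain ⟨-, h3, h4⟩ := hz _ h2
    refine ⟨hTA, ?_, ?_⟩
    · rw [← Finset.card_erase_add_one hi, h3]
    · intro v hv
      obtain ⟨j, hj, hjv⟩ := h4 v hv
      exact ⟨j, Finset.mem_of_mem_erase hj, hjv⟩
  · exact absurd (if_neg hTA) hT

theorem mem_six {A : Finset (Fin 8)} {w : Finset (Fin 8) → B}
    (hw : w ∈ Kc B (sw relN) A Finset.univ 6) (T : Finset (Fin 8)) (hT : w T ≠ 0) :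
    ∃ t, e6 t = T := by
  obtain ⟨-, h1, h2⟩ := hw T hT
  exact e6_surj T h1 fun i => h2 i (Finset.mem_univ i)

theorem mem_five {A : Finset (Fin 8)} {w : Finset (Fin 8) → B}
    (hw : w ∈ Kc B (sw relN) A Finset.univ 5) (T : Finset (Fin 8)) (hT : w T ≠ 0) :
    ∃ t, e5 t = T := by
  obtain ⟨-, h1, h2⟩ := hw T hT
  exact e5_surj T h1 fun i => h2 i (Finset.mem_univ i)

theorem bd_six {A : Finset (Fin 8)} {w : Finset (Fin 8) → B}
    (hw : w ∈ Kc B (sw relN) A Finset.univ 6) (l : Fin 8) :
    bd w (e7 l) = ∑ j, M2 l j • w (e6 j) := by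
  conv_lhs => rw [← indf_eq e6_inj w (mem_six hw)]
  rw [bd_indf]
  exact Finset.sum_congr rfl fun j _ => by rw [ent_e6]

theorem bd_five {A : Finset (Fin 8)} {y : Finset (Fin 8) → B}
    (hy : y ∈ Kc B (sw relN) A Finset.univ 5) (j : Fin 22) :
    bd y (e6 j) = ∑ t, M1 j t • y (e5 t) := by
  conv_lhs => rw [← indf_eq e5_inj y (mem_five hy)]
  rw [bd_indf]
  exact Finset.sum_congr rfl fun j _ => by rw [ent_e5]

theorem indf_five_mem (c : Fin 14 → B) :
    indf e5 c ∈ Kc B (sw relN) Finset.univ Finset.univ 5 := by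
  intro T hT
  obtain ⟨t, rfl, -⟩ := exists_of_indf_ne hT
  exact ⟨Finset.subset_univ _, (e5_dom t).1, fun i _ => (e5_dom t).2 i⟩

theorem indf_six_mem (c : Fin 22 → B) :
    indf e6 c ∈ Kc B (sw relN) Finset.univ Finset.univ 6 := by
  intro T hT
  obtain ⟨t, rfl, -⟩ := exists_of_indf_ne hT
  exact ⟨Finset.subset_univ _, (e6_dom t).1, fun i _ => (e6_dom t).2 i⟩

/-- A matrix acting on vectors with entries in an abelian group. -/
theorem sum_sum_smul {a b : ℕ} (P : Fin a → ℤ) (Q : Fin a → Fin b → ℤ) (x : Fin b → B) :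
    ∑ i, P i • ∑ j, Q i j • x j = ∑ j, (∑ i, P i * Q i j) • x j := by
  have h1 : ∀ i, P i • ∑ j, Q i j • x j = ∑ j, (P i * Q i j) • x j := by
    intro i
    rw [Finset.smul_sum]
    exact Finset.sum_congr rfl fun j _ => by rw [smul_smul]
  rw [Finset.sum_congr rfl fun i _ => h1 i, Finset.sum_comm]
  exact Finset.sum_congr rfl fun j _ => by rw [Finset.sum_smul]

theorem eval_main (x : Fin 22 → B) (i : Fin 22) :
    x i = cGam0 i • (∑ j, cAlpha j • x j) + cGam1 i • (∑ j, cBeta j • x j) +
      ∑ t, M1 i t • (∑ j, cH t j • x j) + ∑ l, cK i l • (∑ j, M2 l j • x j) := by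
  rw [sum_sum_smul, sum_sum_smul, Finset.smul_sum, Finset.smul_sum, ← Finset.sum_add_distrib,
    ← Finset.sum_add_distrib, ← Finset.sum_add_distrib]
  have h1 : ∀ j, cGam0 i • cAlpha j • x j + cGam1 i • cBeta j • x j +
      (∑ t, M1 i t * cH t j) • x j + (∑ l, cK i l * M2 l j) • x j =
      (if i = j then (1 : ℤ) else 0) • x j := by
    intro j
    rw [cert_main, smul_smul, smul_smul, ← add_smul, ← add_smul, ← add_smul]
  rw [Finset.sum_congr rfl fun j _ => h1 j]
  simp

/-- The multiples of two. -/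
def two (B : Type*) [AddCommGroup B] : AddSubgroup B := (zsmulAddGroupHom (2 : ℤ)).range

/-- The complete invariant of a cocycle. -/
def inv6 (B : Type*) [AddCommGroup B] :
    ↥(Kc B (sw relN) Finset.univ Finset.univ (5 + 1) ⊓ (bdA B Finset.univ).ker) →+
      B × (B ⧸ two B) where
  toFun w := (∑ j, cAlpha j • w.1 (e6 j),
    QuotientAddGroup.mk (∑ j, cBeta j • w.1 (e6 j)))
  map_zero' := by
    simp
  map_add' w w' := by
    simp only [AddSubgroup.coe_add, Pi.add_apply, smul_add, Finset.sum_add_distrib]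
    rfl

theorem bdA_univ {X : Type*} [LinearOrder X] [Fintype X] (z : Finset X → B) (T : Finset X) :
    bdA B Finset.univ z T = bd z T := if_pos (Finset.subset_univ T)

theorem cocycle_six {c : Fin 22 → B} (hc : ∀ l, ∑ j, M2 l j • c j = 0) :
    bdA B Finset.univ (indf e6 c) = 0 := by
  have h1 := bdA_mem (indf_six_mem c)
  funext U
  by_contra h
  obtain ⟨-, h2, -⟩ := h1 U h
  have h3 : ∃ l, e7 l = U := by
    have : ∀ U : Finset (Fin 8), U.card = 7 → ∃ l, e7 l = U := by decide +kernel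
    exact this U h2
  obtain ⟨l, rfl⟩ := h3
  apply h
  rw [bdA_univ, bd_indf, Finset.sum_congr rfl fun j _ => by rw [ent_e6]]
  exact hc l

theorem inv6_surjective : Function.Surjective (inv6 B) := by
  rintro ⟨b, c⟩
  obtain ⟨c, rfl⟩ := QuotientAddGroup.mk_surjective c
  let x : Fin 22 → B := fun j => cGam0 j • b + cGam1 j • c
  have hx : ∀ l, ∑ j, M2 l j • x j = 0 := by
    intro l
    have h1 : ∀ j, M2 l j • x j = (M2 l j * cGam0 j) • b + (M2 l j * cGam1 j) • c := by
      intro j
      simp only [x, smul_add, smul_smul]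
    rw [Finset.sum_congr rfl fun j _ => h1 j, Finset.sum_add_distrib, ← Finset.sum_smul,
      ← Finset.sum_smul, cert_gam0, cert_gam1, zero_smul, zero_smul, add_zero]
  refine ⟨⟨indf e6 x, indf_six_mem x, cocycle_six hx⟩, ?_⟩
  have h2 : ∀ a : Fin 22 → ℤ, ∑ j, a j • indf e6 x (e6 j) =
      (∑ j, a j * cGam0 j) • b + (∑ j, a j * cGam1 j) • c := by
    intro a
    rw [Finset.sum_smul, Finset.sum_smul, ← Finset.sum_add_distrib]
    refine Finset.sum_congr rfl fun j _ => ?_
    rw [indf_apply e6_inj]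
    simp only [x, smul_add, smul_smul]
  change (∑ j, cAlpha j • indf e6 x (e6 j),
    (QuotientAddGroup.mk (∑ j, cBeta j • indf e6 x (e6 j)) : B ⧸ two B)) = _
  rw [h2, h2, cert_dot.1, cert_dot.2.1, cert_dot.2.2.1, cert_dot.2.2.2]
  simp

theorem inv6_ker : (inv6 B).ker = ((Kc B (sw relN) Finset.univ Finset.univ 5).map
    (bdA B Finset.univ)).addSubgroupOf _ := by
  ext ⟨w, hw1, hw2⟩
  have hw2' : bdA B Finset.univ w = 0 := hw2
  rw [AddMonoidHom.mem_ker]
  constructor
  · intro h
    have ha : ∑ j, cAlpha j • w (e6 j) = 0 := congrArg Prod.fst h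
    have hb : (QuotientAddGroup.mk (∑ j, cBeta j • w (e6 j)) : B ⧸ two B) = 0 :=
      congrArg Prod.snd h
    rw [QuotientAddGroup.eq_zero_iff] at hb
    obtain ⟨c, hc⟩ := hb
    have hc' : (2 : ℤ) • c = ∑ j, cBeta j • w (e6 j) := hc
    let y : Fin 14 → B := fun t => cTau t • c + ∑ j, cH t j • w (e6 j)
    refine ⟨indf e5 y, indf_five_mem y, ?_⟩
    have h1 := bdA_mem (indf_five_mem y)
    funext U
    by_cases hU : ∃ j, e6 j = U
    · obtain ⟨i, rfl⟩ := hU
      change bdA B Finset.univ (indf e5 y) (e6 i) = w (e6 i)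
      rw [bdA_univ, bd_indf, Finset.sum_congr rfl fun j _ => by rw [ent_e5],
        eval_main (fun j => w (e6 j)) i, ha, smul_zero, zero_add, ← hc', smul_smul]
      have h2 : ∀ l, ∑ j, M2 l j • w (e6 j) = 0 := by
        intro l
        rw [← bd_six hw1, ← bdA_univ, hw2']
        rfl
      have h3 : ∑ l, cK i l • (∑ j, M2 l j • w (e6 j)) = 0 :=
        Finset.sum_eq_zero fun l _ => by rw [h2, smul_zero]
      rw [h3, add_zero]
      simp only [y, smul_add, Finset.sum_add_distrib, smul_smul]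
      rw [← Finset.sum_smul, cert_tau, mul_comm]
    · have h2 : w U = 0 := by
        by_contra h3
        exact hU (mem_six hw1 U h3)
      change bdA B Finset.univ (indf e5 y) U = w U
      rw [h2]
      by_contra h3
      exact hU (mem_six h1 U h3)
  · rintro ⟨y, hy, hyw⟩
    have hyw' : bdA B Finset.univ y = w := hyw
    have h1 : ∀ j, w (e6 j) = ∑ t, M1 j t • y (e5 t) := by
      intro j
      rw [← hyw', bdA_univ, bd_five hy]
    change (∑ j, cAlpha j • w (e6 j),
      (QuotientAddGroup.mk (∑ j, cBeta j • w (e6 j)) : B ⧸ two B)) = 0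
    simp only [h1]
    rw [sum_sum_smul, sum_sum_smul]
    simp only [cert_alpha, cert_beta, zero_smul, Finset.sum_const_zero]
    refine Prod.ext rfl ?_
    change (QuotientAddGroup.mk _ : B ⧸ two B) = 0
    rw [QuotientAddGroup.eq_zero_iff]
    refine ⟨∑ t, cBeta2 t • y (e5 t), ?_⟩
    change (2 : ℤ) • ∑ t, cBeta2 t • y (e5 t) = _
    rw [Finset.smul_sum]
    exact Finset.sum_congr rfl fun t _ => by rw [smul_smul]

/-- **The cohomology.** -/
theorem finite_univ (B : Type*) [AddCommGroup B] :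
    Nonempty (HK B (sw relN) Finset.univ Finset.univ 5 ≃+ B × (B ⧸ two B)) := by
  have e1 := QuotientAddGroup.quotientKerEquivOfSurjective _ (inv6_surjective (B := B))
  have e2 := QuotientAddGroup.quotientAddEquivOfEq (inv6_ker (B := B))
  exact ⟨e2.symm.trans e1⟩

/-- **Vanishing at the links.** -/
theorem finite_star (B : Type*) [AddCommGroup B] (v : Fin 8) :
    Subsingleton (HK B (sw relN) (Finset.univ.erase v) Finset.univ 5) := by
  refine ⟨fun a b => ?_⟩
  have key : ∀ a : HK B (sw relN) (Finset.univ.erase v) Finset.univ 5, a = 0 := by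
    intro a
    obtain ⟨⟨w, hw1, hw2⟩, rfl⟩ := QuotientAddGroup.mk_surjective a
    rw [QuotientAddGroup.eq_zero_iff]
    have hw2' : bdA B (Finset.univ.erase v) w = 0 := hw2
    let y : Fin 14 → B := fun t => ∑ j, cHV v t j • w (e6 j)
    have hy : indf e5 y ∈ Kc B (sw relN) (Finset.univ.erase v) Finset.univ 5 := by
      intro T hT
      obtain ⟨t, rfl, ht⟩ := exists_of_indf_ne hT
      refine ⟨?_, (e5_dom t).1, fun i _ => (e5_dom t).2 i⟩
      intro u hu
      refine Finset.mem_erase.mpr ⟨?_, Finset.mem_univ u⟩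
      rintro rfl
      apply ht
      exact Finset.sum_eq_zero fun j _ => by rw [cert_star0 _ t j hu, zero_smul]
    refine ⟨indf e5 y, hy, ?_⟩
    have h1 := bdA_mem hy
    funext U
    change bdA B (Finset.univ.erase v) (indf e5 y) U = w U
    by_cases hU : (∃ j, e6 j = U) ∧ v ∉ U
    · obtain ⟨⟨i, rfl⟩, hv⟩ := hU
      have hsub : e6 i ⊆ Finset.univ.erase v := by
        intro u hu
        refine Finset.mem_erase.mpr ⟨?_, Finset.mem_univ u⟩
        rintro rfl
        exact hv hu
      have h2 : bdA B (Finset.univ.erase v) (indf e5 y) (e6 i) = bd (indf e5 y) (e6 i) :=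
        if_pos hsub
      rw [h2, bd_indf, Finset.sum_congr rfl fun j _ => by rw [ent_e5]]
      have h3 : ∑ j, M2 v j • w (e6 j) = 0 := by
        rw [← bd_six hw1]
        have h4 : bdA B (Finset.univ.erase v) w (e7 v) = bd w (e7 v) := by
          apply if_pos
          rw [e7_eq]
        rw [← h4, hw2']
        rfl
      have h5 : ∀ j, w (e6 j) = 0 ∨ v ∉ e6 j := by
        intro j
        by_cases h6 : w (e6 j) = 0
        · exact Or.inl h6
        · right
          intro h7
          exact (Finset.mem_erase.mp ((hw1 _ h6).1 h7)).1 rfl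
      have h6 : w (e6 i) = ∑ j, (if i = j then (1 : ℤ) else 0) • w (e6 j) := by simp
      rw [h6]
      have h7 : ∀ j, (if i = j then (1 : ℤ) else 0) • w (e6 j) =
          (∑ t, M1 i t * cHV v t j + cKV v i * M2 v j) • w (e6 j) := by
        intro j
        rcases h5 j with h8 | h8
        · rw [h8, smul_zero, smul_zero]
        · rw [cert_star v i j hv h8]
      rw [Finset.sum_congr rfl fun j _ => h7 j]
      simp only [add_smul, Finset.sum_add_distrib, mul_smul]
      rw [← Finset.smul_sum, h3, smul_zero, add_zero]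
      simp only [y]
      rw [sum_sum_smul]
    · have h2 : w U = 0 := by
        by_contra h3
        refine hU ⟨mem_six hw1 U h3, fun h4 => ?_⟩
        exact (Finset.mem_erase.mp ((hw1 U h3).1 h4)).1 rfl
      rw [h2]
      by_contra h3
      refine hU ⟨mem_six h1 U h3, fun h4 => ?_⟩
      exact (Finset.mem_erase.mp ((h1 U h3).1 h4)).1 rfl
  rw [key a, key b]

end Finite

end Pool.Agent.Lib.MP_52a0c0_ag
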