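import Mathlib

/-! # Isomorphisms from additive relations -/

namespace Pool.Agent.Lib.MP_52a0c0_ag

section Rel

variable {G H : Type*} [AddCommGroup G] [AddCommGroup H]

/-- Two subquotients related by an additive relation are isomorphic. -/
theorem rel_equiv (R : AddSubgroup (G × H)) (S B : AddSubgroup G) (S' B' : AddSubgroup H)
    (h1 : ∀ x ∈ S, ∃ y ∈ S', (x, y) ∈ R) (h2 : ∀ y ∈ S', ∃ x ∈ S, (x, y) ∈ R)
    (h3 : ∀ x ∈ S, ∀ y ∈ S', (x, y) ∈ R → (x ∈ B ↔ y ∈ B')) :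
    Nonempty ((S ⧸ B.addSubgroupOf S) ≃+ (S' ⧸ B'.addSubgroupOf S')) := by
  let W : AddSubgroup (G × H) := R ⊓ S.prod S'
  let f : W →+ S ⧸ B.addSubgroupOf S := (QuotientAddGroup.mk' _).comp
    { toFun := fun w => ⟨w.1.1, (AddSubgroup.mem_prod.mp w.2.2).1⟩
      map_zero' := rfl
      map_add' := fun _ _ => rfl }
  let g : W →+ S' ⧸ B'.addSubgroupOf S' := (QuotientAddGroup.mk' _).comp
    { toFun := fun w => ⟨w.1.2, (AddSubgroup.mem_prod.mp w.2.2).2⟩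
      map_zero' := rfl
      map_add' := fun _ _ => rfl }
  have hf : Function.Surjective f := by
    intro q
    obtain ⟨⟨x, hx⟩, rfl⟩ := QuotientAddGroup.mk_surjective q
    obtain ⟨y, hy, hxy⟩ := h1 x hx
    exact ⟨⟨(x, y), hxy, AddSubgroup.mem_prod.mpr ⟨hx, hy⟩⟩, rfl⟩
  have hg : Function.Surjective g := by
    intro q
    obtain ⟨⟨y, hy⟩, rfl⟩ := QuotientAddGroup.mk_surjective q
    obtain ⟨x, hx, hxy⟩ := h2 y hy
    exact ⟨⟨(x, y), hxy, AddSubgroup.mem_prod.mpr ⟨hx, hy⟩⟩, rfl⟩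
  have hker : f.ker = g.ker := by
    ext ⟨⟨x, y⟩, hxy, hxy'⟩
    have hx := (AddSubgroup.mem_prod.mp hxy').1
    have hy := (AddSubgroup.mem_prod.mp hxy').2
    rw [AddMonoidHom.mem_ker, AddMonoidHom.mem_ker]
    have e1 : f ⟨(x, y), hxy, hxy'⟩ = 0 ↔ x ∈ B := by
      change (QuotientAddGroup.mk (⟨x, hx⟩ : S) : S ⧸ B.addSubgroupOf S) = 0 ↔ _
      rw [QuotientAddGroup.eq_zero_iff]
      rfl
    have e2 : g ⟨(x, y), hxy, hxy'⟩ = 0 ↔ y ∈ B' := by
      change (QuotientAddGroup.mk (⟨y, hy⟩ : S') : S' ⧸ B'.addSubgroupOf S') = 0 ↔ _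
      rw [QuotientAddGroup.eq_zero_iff]
      rfl
    rw [e1, e2]
    exact h3 x hx y hy hxy
  have e1 := QuotientAddGroup.quotientKerEquivOfSurjective f hf
  have e2 := QuotientAddGroup.quotientKerEquivOfSurjective g hg
  have e3 := QuotientAddGroup.quotientAddEquivOfEq hker
  exact ⟨e1.symm.trans (e3.trans e2)⟩

end Rel

end Pool.Agent.Lib.MP_52a0c0_ag
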