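import Mathlib
import Pool.Agent.Lib.MP_52a0c0_ag.Rel
import Pool.Agent.Lib.MP_52a0c0_ag.Finite

/-! # Cochains with values in functions on the lattice -/

noncomputable section

namespace Pool.Agent.Lib.MP_52a0c0_ag

section Func

set_option linter.unusedSectionVars false

/-- The coboundary as a homomorphism. -/
def bdh (X B : Type*) [LinearOrder X] [AddCommGroup B] : (Finset X → B) →+ (Finset X → B) where
  toFun c := bd c
  map_zero' := funext bd_zero
  map_add' c c' := funext (bd_add c c')

theorem bdh_apply {X B : Type*} [LinearOrder X] [AddCommGroup B] (c : Finset X → B) :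
    bdh X B c = bd c := rfl

theorem bdA_univ_eq {X B : Type*} [LinearOrder X] [Fintype X] [AddCommGroup B] :
    bdA B (Finset.univ : Finset X) = bdh X B := by
  refine AddMonoidHom.ext fun z => funext fun T => ?_
  exact bdA_univ z T

variable {σ : Type} [Fintype σ] [DecidableEq σ] {r : ℕ} (N : Fin r → Finset σ)
  (B : Type) [AddCommGroup B]

/-- The relation. -/
def relG (i : Fin r) (v : σ) : Prop := v ∈ N i

/-- Cochains with values in functions on the lattice. -/
def FB (k : ℕ) : AddSubgroup (Finset (Fin r) → (σ → ℤ) → B) where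
  carrier := {g | (∀ T b, g T b ≠ 0 → T.card = k ∧ ∀ v, b v < 0 → ∃ i ∈ T, v ∈ N i) ∧
    (∃ m : ℕ, ∀ T b, g T b ≠ 0 → ∀ v, -(m : ℤ) ≤ b v) ∧
    ∃ M : ℕ, ∀ T b, (2 ^ M : ℤ) • g T b = 0}
  zero_mem' := ⟨fun _ _ h => absurd rfl h, ⟨0, fun _ _ h => absurd rfl h⟩,
    ⟨0, fun _ _ => smul_zero _⟩⟩
  add_mem' := by
    rintro g g' ⟨h1, ⟨m, h2⟩, M, h3⟩ ⟨h1', ⟨m', h2'⟩, M', h3'⟩
    have hor : ∀ T b, (g + g') T b ≠ 0 → g T b ≠ 0 ∨ g' T b ≠ 0 := by
      intro T b h
      by_contra hcon
      push Not at hcon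
      exact h (by simp [hcon.1, hcon.2])
    refine ⟨fun T b h => ?_, ⟨m + m', fun T b h v => ?_⟩, M + M', fun T b => ?_⟩
    · rcases hor T b h with h | h
      · exact h1 T b h
      · exact h1' T b h
    · push_cast
      rcases hor T b h with h | h
      · have := h2 T b h v
        have h4 : (0 : ℤ) ≤ m' := Int.natCast_nonneg _
        linarith
      · have := h2' T b h v
        have h4 : (0 : ℤ) ≤ m := Int.natCast_nonneg _
        linarith
    · have e1 : (2 ^ (M + M') : ℤ) • g T b = 0 := by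
        rw [pow_add, mul_comm, mul_smul, h3, smul_zero]
      have e2 : (2 ^ (M + M') : ℤ) • g' T b = 0 := by
        rw [pow_add, mul_smul, h3', smul_zero]
      rw [Pi.add_apply, Pi.add_apply, smul_add, e1, e2, add_zero]
  neg_mem' := by
    rintro g ⟨h1, ⟨m, h2⟩, M, h3⟩
    refine ⟨fun T b h => h1 T b fun h' => h (by simp [h']),
      ⟨m, fun T b h => h2 T b fun h' => h (by simp [h'])⟩, M, fun T b => ?_⟩
    rw [Pi.neg_apply, Pi.neg_apply, smul_neg, h3, neg_zero]

/-- The unit vector. -/
def ev (v : σ) : σ → ℤ := Pi.single v 1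

/-- Multiplication by a variable. -/
def sh (B : Type) [AddCommGroup B] (r : ℕ) (v : σ) :
    (Finset (Fin r) → (σ → ℤ) → B) →+ (Finset (Fin r) → (σ → ℤ) → B) where
  toFun g T b := g T (b - ev v)
  map_zero' := rfl
  map_add' _ _ := rfl

/-- Boundaries. -/
def BF (k : ℕ) : AddSubgroup (Finset (Fin r) → (σ → ℤ) → B) :=
  (FB N B k).map (bdh (Fin r) ((σ → ℤ) → B))

/-- Cocycles whose class is killed by the variables and by two. -/
def SF (k : ℕ) : AddSubgroup (Finset (Fin r) → (σ → ℤ) → B) where
  carrier := {g | g ∈ FB N B (k + 1) ∧ bd g = 0 ∧ (∀ v, sh B r v g ∈ BF N B k) ∧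
    (2 : ℤ) • g ∈ BF N B k}
  zero_mem' := ⟨zero_mem _, funext bd_zero, fun v => by rw [map_zero]; exact zero_mem _, by
    rw [smul_zero]; exact zero_mem _⟩
  add_mem' := by
    rintro g g' ⟨h1, h2, h3, h4⟩ ⟨h1', h2', h3', h4'⟩
    refine ⟨add_mem h1 h1', ?_, fun v => ?_, ?_⟩
    · funext T
      rw [bd_add, h2, h2']
      simp
    · rw [map_add]; exact add_mem (h3 v) (h3' v)
    · rw [smul_add]; exact add_mem h4 h4'
  neg_mem' := by
    rintro g ⟨h1, h2, h3, h4⟩
    refine ⟨neg_mem h1, ?_, fun v => ?_, ?_⟩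
    · rw [← bdh_apply, map_neg, bdh_apply, h2, neg_zero]
    · rw [map_neg]; exact neg_mem (h3 v)
    · rw [smul_neg]; exact neg_mem h4

/-- Boundaries in degree `-1`. -/
def BK (k : ℕ) : AddSubgroup (Finset (Fin r) → B) :=
  (Kc B (relG N) Finset.univ Finset.univ k).map (bdA B Finset.univ)

/-- Cocycles in degree `-1` whose class is killed by two. -/
def SK (k : ℕ) : AddSubgroup (Finset (Fin r) → B) where
  carrier := {z | z ∈ Kc B (relG N) Finset.univ Finset.univ (k + 1) ∧ bd z = 0 ∧
    (2 : ℤ) • z ∈ BK N B k}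
  zero_mem' := ⟨zero_mem _, funext bd_zero, by rw [smul_zero]; exact zero_mem _⟩
  add_mem' := by
    rintro g g' ⟨h1, h2, h4⟩ ⟨h1', h2', h4'⟩
    refine ⟨add_mem h1 h1', ?_, ?_⟩
    · funext T
      rw [bd_add, h2, h2']
      simp
    · rw [smul_add]; exact add_mem h4 h4'
  neg_mem' := by
    rintro g ⟨h1, h2, h4⟩
    refine ⟨neg_mem h1, ?_, ?_⟩
    · rw [← bdh_apply, map_neg, bdh_apply, h2, neg_zero]
    · rw [smul_neg]; exact neg_mem h4

open Classical in
/-- Put a cochain in degree `a`. -/
def put (a : σ → ℤ) : (Finset (Fin r) → B) →+ (Finset (Fin r) → (σ → ℤ) → B) where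
  toFun z T b := if b = a then z T else 0
  map_zero' := by
    funext T b
    simp
  map_add' z z' := by
    funext T b
    simp only [Pi.add_apply]
    split_ifs <;> simp

/-- The component of degree `a`. -/
def get (a : σ → ℤ) : (Finset (Fin r) → (σ → ℤ) → B) →+ (Finset (Fin r) → B) where
  toFun g T := g T a
  map_zero' := rfl
  map_add' _ _ := rfl

variable {N B}

theorem put_self (a : σ → ℤ) (z : Finset (Fin r) → B) (T : Finset (Fin r)) :
    put B a z T a = z T := by simp [put]

theorem put_ne {a b : σ → ℤ} (h : b ≠ a) (z : Finset (Fin r) → B) (T : Finset (Fin r)) :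
    put B a z T b = 0 := by simp [put, h]

theorem bd_put (a : σ → ℤ) (z : Finset (Fin r) → B) : bd (put B a z) = put B a (bd z) := by
  funext T b
  have h1 : bd (put B a z) T b = ∑ i ∈ T, sg T i • put B a z (T.erase i) b := by
    unfold bd
    rw [Finset.sum_apply]
    rfl
  rw [h1]
  by_cases h : b = a
  · subst h
    rw [put_self]
    unfold bd
    exact Finset.sum_congr rfl fun i _ => by rw [put_self]
  · rw [put_ne h]
    exact Finset.sum_eq_zero fun i _ => by rw [put_ne h, smul_zero]

theorem bd_apply_apply (g : Finset (Fin r) → (σ → ℤ) → B) (T : Finset (Fin r)) (b : σ → ℤ) :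
    bd g T b = bd (fun T' => g T' b) T := by
  unfold bd
  rw [Finset.sum_apply]
  rfl

theorem bd_get (a : σ → ℤ) (g : Finset (Fin r) → (σ → ℤ) → B) :
    bd (get B a g) = get B a (bd g) := by
  funext T
  exact (bd_apply_apply g T a).symm

/-- The degree `-1`. -/
def mo (σ : Type) : σ → ℤ := fun _ => -1

theorem exists_tor {ι : Type} [Finite ι] (htor : ∀ b : B, ∃ M : ℕ, (2 ^ M : ℤ) • b = 0)
    (z : ι → B) : ∃ M : ℕ, ∀ T, (2 ^ M : ℤ) • z T = 0 := by
  classical
  have := Fintype.ofFinite ι
  choose M hM using fun T => htor (z T)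
  refine ⟨∑ T, M T, fun T => ?_⟩
  have h1 : M T ≤ ∑ T, M T := Finset.single_le_sum (fun _ _ => Nat.zero_le _) (Finset.mem_univ T)
  obtain ⟨c, hc⟩ := Nat.exists_eq_add_of_le h1
  rw [hc, pow_add, mul_comm, mul_smul, hM, smul_zero]

theorem put_mem (htor : ∀ b : B, ∃ M : ℕ, (2 ^ M : ℤ) • b = 0) {G : Finset σ} {a : σ → ℤ}
    (ha : ∀ v, a v < 0 → v ∈ G) (ha1 : ∀ v, -1 ≤ a v) {k : ℕ} {z : Finset (Fin r) → B}
    (hz : z ∈ Kc B (relG N) Finset.univ G k) : put B a z ∈ FB N B k := by
  obtain ⟨M, hM⟩ := exists_tor htor z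
  have hne : ∀ T b, put B a z T b ≠ 0 → b = a ∧ z T ≠ 0 := by
    intro T b h
    by_cases hb : b = a
    · subst hb
      rw [put_self] at h
      exact ⟨rfl, h⟩
    · exact absurd (put_ne hb z T) h
  refine ⟨fun T b h => ?_, ⟨1, fun T b h v => ?_⟩, M, fun T b => ?_⟩
  · obtain ⟨rfl, h2⟩ := hne T b h
    obtain ⟨-, h3, h4⟩ := hz T h2
    exact ⟨h3, fun v hv => h4 v (ha v hv)⟩
  · obtain ⟨rfl, h2⟩ := hne T b h
    exact_mod_cast ha1 v
  · by_cases hb : b = a
    · subst hb
      rw [put_self, hM]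
    · rw [put_ne hb, smul_zero]

theorem get_mem {k : ℕ} {g : Finset (Fin r) → (σ → ℤ) → B} (hg : g ∈ FB N B k) :
    get B (mo σ) g ∈ Kc B (relG N) Finset.univ Finset.univ k := by
  intro T hT
  obtain ⟨h1, h2⟩ := hg.1 T _ hT
  exact ⟨Finset.subset_univ T, h1, fun v _ => h2 v (by simp [mo])⟩

theorem sh_put (v : σ) (z : Finset (Fin r) → B) :
    sh B r v (put B (mo σ) z) = put B (mo σ + ev v) z := by
  funext T b
  by_cases h : b = mo σ + ev v
  · subst h
    rw [put_self]
    change put B (mo σ) z T (mo σ + ev v - ev v) = z T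
    rw [add_sub_cancel_right, put_self]
  · rw [put_ne h]
    refine put_ne (fun h' => h ?_) z T
    rw [← h', sub_add_cancel]

theorem mo_add_apply (v u : σ) : (mo σ + ev v) u = if u = v then 0 else -1 := by
  rw [Pi.add_apply]
  unfold mo ev
  by_cases h : u = v
  · subst h
    simp
  · simp [h]

/-- **The socle is concentrated in degree `-1`.** -/
theorem socle_equiv (htor : ∀ b : B, ∃ M : ℕ, (2 ^ M : ℤ) • b = 0) (k : ℕ)
    (hvan : ∀ v : σ, ∀ z ∈ Kc B (relG N) Finset.univ (Finset.univ.erase v) (k + 1),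
      bd z = 0 → ∃ y ∈ Kc B (relG N) Finset.univ (Finset.univ.erase v) k, bd y = z) :
    Nonempty ((SK N B k ⧸ (BK N B k).addSubgroupOf (SK N B k)) ≃+
      (SF N B k ⧸ (BF N B k).addSubgroupOf (SF N B k))) := by
  classical
  -- the relation
  let R : AddSubgroup ((Finset (Fin r) → B) × (Finset (Fin r) → (σ → ℤ) → B)) :=
    (BF N B k).comap ((AddMonoidHom.snd _ _) - (put B (mo σ)).comp (AddMonoidHom.fst _ _))
  have hR : ∀ z g, (z, g) ∈ R ↔ g - put B (mo σ) z ∈ BF N B k := fun z g => Iff.rfl
  have hBK : ∀ z, z ∈ BK N B k ↔ ∃ y ∈ Kc B (relG N) Finset.univ Finset.univ k, bd y = z := by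
    intro z
    unfold BK
    rw [bdA_univ_eq]
    rfl
  have hput1 : ∀ z ∈ BK N B k, put B (mo σ) z ∈ BF N B k := by
    intro z hz
    obtain ⟨y, hy, rfl⟩ := (hBK z).mp hz
    refine ⟨put B (mo σ) y, put_mem htor (fun v _ => Finset.mem_univ v) (fun v => by simp [mo]) hy,
      ?_⟩
    rw [bdh_apply, bd_put]
  have hget1 : ∀ g ∈ BF N B k, get B (mo σ) g ∈ BK N B k := by
    rintro _ ⟨y, hy, rfl⟩
    refine (hBK _).mpr ⟨get B (mo σ) y, get_mem hy, ?_⟩
    rw [bd_get]; rfl
  have hgp : ∀ z : Finset (Fin r) → B, get B (mo σ) (put B (mo σ) z) = z := by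
    intro z
    funext T
    exact put_self _ z T
  refine rel_equiv R _ _ _ _ ?_ ?_ ?_
  · intro z hz
    obtain ⟨h1, h2, h3⟩ := hz
    refine ⟨put B (mo σ) z, ⟨?_, ?_, ?_, ?_⟩, ?_⟩
    · exact put_mem htor (fun v _ => Finset.mem_univ v) (fun v => by simp [mo]) h1
    · rw [bd_put, h2, map_zero]
    · intro v
      rw [sh_put]
      have h4 : z ∈ Kc B (relG N) Finset.univ (Finset.univ.erase v) (k + 1) := by
        intro T hT
        obtain ⟨h5, h6, h7⟩ := h1 T hT
        exact ⟨h5, h6, fun u hu => h7 u (Finset.mem_univ u)⟩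
      obtain ⟨y, hy, hyz⟩ := hvan v z h4 h2
      refine ⟨put B (mo σ + ev v) y, put_mem htor (fun u hu => ?_) (fun u => ?_) hy, ?_⟩
      · rw [mo_add_apply] at hu
        refine Finset.mem_erase.mpr ⟨?_, Finset.mem_univ u⟩
        rintro rfl
        simp at hu
      · rw [mo_add_apply]
        split_ifs <;> norm_num
      · rw [bdh_apply, bd_put, hyz]
    · rw [← map_zsmul]
      exact hput1 _ h3
    · rw [hR, sub_self]; exact zero_mem _
  · intro g hg
    obtain ⟨h1, h2, h3, h4⟩ := hg
    choose y hy hyg using h3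
    have hyg' : ∀ v T b, bd (fun T' => y v T' b) T = g T (b - ev v) := by
      intro v T b
      rw [← bd_apply_apply]
      exact congrFun (congrFun (hyg v) T) b
    refine ⟨get B (mo σ) g, ⟨get_mem h1, ?_, ?_⟩, ?_⟩
    · rw [bd_get, h2, map_zero]
    · rw [← map_zsmul]
      exact hget1 _ h4
    · rw [hR]
      -- choose a coordinate different from -1
      let w : Finset (Fin r) → (σ → ℤ) → B := fun T b =>
        if h : ∃ v, b v ≠ -1 then y h.choose T (b + ev h.choose) else 0
      have hne : ∀ T b, w T b ≠ 0 → ∃ v, b v ≠ -1 ∧ y v T (b + ev v) ≠ 0 := by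
        intro T b h
        by_cases hb : ∃ v, b v ≠ -1
        · refine ⟨hb.choose, hb.choose_spec, ?_⟩
          have : w T b = y hb.choose T (b + ev hb.choose) := dif_pos hb
          rwa [this] at h
        · exact absurd (dif_neg hb) h
      refine ⟨w, ⟨?_, ?_, ?_⟩, ?_⟩
      · intro T b h
        obtain ⟨v, hv, hv'⟩ := hne T b h
        obtain ⟨h5, h6⟩ := (hy v).1 T _ hv'
        refine ⟨h5, fun u hu => h6 u ?_⟩
        rw [Pi.add_apply]
        unfold ev
        by_cases huv : u = v
        · subst huv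
          rw [Pi.single_eq_same]
          omega
        · rw [Pi.single_eq_of_ne huv]
          omega
      · choose m hm using fun v => (hy v).2.1
        refine ⟨∑ v, m v + 1, fun T b h u => ?_⟩
        obtain ⟨v, hv, hv'⟩ := hne T b h
        have h5 := hm v T _ hv' u
        have h6 : m v ≤ ∑ v, m v :=
          Finset.single_le_sum (fun _ _ => Nat.zero_le _) (Finset.mem_univ v)
        have h7 : (m v : ℤ) ≤ ((∑ v, m v : ℕ) : ℤ) := by exact_mod_cast h6
        have h8 : (b + ev v) u ≤ b u + 1 := by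
          rw [Pi.add_apply]
          unfold ev
          by_cases huv : u = v
          · subst huv
            rw [Pi.single_eq_same]
          · rw [Pi.single_eq_of_ne huv]
            omega
        have h9 : ((∑ v, m v + 1 : ℕ) : ℤ) = ((∑ v, m v : ℕ) : ℤ) + 1 := by push_cast; ring
        rw [h9]
        linarith
      · choose M hM using fun v => (hy v).2.2
        refine ⟨∑ v, M v, fun T b => ?_⟩
        by_cases hb : ∃ v, b v ≠ -1
        · have h5 : w T b = y hb.choose T (b + ev hb.choose) := dif_pos hb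
          have h6 : M hb.choose ≤ ∑ v, M v :=
            Finset.single_le_sum (fun _ _ => Nat.zero_le _) (Finset.mem_univ _)
          obtain ⟨c, hc⟩ := Nat.exists_eq_add_of_le h6
          rw [h5, hc, pow_add, mul_comm, mul_smul, hM, smul_zero]
        · have h5 : w T b = 0 := dif_neg hb
          rw [h5, smul_zero]
      · rw [bdh_apply]
        funext T b
        rw [bd_apply_apply]
        change _ = g T b - put B (mo σ) (get B (mo σ) g) T b
        by_cases hb : ∃ v, b v ≠ -1
        · have h5 : ∀ T', w T' b = y hb.choose T' (b + ev hb.choose) := fun T' => dif_pos hb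
          have h6 : b ≠ mo σ := by
            rintro rfl
            obtain ⟨v, hv⟩ := hb
            exact hv rfl
          rw [put_ne h6, sub_zero]
          simp only [h5]
          rw [hyg', add_sub_cancel_right]
        · have h5 : ∀ T', w T' b = 0 := fun T' => dif_neg hb
          have h6 : b = mo σ := by
            push Not at hb
            funext v
            exact hb v
          simp only [h5]
          subst h6
          rw [put_self]
          change _ = g T (mo σ) - g T (mo σ)
          rw [sub_self]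
          exact bd_zero T
  · intro z hz g hg hzg
    rw [hR] at hzg
    constructor
    · intro h
      have := add_mem hzg (hput1 z h)
      rwa [sub_add_cancel] at this
    · intro h
      have h5 : put B (mo σ) z ∈ BF N B k := by
        have := sub_mem h hzg
        rwa [sub_sub_cancel] at this
      have h6 := hget1 _ h5
      rwa [hgp] at h6

end Func

end Pool.Agent.Lib.MP_52a0c0_ag
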