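import Mathlib
import Pool.Agent.Lib.MP_52a0c0_ag.Away
import Pool.Agent.Lib.MP_52a0c0_ag.Func

/-! # Cech complexes and functions on the lattice, equal characteristic -/

noncomputable section

namespace Pool.Agent.Lib.MP_52a0c0_ag

open MvPowerSeries IsLocalRing

section General

set_option linter.unusedSectionVars false

variable {σ : Type} [Fintype σ] [DecidableEq σ] {r : ℕ}

/-- The generators. -/
def gens (A : Type) [CommRing A] (N : Fin r → Finset σ) (i : Fin r) : MvPowerSeries σ A :=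
  ∏ v ∈ N i, X v

theorem prod_gens {A : Type} [CommRing A] [IsDomain A] (N : Fin r → Finset σ) (T : Finset (Fin r)) :
    ∏ i ∈ T, gens A N i = monomial (∑ i ∈ T, ind (N i)) 1 := by
  unfold gens
  rw [Finset.prod_congr rfl fun i _ => prod_X (N i)]
  exact prod_monomial' T _

theorem cechD_eq {S : Type} [CommRing S] [IsDomain S] {r : ℕ}
    (c : Finset (Fin r) → FractionRing S) : cechD S r c = bd c := by
  funext T
  unfold bd sg
  change ∑ i ∈ T, (-1) ^ (T.filter (fun j => j < i)).card * c (T.erase i) = _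
  refine Finset.sum_congr rfl fun i _ => ?_
  rw [zsmul_eq_mul]
  push_cast
  rfl

variable {A : Type} [CommRing A] [IsDomain A] {K : Type} [Field K] [Algebra A K]
  [IsFractionRing A K]

theorem Rep.bd {c : Finset (Fin r) → FractionRing (MvPowerSeries σ A)}
    {g : Finset (Fin r) → (σ → ℤ) → K} (h : ∀ T, Rep (c T) (g T)) (T : Finset (Fin r)) :
    Rep (MP_52a0c0_ag.bd c T) (MP_52a0c0_ag.bd g T) := by
  unfold MP_52a0c0_ag.bd
  exact Rep.sum T fun i _ => (h _).zsmul _

theorem Rep.shift (v : σ) {q : FractionRing (MvPowerSeries σ A)} {g : (σ → ℤ) → K}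
    (h : Rep q g) : Rep ((X v : MvPowerSeries σ A) • q) (fun b => g (b - ev v)) := by
  have h1 := h.monomial_mul (Finsupp.single v 1) 1
  rw [Algebra.smul_def, X_def]
  have h2 : (fun b => Algebra.algebraMap A K 1 * g fun u => b u - ((Finsupp.single v 1 : σ →₀ ℕ) u : ℤ)) =
      fun b : σ → ℤ => g (b - ev v) := by
    funext b
    rw [map_one, one_mul]
    congr 1
    funext u
    rw [Pi.sub_apply]
    unfold ev
    by_cases h : u = v
    · subst h
      simp
    · have h' : v ≠ u := Ne.symm h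
      simp [h, h']
  rw [h2] at h1
  exact h1

theorem Rep.neg {q : FractionRing (MvPowerSeries σ A)} {g : (σ → ℤ) → K}
    (h : Rep q g) : Rep (-q) (-g) := by
  have := h.zsmul (-1)
  rwa [neg_one_zsmul, neg_one_zsmul] at this

/-- Expansions of families. -/
def RF (σ A K : Type) [Fintype σ] [DecidableEq σ] [CommRing A] [IsDomain A] [Field K]
    [Algebra A K] [IsFractionRing A K] (r : ℕ) :
    AddSubgroup ((Finset (Fin r) → (σ → ℤ) → K) ×
      (Finset (Fin r) → FractionRing (MvPowerSeries σ A))) where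
  carrier := {p | ∀ T, Rep (p.2 T) (p.1 T)}
  zero_mem' := fun _ => Rep.zero
  add_mem' := fun h h' T => (h T).add (h' T)
  neg_mem' := fun h T => (h T).neg

end General

section Equal

set_option linter.unusedSectionVars false

variable {σ : Type} [Fintype σ] [DecidableEq σ] {r : ℕ} {N : Fin r → Finset σ}

theorem char_two_smul (x : ZMod 2) : (2 : ℤ) • x = 0 := by
  revert x
  decide

theorem gens_away {T : Finset (Fin r)} {q : FractionRing (MvPowerSeries σ (ZMod 2))} :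
    InAway (∏ i ∈ T, gens (ZMod 2) N i) q ↔ ∃ g : (σ → ℤ) → ZMod 2, Rep q g ∧
      (∀ b, g b ≠ 0 → ∀ v, b v < 0 → ∃ i ∈ T, v ∈ N i) := by
  rw [prod_gens, away_iff (ZMod 2) one_ne_zero]
  refine exists_congr fun g => and_congr_right fun _ => ?_
  have h1 : (∀ b, g b ≠ 0 → ∀ v, (∑ i ∈ T, ind (N i)) v = 0 → 0 ≤ b v) ↔
      (∀ b, g b ≠ 0 → ∀ v, b v < 0 → ∃ i ∈ T, v ∈ N i) := by
    refine forall_congr' fun b => forall_congr' fun _ => forall_congr' fun v => ?_
    rw [sum_ind_eq_zero]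
    constructor
    · intro h hb
      by_contra hcon
      push Not at hcon
      exact absurd (h hcon) (not_le.mpr hb)
    · intro h hb
      by_contra hcon
      obtain ⟨i, hi, hiv⟩ := h (not_le.mp hcon)
      exact hb i hi hiv
  rw [h1]
  constructor
  · rintro ⟨h, -⟩
    exact h
  · intro h
    exact ⟨h, 0, fun b => ⟨g b, by simp⟩⟩

theorem FB_iff {k : ℕ} {g : Finset (Fin r) → (σ → ℤ) → ZMod 2}
    {c : Finset (Fin r) → FractionRing (MvPowerSeries σ (ZMod 2))}
    (h : ∀ T, Rep (c T) (g T)) :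
    g ∈ FB N (ZMod 2) k ↔ c ∈ cochain (gens (ZMod 2) N) k := by
  constructor
  · rintro ⟨h1, h2, h3⟩ T
    refine ⟨fun hT => gens_away.mpr ⟨g T, h T, fun b hb => (h1 T b hb).2⟩, fun hT => ?_⟩
    rw [rep_iff (h T) (Rep.zero (K := ZMod 2))]
    funext b
    by_contra hb
    exact hT (h1 T b hb).1
  · intro hc
    have h0 : ∀ T b, g T b ≠ 0 → T.card = k := by
      intro T b hb
      by_contra hT
      have h1 := (hc T).2 hT
      rw [rep_iff (h T) (Rep.zero (K := ZMod 2))] at h1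
      exact hb (congrFun h1 b)
    refine ⟨fun T b hb => ⟨h0 T b hb, ?_⟩, ?_, 1, fun T b => ?_⟩
    · obtain ⟨g', hg', h2⟩ := gens_away.mp ((hc T).1 (h0 T b hb))
      have h3 := (rep_iff (h T) hg').mp rfl
      rw [← h3] at h2
      exact h2 b hb
    · choose m hm using fun T => (h T).bounded
      refine ⟨∑ T, m T, fun T b hb v => ?_⟩
      have h5 := hm T b hb v
      have h6 : m T ≤ ∑ T, m T :=
        Finset.single_le_sum (fun _ _ => Nat.zero_le _) (Finset.mem_univ T)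
      have h7 : (m T : ℤ) ≤ ((∑ T, m T : ℕ) : ℤ) := by exact_mod_cast h6
      linarith
    · rw [pow_one]
      exact char_two_smul _

theorem exists_c {k : ℕ} {g : Finset (Fin r) → (σ → ℤ) → ZMod 2} (hg : g ∈ FB N (ZMod 2) k) :
    ∃ c : Finset (Fin r) → FractionRing (MvPowerSeries σ (ZMod 2)), ∀ T, Rep (c T) (g T) := by
  obtain ⟨h1, ⟨m, h2⟩, h3⟩ := hg
  choose c hc using fun T => exists_rep (A := ZMod 2) (g T) m (h2 T) 1 one_ne_zero
    (fun b => ⟨g T b, by simp⟩)
  exact ⟨c, hc⟩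

theorem exists_g {k : ℕ} {c : Finset (Fin r) → FractionRing (MvPowerSeries σ (ZMod 2))}
    (hc : c ∈ cochain (gens (ZMod 2) N) k) :
    ∃ g : Finset (Fin r) → (σ → ℤ) → ZMod 2, ∀ T, Rep (c T) (g T) := by
  have : ∀ T, ∃ g : (σ → ℤ) → ZMod 2, Rep (c T) g := by
    intro T
    by_cases hT : T.card = k
    · obtain ⟨g, hg, -⟩ := gens_away.mp ((hc T).1 hT)
      exact ⟨g, hg⟩
    · exact ⟨0, by rw [(hc T).2 hT]; exact Rep.zero⟩
  choose g hg using this
  exact ⟨g, hg⟩

theorem BF_iff {k : ℕ} {g : Finset (Fin r) → (σ → ℤ) → ZMod 2}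
    {c : Finset (Fin r) → FractionRing (MvPowerSeries σ (ZMod 2))}
    (h : ∀ T, Rep (c T) (g T)) :
    g ∈ BF N (ZMod 2) k ↔ c ∈ coboundaries (gens (ZMod 2) N) (k + 1) := by
  constructor
  · rintro ⟨y, hy, rfl⟩
    obtain ⟨d, hd⟩ := exists_c hy
    refine ⟨d, (FB_iff hd).mp hy, ?_⟩
    rw [cechD_eq]
    funext T
    exact (rep_iff (Rep.bd hd T) (h T)).mpr rfl
  · rintro ⟨d, hd, rfl⟩
    obtain ⟨y, hy⟩ := exists_g hd
    refine ⟨y, (FB_iff hy).mpr hd, ?_⟩
    funext T
    refine (rep_iff (Rep.bd hy T) (h T)).mp ?_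
    rw [cechD_eq]

/-- Cocycles whose class is killed by the variables and by two. -/
def SC {S : Type} [CommRing S] [IsDomain S] {r : ℕ} {σ : Type} (x : σ → S) (f : Fin r → S)
    (k : ℕ) : AddSubgroup (Finset (Fin r) → FractionRing S) where
  carrier := {c | c ∈ cocycles f k ∧ (∀ v, x v • c ∈ coboundaries f k) ∧
    c + c ∈ coboundaries f k}
  zero_mem' := ⟨zero_mem _, fun v => by rw [smul_zero]; exact zero_mem _, by
    rw [add_zero]; exact zero_mem _⟩
  add_mem' := by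
    rintro c c' ⟨h1, h2, h3⟩ ⟨h1', h2', h3'⟩
    refine ⟨add_mem h1 h1', fun v => ?_, ?_⟩
    · rw [smul_add]; exact add_mem (h2 v) (h2' v)
    · rw [add_add_add_comm]; exact add_mem h3 h3'
  neg_mem' := by
    rintro c ⟨h1, h2, h3⟩
    refine ⟨neg_mem h1, fun v => ?_, ?_⟩
    · rw [smul_neg]; exact neg_mem (h2 v)
    · rw [← neg_add]; exact neg_mem h3

/-- Coboundaries. -/
def BC {S : Type} [CommRing S] [IsDomain S] {r : ℕ} (f : Fin r → S)
    (k : ℕ) : AddSubgroup (Finset (Fin r) → FractionRing S) := (coboundaries f k).toAddSubgroup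

theorem SF_iff {k : ℕ} {g : Finset (Fin r) → (σ → ℤ) → ZMod 2}
    {c : Finset (Fin r) → FractionRing (MvPowerSeries σ (ZMod 2))}
    (h : ∀ T, Rep (c T) (g T)) :
    g ∈ SF N (ZMod 2) k ↔ c ∈ SC X (gens (ZMod 2) N) (k + 1) := by
  have e1 : g ∈ FB N (ZMod 2) (k + 1) ↔ c ∈ cochain (gens (ZMod 2) N) (k + 1) := FB_iff h
  have e2 : bd g = 0 ↔ cechD _ r c = 0 := by
    rw [cechD_eq]
    constructor
    · intro h1
      funext T
      refine (rep_iff (Rep.bd h T) (Rep.zero (K := ZMod 2))).mpr ?_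
      rw [h1]; rfl
    · intro h1
      funext T
      refine (rep_iff (Rep.bd h T) (Rep.zero (K := ZMod 2))).mp ?_
      rw [h1]; rfl
  have e3 : ∀ v, sh (ZMod 2) r v g ∈ BF N (ZMod 2) k ↔
      (X v : MvPowerSeries σ (ZMod 2)) • c ∈ coboundaries (gens (ZMod 2) N) (k + 1) := by
    intro v
    exact BF_iff fun T => (h T).shift v
  have e4 : (2 : ℤ) • g ∈ BF N (ZMod 2) k ↔
      c + c ∈ coboundaries (gens (ZMod 2) N) (k + 1) := by
    rw [two_zsmul]
    exact BF_iff fun T => (h T).add (h T)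
  constructor
  · rintro ⟨h1, h2, h3, h4⟩
    exact ⟨⟨e1.mp h1, LinearMap.mem_ker.mpr (e2.mp h2)⟩, fun v => (e3 v).mp (h3 v), e4.mp h4⟩
  · rintro ⟨⟨h1, h2⟩, h3, h4⟩
    exact ⟨e1.mpr h1, e2.mpr (LinearMap.mem_ker.mp h2), fun v => (e3 v).mpr (h3 v), e4.mpr h4⟩

/-- **Socles, equal characteristic.** -/
theorem equal_equiv (N : Fin r → Finset σ) (k : ℕ) :
    Nonempty ((SF N (ZMod 2) k ⧸ (BF N (ZMod 2) k).addSubgroupOf (SF N (ZMod 2) k)) ≃+
      (SC X (gens (ZMod 2) N) (k + 1) ⧸ (BC (gens (ZMod 2) N) (k + 1)).addSubgroupOf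
        (SC (X : σ → MvPowerSeries σ (ZMod 2)) (gens (ZMod 2) N) (k + 1)))) := by
  refine rel_equiv (RF σ (ZMod 2) (ZMod 2) r) _ _ _ _ ?_ ?_ ?_
  · intro g hg
    obtain ⟨c, hc⟩ := exists_c hg.1
    exact ⟨c, (SF_iff hc).mp hg, hc⟩
  · intro c hc
    obtain ⟨g, hg⟩ := exists_g hc.1.1
    exact ⟨g, (SF_iff hg).mpr hc, hg⟩
  · intro g _ c _ h
    exact BF_iff h

end Equal

end Pool.Agent.Lib.MP_52a0c0_ag
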