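import Mathlib
import Pool.Agent.Lib.MP_52a0c0_ag.Equal

/-! # Cech complexes and functions on the lattice, mixed characteristic -/

noncomputable section

namespace Pool.Agent.Lib.MP_52a0c0_ag

open MvPowerSeries IsLocalRing

section UpDown

set_option linter.unusedSectionVars false

variable {r : ℕ} {B : Type*} [AddCommGroup B]

/-- Shift. -/
def up (T : Finset (Fin r)) : Finset (Fin (r + 1)) := T.map (Fin.succEmb r)

/-- Shift and add zero. -/
def up0 (T : Finset (Fin r)) : Finset (Fin (r + 1)) := insert 0 (up T)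

/-- Shift back. -/
def dn (U : Finset (Fin (r + 1))) : Finset (Fin r) := Finset.univ.filter fun i => i.succ ∈ U

theorem mem_up {T : Finset (Fin r)} {i : Fin r} : i.succ ∈ up T ↔ i ∈ T := by
  simp [up]

theorem zero_up {T : Finset (Fin r)} : (0 : Fin (r + 1)) ∉ up T := by
  simp only [up, Finset.mem_map, not_exists, not_and]
  intro x _ h
  exact Fin.succ_ne_zero x h

theorem zero_up0 {T : Finset (Fin r)} : (0 : Fin (r + 1)) ∈ up0 T := Finset.mem_insert_self _ _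

theorem mem_up0 {T : Finset (Fin r)} {i : Fin r} : i.succ ∈ up0 T ↔ i ∈ T := by
  unfold up0
  rw [Finset.mem_insert, mem_up]
  simp [Fin.succ_ne_zero]

theorem mem_dn {U : Finset (Fin (r + 1))} {i : Fin r} : i ∈ dn U ↔ i.succ ∈ U := by
  simp [dn]

theorem dn_up (T : Finset (Fin r)) : dn (up T) = T := by
  ext i
  rw [mem_dn, mem_up]

theorem dn_up0 (T : Finset (Fin r)) : dn (up0 T) = T := by
  ext i
  rw [mem_dn, mem_up0]

theorem ext_succ {U U' : Finset (Fin (r + 1))} (h0 : 0 ∈ U ↔ 0 ∈ U')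
    (h : ∀ i : Fin r, i.succ ∈ U ↔ i.succ ∈ U') : U = U' := by
  ext j
  refine Fin.cases h0 h j

theorem up_dn {U : Finset (Fin (r + 1))} (h : 0 ∉ U) : up (dn U) = U := by
  refine ext_succ ?_ fun i => by rw [mem_up, mem_dn]
  simp [h, zero_up]

theorem up0_dn {U : Finset (Fin (r + 1))} (h : 0 ∈ U) : up0 (dn U) = U := by
  refine ext_succ ?_ fun i => by rw [mem_up0, mem_dn]
  simp [h, zero_up0]

theorem card_up (T : Finset (Fin r)) : (up T).card = T.card := Finset.card_map _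

theorem card_up0 (T : Finset (Fin r)) : (up0 T).card = T.card + 1 := by
  unfold up0
  rw [Finset.card_insert_of_notMem zero_up, card_up]

theorem up_erase (T : Finset (Fin r)) (i : Fin r) : (up T).erase i.succ = up (T.erase i) := by
  refine ext_succ ?_ fun j => ?_
  · simp [zero_up]
  · rw [Finset.mem_erase, mem_up, mem_up, Finset.mem_erase]
    simp

theorem up0_erase (T : Finset (Fin r)) (i : Fin r) : (up0 T).erase i.succ = up0 (T.erase i) := by
  refine ext_succ ?_ fun j => ?_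
  · simp [zero_up0, (Fin.succ_ne_zero i).symm]
  · rw [Finset.mem_erase, mem_up0, mem_up0, Finset.mem_erase]
    simp

theorem up0_erase_zero (T : Finset (Fin r)) : (up0 T).erase 0 = up T :=
  Finset.erase_insert zero_up

theorem filter_up (T : Finset (Fin r)) (i : Fin r) :
    (up T).filter (fun j => j < i.succ) = up (T.filter fun j => j < i) := by
  refine ext_succ ?_ fun j => ?_
  · simp [zero_up]
  · rw [Finset.mem_filter, mem_up, mem_up, Finset.mem_filter, Fin.succ_lt_succ_iff]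

theorem filter_up0 (T : Finset (Fin r)) (i : Fin r) :
    (up0 T).filter (fun j => j < i.succ) = up0 (T.filter fun j => j < i) := by
  refine ext_succ ?_ fun j => ?_
  · simp [zero_up0, Fin.succ_pos]
  · rw [Finset.mem_filter, mem_up0, mem_up0, Finset.mem_filter, Fin.succ_lt_succ_iff]

theorem sg_up (T : Finset (Fin r)) (i : Fin r) : sg (up T) i.succ = sg T i := by
  unfold sg
  rw [filter_up, card_up]

theorem sg_up0 (T : Finset (Fin r)) (i : Fin r) : sg (up0 T) i.succ = - sg T i := by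
  unfold sg
  rw [filter_up0, card_up0, pow_succ]
  ring

theorem sg_up0_zero (T : Finset (Fin r)) : sg (up0 T) 0 = 1 := by
  unfold sg
  have : (up0 T).filter (fun j => j < 0) = ∅ := by
    ext j
    simp
  rw [this]
  simp

theorem sum_up {M : Type*} [AddCommMonoid M] (T : Finset (Fin r)) (F : Fin (r + 1) → M) :
    ∑ i ∈ up T, F i = ∑ i ∈ T, F i.succ := by
  unfold up
  rw [Finset.sum_map]
  rfl

theorem bd_up (c : Finset (Fin (r + 1)) → B) (T : Finset (Fin r)) :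
    bd c (up T) = bd (fun T' => c (up T')) T := by
  unfold bd
  rw [sum_up]
  exact Finset.sum_congr rfl fun i _ => by rw [sg_up, up_erase]

theorem bd_up0 (c : Finset (Fin (r + 1)) → B) (T : Finset (Fin r)) :
    bd c (up0 T) = c (up T) - bd (fun T' => c (up0 T')) T := by
  have h1 : bd c (up0 T) = ∑ i ∈ insert 0 (up T), sg (up0 T) i • c ((up0 T).erase i) := rfl
  rw [h1, Finset.sum_insert zero_up, sg_up0_zero, one_smul, up0_erase_zero, sum_up, sub_eq_add_neg]
  congr 1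
  unfold bd
  rw [← Finset.sum_neg_distrib]
  exact Finset.sum_congr rfl fun i _ => by rw [sg_up0, up0_erase, neg_smul]

theorem prod_up {M : Type*} [CommMonoid M] (T : Finset (Fin r)) (F : Fin (r + 1) → M) :
    ∏ i ∈ up T, F i = ∏ i ∈ T, F i.succ := by
  unfold up
  rw [Finset.prod_map]
  rfl

theorem prod_up0 {M : Type*} [CommMonoid M] (T : Finset (Fin r)) (F : Fin (r + 1) → M) :
    ∏ i ∈ up0 T, F i = F 0 * ∏ i ∈ T, F i.succ := by
  unfold up0
  rw [Finset.prod_insert zero_up, prod_up]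

/-- Combine two families. -/
def comb (c0 c1 : Finset (Fin r) → B) (U : Finset (Fin (r + 1))) : B :=
  if 0 ∈ U then c0 (dn U) else c1 (dn U)

theorem comb_up (c0 c1 : Finset (Fin r) → B) (T : Finset (Fin r)) :
    comb c0 c1 (up T) = c1 T := by
  unfold comb
  rw [if_neg zero_up, dn_up]

theorem comb_up0 (c0 c1 : Finset (Fin r) → B) (T : Finset (Fin r)) :
    comb c0 c1 (up0 T) = c0 T := by
  unfold comb
  rw [if_pos zero_up0, dn_up0]

theorem ext_up {c c' : Finset (Fin (r + 1)) → B} (h : ∀ T, c (up T) = c' (up T))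
    (h0 : ∀ T, c (up0 T) = c' (up0 T)) : c = c' := by
  funext U
  by_cases hU : 0 ∈ U
  · rw [← up0_dn hU, h0]
  · rw [← up_dn hU, h]

end UpDown

section QA

variable (A K : Type) [CommRing A] [Field K] [Algebra A K]

/-- The quotient `K / A`. -/
def QA : Type := K ⧸ (algebraMap A K).toAddMonoidHom.range

instance : AddCommGroup (QA A K) := QuotientAddGroup.Quotient.addCommGroup _

/-- The projection. -/
def mkQ : K →+ QA A K := QuotientAddGroup.mk' _

variable {A K}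

theorem mkQ_eq_zero {x : K} : mkQ A K x = 0 ↔ ∃ a : A, algebraMap A K a = x :=
  (QuotientAddGroup.eq_zero_iff x).trans Iff.rfl

theorem mkQ_surjective : Function.Surjective (mkQ A K) := QuotientAddGroup.mk'_surjective _

theorem bd_mkQ {r : ℕ} {σ : Type} [Fintype σ] [DecidableEq σ] (y : Finset (Fin r) → (σ → ℤ) → K) (T : Finset (Fin r))
    (b : σ → ℤ) : mkQ A K (bd y T b) = bd (fun T' b' => mkQ A K (y T' b')) T b := by
  rw [bd_apply_apply, bd_apply_apply]
  unfold bd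
  rw [map_sum]
  exact Finset.sum_congr rfl fun i _ => map_zsmul _ _ _

end QA

section Mixed

set_option linter.unusedSectionVars false

variable {σ : Type} [Fintype σ] [DecidableEq σ] {r : ℕ} {N : Fin r → Finset σ}
  {A : Type} [CommRing A] [IsDomain A] {K : Type} [Field K] [Algebra A K] [IsFractionRing A K]

/-- The generators, with two added. -/
def gens2 (A : Type) [CommRing A] (N : Fin r → Finset σ) : Fin (r + 1) → MvPowerSeries σ A :=
  Fin.cons 2 (gens A N)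

theorem prod_gens2_up (T : Finset (Fin r)) :
    ∏ i ∈ up T, gens2 A N i = monomial (∑ i ∈ T, ind (N i)) 1 := by
  rw [prod_up, ← prod_gens]
  rfl

theorem prod_gens2_up0 (T : Finset (Fin r)) :
    ∏ i ∈ up0 T, gens2 A N i = monomial (∑ i ∈ T, ind (N i)) 2 := by
  rw [prod_up0]
  have h1 : ∏ i ∈ T, gens2 A N i.succ = ∏ i ∈ T, gens A N i := rfl
  have h2 : gens2 A N 0 = monomial 0 2 := by
    change (2 : MvPowerSeries σ A) = _
    rw [monomial_zero_eq_C_apply, map_ofNat]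
  rw [h1, prod_gens, h2, monomial_mul_monomial, zero_add, mul_one]

theorem supp_iff {T : Finset (Fin r)} {g : (σ → ℤ) → K} :
    (∀ b, g b ≠ 0 → ∀ v, (∑ i ∈ T, ind (N i)) v = 0 → 0 ≤ b v) ↔
      (∀ b, g b ≠ 0 → ∀ v, b v < 0 → ∃ i ∈ T, v ∈ N i) := by
  refine forall_congr' fun b => forall_congr' fun _ => forall_congr' fun v => ?_
  rw [sum_ind_eq_zero]
  constructor
  · intro h hb
    by_contra hcon
    push Not at hcon
    exact absurd (h hcon) (not_le.mpr hb)
  · intro h hb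
    by_contra hcon
    obtain ⟨i, hi, hiv⟩ := h (not_le.mp hcon)
    exact hb i hi hiv

variable (K) in
theorem away_up {T : Finset (Fin r)} {q : FractionRing (MvPowerSeries σ A)} :
    InAway (∏ i ∈ up T, gens2 A N i) q ↔ ∃ g : (σ → ℤ) → K, Rep q g ∧
      (∀ b, g b ≠ 0 → ∀ v, b v < 0 → ∃ i ∈ T, v ∈ N i) ∧ ∀ b, mkQ A K (g b) = 0 := by
  rw [prod_gens2_up, away_iff K one_ne_zero]
  refine exists_congr fun g => and_congr_right fun _ => and_congr supp_iff ?_
  constructor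
  · rintro ⟨n, h⟩ b
    obtain ⟨a, ha⟩ := h b
    refine mkQ_eq_zero.mpr ⟨a, ?_⟩
    rw [ha, map_one, one_pow, one_mul]
  · intro h
    refine ⟨0, fun b => ?_⟩
    obtain ⟨a, ha⟩ := mkQ_eq_zero.mp (h b)
    exact ⟨a, by rw [ha, pow_zero, one_mul]⟩

variable (K) in
theorem away_up0 (h2 : (2 : A) ≠ 0) {T : Finset (Fin r)}
    {q : FractionRing (MvPowerSeries σ A)} :
    InAway (∏ i ∈ up0 T, gens2 A N i) q ↔ ∃ g : (σ → ℤ) → K, Rep q g ∧
      (∀ b, g b ≠ 0 → ∀ v, b v < 0 → ∃ i ∈ T, v ∈ N i) ∧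
      ∃ n : ℕ, ∀ b, (2 ^ n : ℤ) • mkQ A K (g b) = 0 := by
  rw [prod_gens2_up0, away_iff K h2]
  refine exists_congr fun g => and_congr_right fun _ => and_congr supp_iff ?_
  refine exists_congr fun n => forall_congr' fun b => ?_
  rw [← map_zsmul, mkQ_eq_zero, zsmul_eq_mul]
  have h3 : ((2 ^ n : ℤ) : K) = algebraMap A K 2 ^ n := by
    rw [map_ofNat]
    push_cast
    rfl
  rw [h3]

theorem cochain_iff {k : ℕ} {c : Finset (Fin (r + 1)) → FractionRing (MvPowerSeries σ A)} :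
    c ∈ cochain (gens2 A N) (k + 1) ↔
      (∀ T, (T.card = k → InAway (∏ i ∈ up0 T, gens2 A N i) (c (up0 T))) ∧
        (T.card ≠ k → c (up0 T) = 0)) ∧
      (∀ T, (T.card = k + 1 → InAway (∏ i ∈ up T, gens2 A N i) (c (up T))) ∧
        (T.card ≠ k + 1 → c (up T) = 0)) := by
  constructor
  · intro h
    refine ⟨fun T => ⟨fun hT => (h _).1 (by rw [card_up0, hT]), fun hT => (h _).2 ?_⟩,
      fun T => ⟨fun hT => (h _).1 (by rw [card_up, hT]), fun hT => (h _).2 ?_⟩⟩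
    · rw [card_up0]
      omega
    · rw [card_up]
      exact hT
  · rintro ⟨h0, h1⟩ U
    by_cases hU : 0 ∈ U
    · obtain ⟨T, rfl⟩ : ∃ T, up0 T = U := ⟨dn U, up0_dn hU⟩
      refine ⟨fun h => (h0 T).1 ?_, fun h => (h0 T).2 ?_⟩
      · rw [card_up0] at h
        omega
      · rw [card_up0] at h
        omega
    · obtain ⟨T, rfl⟩ : ∃ T, up T = U := ⟨dn U, up_dn hU⟩
      refine ⟨fun h => (h1 T).1 ?_, fun h => (h1 T).2 ?_⟩
      · rwa [card_up] at h
      · rwa [card_up] at h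

/-- The support condition. -/
def Supp (N : Fin r → Finset σ) (k : ℕ) (y : Finset (Fin r) → (σ → ℤ) → K) : Prop :=
  ∀ T b, y T b ≠ 0 → T.card = k ∧ ∀ v, b v < 0 → ∃ i ∈ T, v ∈ N i

theorem Supp.bd {k : ℕ} {y : Finset (Fin r) → (σ → ℤ) → K} (h : Supp N k y) :
    Supp N (k + 1) (MP_52a0c0_ag.bd y) := by
  intro T b hb
  have h1 : ∃ i ∈ T, y (T.erase i) b ≠ 0 := by
    by_contra hcon
    push Not at hcon
    apply hb
    rw [bd_apply_apply]
    unfold MP_52a0c0_ag.bd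
    exact Finset.sum_eq_zero fun i hi => by beta_reduce; rw [hcon i hi, smul_zero]
  obtain ⟨i, hi, h2⟩ := h1
  obtain ⟨h3, h4⟩ := h _ _ h2
  refine ⟨?_, fun v hv => ?_⟩
  · rw [Finset.card_erase_of_mem hi] at h3
    have := Finset.card_pos.mpr ⟨i, hi⟩
    omega
  · obtain ⟨j, hj, hj'⟩ := h4 v hv
    exact ⟨j, Finset.mem_of_mem_erase hj, hj'⟩

theorem Supp.sub {k : ℕ} {y z : Finset (Fin r) → (σ → ℤ) → K} (h : Supp N k y)
    (h' : Supp N k z) : Supp N k (y - z) := by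
  intro T b hb
  by_cases h1 : y T b = 0
  · refine h' T b fun h2 => hb ?_
    rw [Pi.sub_apply, Pi.sub_apply, h1, h2, sub_zero]
  · exact h T b h1

theorem lem0 (h2 : (2 : A) ≠ 0) {k : ℕ} {c0 : Finset (Fin r) → FractionRing (MvPowerSeries σ A)}
    {y : Finset (Fin r) → (σ → ℤ) → K} (h : ∀ T, Rep (c0 T) (y T)) :
    (∀ T, (T.card = k → InAway (∏ i ∈ up0 T, gens2 A N i) (c0 T)) ∧
      (T.card ≠ k → c0 T = 0)) ↔
    (Supp N k y ∧ ∃ M : ℕ, ∀ T b, (2 ^ M : ℤ) • mkQ A K (y T b) = 0) := by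
  constructor
  · intro hc
    have h0 : ∀ T b, y T b ≠ 0 → T.card = k := by
      intro T b hb
      by_contra hT
      have h1 := (hc T).2 hT
      rw [rep_iff (h T) (Rep.zero (K := K))] at h1
      exact hb (congrFun h1 b)
    have h3 : ∀ T, T.card = k → (∀ b, y T b ≠ 0 → ∀ v, b v < 0 → ∃ i ∈ T, v ∈ N i) ∧
        ∃ n : ℕ, ∀ b, (2 ^ n : ℤ) • mkQ A K (y T b) = 0 := by
      intro T hT
      obtain ⟨g', hg', h4⟩ := (away_up0 K h2).mp ((hc T).1 hT)
      have h5 := (rep_iff (h T) hg').mp rfl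
      rw [← h5] at h4
      exact h4
    refine ⟨fun T b hb => ⟨h0 T b hb, (h3 T (h0 T b hb)).1 b hb⟩, ?_⟩
    have h4 : ∀ T, ∃ n : ℕ, ∀ b, (2 ^ n : ℤ) • mkQ A K (y T b) = 0 := by
      intro T
      by_cases hT : T.card = k
      · exact (h3 T hT).2
      · refine ⟨0, fun b => ?_⟩
        have : y T b = 0 := by
          by_contra hb
          exact hT (h0 T b hb)
        rw [this, map_zero, smul_zero]
    choose M hM using h4
    refine ⟨∑ T, M T, fun T b => ?_⟩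
    have h6 : M T ≤ ∑ T, M T :=
      Finset.single_le_sum (fun _ _ => Nat.zero_le _) (Finset.mem_univ T)
    obtain ⟨c, hc⟩ := Nat.exists_eq_add_of_le h6
    rw [hc, pow_add, mul_comm, mul_smul, hM, smul_zero]
  · rintro ⟨h1, M, h3⟩ T
    refine ⟨fun _ => (away_up0 K h2).mpr ⟨y T, h T, fun b hb => (h1 T b hb).2, M, h3 T⟩,
      fun hT => ?_⟩
    rw [rep_iff (h T) (Rep.zero (K := K))]
    funext b
    by_contra hb
    exact hT (h1 T b hb).1

theorem lem1 {k : ℕ} {c1 : Finset (Fin r) → FractionRing (MvPowerSeries σ A)}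
    {y : Finset (Fin r) → (σ → ℤ) → K} (h : ∀ T, Rep (c1 T) (y T)) :
    (∀ T, (T.card = k → InAway (∏ i ∈ up T, gens2 A N i) (c1 T)) ∧
      (T.card ≠ k → c1 T = 0)) ↔
    (Supp N k y ∧ ∀ T b, mkQ A K (y T b) = 0) := by
  constructor
  · intro hc
    have h0 : ∀ T b, y T b ≠ 0 → T.card = k := by
      intro T b hb
      by_contra hT
      have h1 := (hc T).2 hT
      rw [rep_iff (h T) (Rep.zero (K := K))] at h1
      exact hb (congrFun h1 b)
    have h3 : ∀ T, T.card = k → (∀ b, y T b ≠ 0 → ∀ v, b v < 0 → ∃ i ∈ T, v ∈ N i) ∧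
        ∀ b, mkQ A K (y T b) = 0 := by
      intro T hT
      obtain ⟨g', hg', h4⟩ := (away_up K).mp ((hc T).1 hT)
      have h5 := (rep_iff (h T) hg').mp rfl
      rw [← h5] at h4
      exact h4
    refine ⟨fun T b hb => ⟨h0 T b hb, (h3 T (h0 T b hb)).1 b hb⟩, fun T b => ?_⟩
    by_cases hT : T.card = k
    · exact (h3 T hT).2 b
    · have : y T b = 0 := by
        by_contra hb
        exact hT (h0 T b hb)
      rw [this, map_zero]
  · rintro ⟨h1, h3⟩ T
    refine ⟨fun _ => (away_up K).mpr ⟨y T, h T, fun b hb => (h1 T b hb).2, h3 T⟩,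
      fun hT => ?_⟩
    rw [rep_iff (h T) (Rep.zero (K := K))]
    funext b
    by_contra hb
    exact hT (h1 T b hb).1

variable (K) in
theorem exists_y0 (h2 : (2 : A) ≠ 0) {k : ℕ}
    {c0 : Finset (Fin r) → FractionRing (MvPowerSeries σ A)}
    (hc : ∀ T, (T.card = k → InAway (∏ i ∈ up0 T, gens2 A N i) (c0 T)) ∧
      (T.card ≠ k → c0 T = 0)) :
    ∃ y : Finset (Fin r) → (σ → ℤ) → K, ∀ T, Rep (c0 T) (y T) := by
  have : ∀ T, ∃ g : (σ → ℤ) → K, Rep (c0 T) g := by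
    intro T
    by_cases hT : T.card = k
    · obtain ⟨g, hg, -⟩ := (away_up0 K h2).mp ((hc T).1 hT)
      exact ⟨g, hg⟩
    · exact ⟨0, by rw [(hc T).2 hT]; exact Rep.zero⟩
  choose g hg using this
  exact ⟨g, hg⟩

variable (K) in
theorem exists_y1 {k : ℕ}
    {c1 : Finset (Fin r) → FractionRing (MvPowerSeries σ A)}
    (hc : ∀ T, (T.card = k → InAway (∏ i ∈ up T, gens2 A N i) (c1 T)) ∧
      (T.card ≠ k → c1 T = 0)) :
    ∃ y : Finset (Fin r) → (σ → ℤ) → K, ∀ T, Rep (c1 T) (y T) := by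
  have : ∀ T, ∃ g : (σ → ℤ) → K, Rep (c1 T) g := by
    intro T
    by_cases hT : T.card = k
    · obtain ⟨g, hg, -⟩ := (away_up K).mp ((hc T).1 hT)
      exact ⟨g, hg⟩
    · exact ⟨0, by rw [(hc T).2 hT]; exact Rep.zero⟩
  choose g hg using this
  exact ⟨g, hg⟩

/-- Lifts. -/
theorem exists_lift (h2 : (2 : A) ≠ 0) {k : ℕ} {g : Finset (Fin r) → (σ → ℤ) → QA A K}
    (hg : g ∈ FB N (QA A K) k) :
    ∃ (y : Finset (Fin r) → (σ → ℤ) → K)
      (c0 : Finset (Fin r) → FractionRing (MvPowerSeries σ A)),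
      (∀ T b, mkQ A K (y T b) = g T b) ∧ (∀ T, Rep (c0 T) (y T)) ∧ Supp N k y ∧
      ∃ M : ℕ, ∀ T b, (2 ^ M : ℤ) • mkQ A K (y T b) = 0 := by
  obtain ⟨h1, ⟨m, hm⟩, M, hM⟩ := hg
  have h3 : ∀ T b, ∃ x : K, mkQ A K x = g T b ∧ (g T b = 0 → x = 0) := by
    intro T b
    by_cases h : g T b = 0
    · exact ⟨0, by rw [h, map_zero], fun _ => rfl⟩
    · obtain ⟨x, hx⟩ := mkQ_surjective (g T b)
      exact ⟨x, hx, fun h' => absurd h' h⟩
  choose y hy1 hy2 using h3
  have hy3 : ∀ T b, y T b ≠ 0 → g T b ≠ 0 := fun T b h h' => h (hy2 T b h')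
  have hy4 : ∀ T b, (2 ^ M : ℤ) • mkQ A K (y T b) = 0 := by
    intro T b
    rw [hy1, hM]
  choose c0 hc0 using fun T => exists_rep (A := A) (y T) m (fun b hb => hm T b (hy3 T b hb))
    (2 ^ M) (pow_ne_zero M h2) (fun b => by
      obtain ⟨a, ha⟩ := mkQ_eq_zero.mp ((map_zsmul (mkQ A K) _ _).trans (hy4 T b))
      refine ⟨a, ?_⟩
      rw [ha, zsmul_eq_mul, map_pow, map_ofNat]
      push_cast
      rfl)
  exact ⟨y, c0, hy1, hc0, fun T b hb => h1 T b (hy3 T b hb), M, hy4⟩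

/-- The relation. -/
def RM (σ A K : Type) [Fintype σ] [DecidableEq σ] [CommRing A] [IsDomain A] [Field K]
    [Algebra A K] [IsFractionRing A K] (r : ℕ) :
    AddSubgroup ((Finset (Fin r) → (σ → ℤ) → QA A K) ×
      (Finset (Fin (r + 1)) → FractionRing (MvPowerSeries σ A))) where
  carrier := {p | ∃ y : Finset (Fin r) → (σ → ℤ) → K, (∀ T, Rep (p.2 (up0 T)) (y T)) ∧
    ∀ T b, mkQ A K (y T b) = p.1 T b}
  zero_mem' := ⟨0, fun _ => Rep.zero, fun _ _ => map_zero _⟩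
  add_mem' := by
    rintro p p' ⟨y, h1, h2⟩ ⟨y', h1', h2'⟩
    refine ⟨y + y', fun T => (h1 T).add (h1' T), fun T b => ?_⟩
    rw [Pi.add_apply, Pi.add_apply, map_add, h2, h2']
    rfl
  neg_mem' := by
    rintro p ⟨y, h1, h2⟩
    refine ⟨-y, fun T => (h1 T).neg, fun T b => ?_⟩
    rw [Pi.neg_apply, Pi.neg_apply, map_neg, h2]
    rfl

theorem FB_of_rep {k : ℕ} {c0 : Finset (Fin r) → FractionRing (MvPowerSeries σ A)}
    {y : Finset (Fin r) → (σ → ℤ) → K} (h : ∀ T, Rep (c0 T) (y T)) (hs : Supp N k y)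
    (hM : ∃ M : ℕ, ∀ T b, (2 ^ M : ℤ) • mkQ A K (y T b) = 0) :
    (fun T b => mkQ A K (y T b)) ∈ FB N (QA A K) k := by
  have hne : ∀ T b, mkQ A K (y T b) ≠ 0 → y T b ≠ 0 := by
    intro T b h1 h3
    exact h1 (by rw [h3, map_zero])
  refine ⟨fun T b hb => hs T b (hne T b hb), ?_, hM⟩
  choose m hm using fun T => (h T).bounded
  refine ⟨∑ T, m T, fun T b hb v => ?_⟩
  have h5 := hm T b (hne T b hb) v
  have h6 : m T ≤ ∑ T, m T :=
    Finset.single_le_sum (fun _ _ => Nat.zero_le _) (Finset.mem_univ T)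
  have h7 : (m T : ℤ) ≤ ((∑ T, m T : ℕ) : ℤ) := by exact_mod_cast h6
  linarith

theorem cocycle_up {k : ℕ} {c : Finset (Fin (r + 1)) → FractionRing (MvPowerSeries σ A)}
    (hc : c ∈ cocycles (gens2 A N) k) (T : Finset (Fin r)) :
    c (up T) = bd (fun T' => c (up0 T')) T := by
  have h1 : cechD _ _ c = 0 := LinearMap.mem_ker.mp hc.2
  rw [cechD_eq] at h1
  have h3 := congrFun h1 (up0 T)
  rw [bd_up0] at h3
  exact sub_eq_zero.mp h3

theorem P1 (h2 : (2 : A) ≠ 0) {k : ℕ} {g : Finset (Fin r) → (σ → ℤ) → QA A K}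
    {c : Finset (Fin (r + 1)) → FractionRing (MvPowerSeries σ A)} (h : (g, c) ∈ RM σ A K r)
    (hc : c ∈ cocycles (gens2 A N) (k + 2)) : g ∈ FB N (QA A K) (k + 1) ∧ bd g = 0 := by
  obtain ⟨y, hy1, hy2⟩ := h
  obtain ⟨h3, h4⟩ := cochain_iff.mp hc.1
  obtain ⟨h5, h6⟩ := (lem0 h2 hy1).mp h3
  have hg : g = fun T b => mkQ A K (y T b) := by
    funext T b
    exact (hy2 T b).symm
  refine ⟨?_, ?_⟩
  · rw [hg]
    exact FB_of_rep hy1 h5 h6
  · have h7 : ∀ T, Rep (c (up T)) (bd y T) := by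
      intro T
      rw [cocycle_up hc]
      exact Rep.bd hy1 T
    obtain ⟨-, h8⟩ := (lem1 h7).mp h4
    funext T b
    rw [hg, ← bd_mkQ, h8]
    rfl

theorem P2 (h2 : (2 : A) ≠ 0) {k : ℕ} {g : Finset (Fin r) → (σ → ℤ) → QA A K}
    (hg : g ∈ FB N (QA A K) (k + 1)) (hg0 : bd g = 0) :
    ∃ c ∈ cocycles (gens2 A N) (k + 2), (g, c) ∈ RM σ A K r := by
  obtain ⟨y, c0, hy1, hy2, hs, hM⟩ := exists_lift h2 hg
  refine ⟨comb c0 (bd c0), ⟨cochain_iff.mpr ⟨?_, ?_⟩, ?_⟩, y, fun T => ?_, hy1⟩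
  · intro T
    rw [comb_up0]
    exact (lem0 h2 hy2).mpr ⟨hs, hM⟩ T
  · intro T
    rw [comb_up]
    refine (lem1 (fun T => Rep.bd hy2 T)).mpr ⟨hs.bd, fun T b => ?_⟩ T
    rw [bd_mkQ]
    have : (fun T' b' => mkQ A K (y T' b')) = g := by
      funext T b
      exact hy1 T b
    rw [this, hg0]
    rfl
  · change cechD _ _ _ = 0
    rw [cechD_eq]
    refine ext_up (fun T => ?_) fun T => ?_
    · rw [bd_up]
      simp only [comb_up]
      exact bd_bd c0 T
    · rw [bd_up0]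
      simp only [comb_up, comb_up0]
      exact sub_self _
  · change Rep (comb c0 (bd c0) (up0 T)) (y T)
    rw [comb_up0]
    exact hy2 T

theorem P3 (h2 : (2 : A) ≠ 0) {k : ℕ} {g : Finset (Fin r) → (σ → ℤ) → QA A K}
    {c : Finset (Fin (r + 1)) → FractionRing (MvPowerSeries σ A)} (h : (g, c) ∈ RM σ A K r)
    (hc : c ∈ cocycles (gens2 A N) (k + 2)) :
    g ∈ BF N (QA A K) k ↔ c ∈ coboundaries (gens2 A N) (k + 2) := by
  obtain ⟨y, hy1, hy2⟩ := h
  have hg : g = fun T b => mkQ A K (y T b) := by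
    funext T b
    exact (hy2 T b).symm
  constructor
  · rintro ⟨x, hx, hxg⟩
    obtain ⟨z, c0, hz1, hz2, hzs, hzM⟩ := exists_lift h2 hx
    have hxz : x = fun T b => mkQ A K (z T b) := by
      funext T b
      exact (hz1 T b).symm
    obtain ⟨h3, h4⟩ := cochain_iff.mp hc.1
    obtain ⟨h5, h6⟩ := (lem0 h2 hy1).mp h3
    refine ⟨comb (-c0) ((fun T => c (up0 T)) - bd c0), cochain_iff.mpr ⟨?_, ?_⟩, ?_⟩
    · intro T
      rw [comb_up0]
      refine (lem0 (K := K) (y := -z) h2 (fun T => (hz2 T).neg)).mpr ⟨?_, ?_⟩ T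
      · intro T b hb
        exact hzs T b fun h' => hb (by simp [h'])
      · obtain ⟨M, hM⟩ := hzM
        refine ⟨M, fun T b => ?_⟩
        rw [Pi.neg_apply, Pi.neg_apply, map_neg, smul_neg, hM, neg_zero]
    · intro T
      rw [comb_up]
      have h7 : ∀ T, Rep (((fun T => c (up0 T)) - bd c0) T) ((y - bd z) T) := by
        intro T
        rw [sub_eq_add_neg, sub_eq_add_neg]
        exact (hy1 T).add (Rep.bd hz2 T).neg
      refine (lem1 h7).mpr ⟨h5.sub hzs.bd, fun T b => ?_⟩ T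
      rw [Pi.sub_apply, Pi.sub_apply, map_sub, bd_mkQ, hy2, ← hxz, ← hxg]
      exact sub_self _
    · rw [cechD_eq]
      refine ext_up (fun T => ?_) fun T => ?_
      · rw [bd_up]
        simp only [comb_up]
        rw [cocycle_up hc, ← bdh_apply, map_sub, bdh_apply, bdh_apply, Pi.sub_apply]
        have : bd (bd c0) T = 0 := bd_bd c0 T
        rw [this, sub_zero]
      · rw [bd_up0]
        simp only [comb_up, comb_up0]
        have : bd (fun T' => (-c0) T') T = - bd c0 T := by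
          change bd (-c0) T = _
          rw [← bdh_apply, map_neg, bdh_apply]
          rfl
        rw [this, Pi.sub_apply]
        ring
  · rintro ⟨c', hc', rfl⟩
    obtain ⟨h3, h4⟩ := cochain_iff.mp hc'
    obtain ⟨y0, hy0⟩ := exists_y0 K h2 h3
    obtain ⟨y1, hy1'⟩ := exists_y1 K h4
    obtain ⟨h5, h6⟩ := (lem0 h2 hy0).mp h3
    obtain ⟨h7, h8⟩ := (lem1 hy1').mp h4
    have h9 : ∀ T, y T = y1 T - bd y0 T := by
      intro T
      refine (rep_iff (hy1 T) (?_ : Rep (c' (up T) - bd (fun T' => c' (up0 T')) T) _)).mp ?_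
      · rw [sub_eq_add_neg, sub_eq_add_neg]
        exact (hy1' T).add (Rep.bd hy0 T).neg
      · change cechD _ _ c' (up0 T) = _
        rw [cechD_eq, bd_up0]
    refine ⟨-(fun T b => mkQ A K (y0 T b)), neg_mem (FB_of_rep hy0 h5 h6), ?_⟩
    rw [map_neg, bdh_apply, hg]
    funext T b
    rw [h9, Pi.sub_apply, map_sub, h8, bd_mkQ, zero_sub]
    rfl

theorem RM_shift (v : σ) {g : Finset (Fin r) → (σ → ℤ) → QA A K}
    {c : Finset (Fin (r + 1)) → FractionRing (MvPowerSeries σ A)} (h : (g, c) ∈ RM σ A K r) :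
    (sh (QA A K) r v g, (X v : MvPowerSeries σ A) • c) ∈ RM σ A K r := by
  obtain ⟨y, hy1, hy2⟩ := h
  exact ⟨fun T b => y T (b - ev v), fun T => (hy1 T).shift v, fun T b => hy2 T (b - ev v)⟩

theorem SF_iff' (h2 : (2 : A) ≠ 0) {k : ℕ} {g : Finset (Fin r) → (σ → ℤ) → QA A K}
    {c : Finset (Fin (r + 1)) → FractionRing (MvPowerSeries σ A)} (h : (g, c) ∈ RM σ A K r)
    (hc : c ∈ cocycles (gens2 A N) (k + 2)) :
    g ∈ SF N (QA A K) k ↔ c ∈ SC X (gens2 A N) (k + 2) := by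
  obtain ⟨h3, h4⟩ := P1 h2 h hc
  have e3 : ∀ v, sh (QA A K) r v g ∈ BF N (QA A K) k ↔
      (X v : MvPowerSeries σ A) • c ∈ coboundaries (gens2 A N) (k + 2) := by
    intro v
    exact P3 h2 (RM_shift v h) (Submodule.smul_mem _ _ hc)
  have e4 : (2 : ℤ) • g ∈ BF N (QA A K) k ↔
      c + c ∈ coboundaries (gens2 A N) (k + 2) := by
    rw [two_zsmul]
    exact P3 h2 (add_mem h h) (add_mem hc hc)
  constructor
  · rintro ⟨_, _, h5, h6⟩
    exact ⟨hc, fun v => (e3 v).mp (h5 v), e4.mp h6⟩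
  · rintro ⟨_, h5, h6⟩
    exact ⟨h3, h4, fun v => (e3 v).mpr (h5 v), e4.mpr h6⟩

/-- **Socles, mixed characteristic.** -/
theorem mixed_equiv (h2 : (2 : A) ≠ 0) (K : Type) [Field K] [Algebra A K] [IsFractionRing A K]
    (N : Fin r → Finset σ) (k : ℕ) :
    Nonempty ((SF N (QA A K) k ⧸ (BF N (QA A K) k).addSubgroupOf (SF N (QA A K) k)) ≃+
      (SC X (gens2 A N) (k + 2) ⧸ (BC (gens2 A N) (k + 2)).addSubgroupOf
        (SC (X : σ → MvPowerSeries σ A) (gens2 A N) (k + 2)))) := by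
  refine rel_equiv (RM σ A K r) _ _ _ _ ?_ ?_ ?_
  · intro g hg
    obtain ⟨c, hc, h⟩ := P2 h2 hg.1 hg.2.1
    exact ⟨c, (SF_iff' h2 h hc).mp hg, h⟩
  · intro c hc
    obtain ⟨h3, h4⟩ := cochain_iff.mp hc.1.1
    obtain ⟨y, hy⟩ := exists_y0 K h2 h3
    have h : ((fun T b => mkQ A K (y T b)), c) ∈ RM σ A K r := ⟨y, hy, fun _ _ => rfl⟩
    exact ⟨_, (SF_iff' h2 h hc.1).mpr hc, h⟩
  · intro g _ c hc h
    exact P3 h2 h hc.1

end Mixed

end Pool.Agent.Lib.MP_52a0c0_ag
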