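import Mathlib
import Pool.Agent.Lib.MP_52a0c0_ag.Equal

/-! # Socles and cardinalities -/

noncomputable section

namespace Pool.Agent.Lib.MP_52a0c0_ag

open MvPowerSeries IsLocalRing

section Max

set_option linter.unusedSectionVars false

variable {σ : Type} [Fintype σ] [DecidableEq σ] {A : Type} [CommRing A]

theorem mem_span_X (p : MvPowerSeries σ A) (hp : constantCoeff p = 0) :
    p ∈ Ideal.span (Set.range (X : σ → MvPowerSeries σ A)) := by
  classical
  let φ : (σ →₀ ℕ) → Option σ := fun n => if h : ∃ v, n v ≠ 0 then some h.choose else none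
  have hφ : ∀ n v, φ n = some v → n v ≠ 0 := by
    intro n v h
    by_cases hn : ∃ v, n v ≠ 0
    · have h1 : φ n = some hn.choose := dif_pos hn
      rw [h1] at h
      rw [← Option.some_injective _ h]
      exact hn.choose_spec
    · have h1 : φ n = none := dif_neg hn
      rw [h1] at h
      exact absurd h (by simp)
  let P : σ → MvPowerSeries σ A := fun v n =>
    if φ (n + Finsupp.single v 1) = some v then coeff (n + Finsupp.single v 1) p else 0
  have hP : ∀ v n, coeff n (P v) =
      if φ (n + Finsupp.single v 1) = some v then coeff (n + Finsupp.single v 1) p else 0 :=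
    fun v n => rfl
  have h1 : p = ∑ v, X v * P v := by
    ext n
    rw [map_sum]
    have h2 : ∀ v, coeff n (X v * P v) = if φ n = some v then coeff n p else 0 := by
      intro v
      rw [X_def, coeff_monomial_mul]
      by_cases hv : Finsupp.single v 1 ≤ n
      · rw [if_pos hv, one_mul, hP, tsub_add_cancel_of_le hv]
      · rw [if_neg hv]
        split_ifs with h3
        · exfalso
          apply hv
          have h4 := hφ n v h3
          rw [Finsupp.single_le_iff]
          omega
        · rfl
    rw [Finset.sum_congr rfl fun v _ => h2 v]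
    by_cases hn : ∃ v, n v ≠ 0
    · have h3 : φ n = some hn.choose := dif_pos hn
      rw [h3]
      rw [Finset.sum_eq_single_of_mem hn.choose (Finset.mem_univ _)]
      · rw [if_pos rfl]
      · intro v _ hv
        rw [if_neg]
        intro h4
        exact hv (Option.some_injective _ h4).symm
    · have h3 : n = 0 := by
        ext v
        by_contra h
        exact hn ⟨v, h⟩
      have h4 : φ n = none := dif_neg hn
      rw [h4]
      simp only [reduceCtorEq, if_false, Finset.sum_const_zero]
      rw [h3]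
      exact hp
  rw [h1]
  exact Ideal.sum_mem _ fun v _ => Ideal.mul_mem_right _ _ (Ideal.subset_span ⟨v, rfl⟩)

variable [IsLocalRing A] (φ : A →+* ZMod 2) (hφ : Function.Surjective φ)
  (hker : ∀ a, φ a = 0 → ∃ b, a = 2 * b)

include hφ in
theorem ker_eq_max : RingHom.ker (φ.comp (constantCoeff (σ := σ) (R := A))) =
    maximalIdeal (MvPowerSeries σ A) := by
  have hs : Function.Surjective (φ.comp (constantCoeff (σ := σ) (R := A))) := by
    rw [RingHom.coe_comp]
    refine hφ.comp fun a => ⟨C a, constantCoeff_C a⟩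
  have : (RingHom.ker (φ.comp (constantCoeff (σ := σ) (R := A)))).IsMaximal :=
    RingHom.ker_isMaximal_of_surjective _ hs
  exact IsLocalRing.eq_maximalIdeal this

include hφ in
theorem card_res : Nat.card (MvPowerSeries σ A ⧸ maximalIdeal (MvPowerSeries σ A)) = 2 := by
  have hs : Function.Surjective (φ.comp (constantCoeff (σ := σ) (R := A))) := by
    rw [RingHom.coe_comp]
    refine hφ.comp fun a => ⟨C a, constantCoeff_C a⟩
  rw [← ker_eq_max φ hφ, Nat.card_congr (RingHom.quotientKerEquivOfSurjective hs).toEquiv]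
  exact Nat.card_zmod 2

include hφ hker in
theorem max_eq_span : maximalIdeal (MvPowerSeries σ A) =
    Ideal.span (insert 2 (Set.range (X : σ → MvPowerSeries σ A))) := by
  rw [← ker_eq_max φ hφ]
  apply le_antisymm
  · intro p hp
    have h1 : φ (constantCoeff p) = 0 := hp
    obtain ⟨b, hb⟩ := hker _ h1
    have h2 : constantCoeff (p - C (constantCoeff p)) = 0 := by
      rw [map_sub, constantCoeff_C, sub_self]
    have h3 := mem_span_X _ h2
    have h4 : p = 2 * C b + (p - C (constantCoeff p)) := by
      rw [hb, map_mul, map_ofNat]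
      ring
    rw [h4]
    refine add_mem (Ideal.mul_mem_right _ _ (Ideal.subset_span (Set.mem_insert _ _))) ?_
    exact Ideal.span_mono (Set.subset_insert _ _) h3
  · rw [Ideal.span_le]
    rintro p (rfl | ⟨v, rfl⟩)
    · change φ (constantCoeff 2) = 0
      rw [map_ofNat, map_ofNat]
      decide
    · change φ (constantCoeff (X v)) = 0
      rw [constantCoeff_X, map_zero]

end Max

section Tors

set_option linter.unusedSectionVars false

variable {S : Type} [CommRing S] [IsDomain S] {r : ℕ} {σ : Type} (x : σ → S) (f : Fin r → S)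
    (k : ℕ)

theorem SC_iff {c : Finset (Fin r) → FractionRing S} : c ∈ SC x f k ↔
    c ∈ cocycles f k ∧ ∀ a ∈ Ideal.span (insert 2 (Set.range x)), a • c ∈ coboundaries f k := by
  constructor
  · rintro ⟨h1, h2, h3⟩
    refine ⟨h1, fun a ha => ?_⟩
    have h4 : Ideal.span (insert 2 (Set.range x)) ≤
        Submodule.comap (LinearMap.toSpanSingleton S _ c) (coboundaries f k) := by
      rw [Ideal.span_le]
      rintro p (rfl | ⟨v, rfl⟩)
      · change (2 : S) • c ∈ coboundaries f k
        rw [two_smul]
        exact h3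
      · exact h2 v
    exact h4 ha
  · rintro ⟨h1, h2⟩
    refine ⟨h1, fun v => h2 _ (Ideal.subset_span (Set.mem_insert_of_mem _ ⟨v, rfl⟩)), ?_⟩
    have := h2 2 (Ideal.subset_span (Set.mem_insert _ _))
    rwa [two_smul] at this

theorem mk_eq_zero_iff {c : Finset (Fin r) → FractionRing S} (hc : c ∈ cocycles f k) :
    (Submodule.Quotient.mk ⟨c, hc⟩ : LocCoh f k) = 0 ↔ c ∈ coboundaries f k := by
  exact (Submodule.Quotient.mk_eq_zero _).trans Iff.rfl

theorem tors_equiv (m : Ideal S) (hm : m = Ideal.span (insert 2 (Set.range x))) :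
    Nonempty ((SC x f k ⧸ (BC f k).addSubgroupOf (SC x f k)) ≃+
      Submodule.torsionBySet S (LocCoh f k) (m : Set S)) := by
  have hmem : ∀ c : Finset (Fin r) → FractionRing S, ∀ hc : c ∈ cocycles f k, ∀ a : S,
      a • (Submodule.Quotient.mk ⟨c, hc⟩ : LocCoh f k) = 0 ↔ a • c ∈ coboundaries f k := by
    intro c hc a
    have h1 : a • (Submodule.Quotient.mk ⟨c, hc⟩ : LocCoh f k) =
      Submodule.Quotient.mk ⟨a • c, Submodule.smul_mem _ a hc⟩ := rfl
    rw [h1, mk_eq_zero_iff]
  let φ : SC x f k →+ Submodule.torsionBySet S (LocCoh f k) (m : Set S) :=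
    { toFun := fun c => ⟨Submodule.Quotient.mk ⟨c.1, c.2.1⟩, by
        rw [Submodule.mem_torsionBySet_iff]
        rintro ⟨a, ha⟩
        refine (hmem _ _ a).mpr ?_
        have h1 := ((SC_iff x f k).mp c.2).2
        rw [← hm] at h1
        exact h1 a ha⟩
      map_zero' := rfl
      map_add' := fun _ _ => rfl }
  have hφ : Function.Surjective φ := by
    rintro ⟨q, hq⟩
    obtain ⟨⟨c, hc⟩, rfl⟩ := Submodule.Quotient.mk_surjective _ q
    refine ⟨⟨c, ?_⟩, rfl⟩
    rw [SC_iff, ← hm]
    refine ⟨hc, fun a ha => ?_⟩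
    rw [Submodule.mem_torsionBySet_iff] at hq
    exact (hmem c hc a).mp (hq ⟨a, ha⟩)
  have hk : φ.ker = (BC f k).addSubgroupOf (SC x f k) := by
    ext ⟨c, hc⟩
    rw [AddMonoidHom.mem_ker, AddSubgroup.mem_addSubgroupOf]
    have h1 : φ ⟨c, hc⟩ = 0 ↔ (Submodule.Quotient.mk ⟨c, hc.1⟩ : LocCoh f k) = 0 :=
      Subtype.ext_iff
    rw [h1, mk_eq_zero_iff]
    rfl
  exact ⟨(QuotientAddGroup.quotientAddEquivOfEq hk.symm).trans
    (QuotientAddGroup.quotientKerEquivOfSurjective φ hφ)⟩

theorem socleDim_eq [IsLocalRing S]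
    (hm : maximalIdeal S = Ideal.span (insert 2 (Set.range x)))
    (hc : Nat.card (S ⧸ maximalIdeal S) = 2) (d : ℕ)
    (hd : Nat.card (SC x f k ⧸ (BC f k).addSubgroupOf (SC x f k)) = 2 ^ d) :
    socleDim f k = d := by
  obtain ⟨e⟩ := tors_equiv x f k _ hm
  rw [Nat.card_congr e.toEquiv] at hd
  have hfin : Finite (Submodule.torsionBySet S (LocCoh f k) (maximalIdeal S : Set S)) :=
    Nat.finite_of_card_ne_zero (by rw [hd]; positivity)
  let _ := Ideal.Quotient.field (maximalIdeal S)
  have h1 : Nat.card (Submodule.torsionBySet S (LocCoh f k) (maximalIdeal S : Set S)) =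
      Nat.card (S ⧸ maximalIdeal S) ^ socleDim f k :=
    Module.natCard_eq_pow_finrank (K := S ⧸ maximalIdeal S)
  rw [hc, hd] at h1
  exact (Nat.pow_right_injective le_rfl h1).symm

theorem finite_tors [IsLocalRing S]
    (hm : maximalIdeal S = Ideal.span (insert 2 (Set.range x))) (d : ℕ)
    (hd : Nat.card (SC x f k ⧸ (BC f k).addSubgroupOf (SC x f k)) = 2 ^ d) :
    Finite (Submodule.torsionBySet S (LocCoh f k) (maximalIdeal S : Set S)) := by
  obtain ⟨e⟩ := tors_equiv x f k _ hm
  rw [Nat.card_congr e.toEquiv] at hd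
  exact Nat.finite_of_card_ne_zero (by rw [hd]; positivity)

end Tors

end Pool.Agent.Lib.MP_52a0c0_ag
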