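import Mathlib
import Pool.Agent.Lib.MP_52a0c0_ag.Mixed
import Pool.Agent.Lib.MP_52a0c0_ag.Socle
import Pool.Agent.Lib.MP_52a0c0_ag.Finite

/-! # Counting -/

noncomputable section

namespace Pool.Agent.Lib.MP_52a0c0_ag

open MvPowerSeries IsLocalRing

section Count

set_option linter.unusedSectionVars false

variable (B : Type) [AddCommGroup B]

theorem hk_equiv : Nonempty (HK B (relG Ngen) Finset.univ Finset.univ 5 ≃+ B × (B ⧸ two B)) := by
  obtain ⟨e1⟩ := duality B (relG Ngen) Finset.univ Finset.univ 5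
  obtain ⟨e2⟩ := finite_univ B
  exact ⟨e1.trans e2⟩

theorem hk_star (v : Fin 8) :
    Subsingleton (HK B (relG Ngen) Finset.univ (Finset.univ.erase v) 5) := by
  obtain ⟨e1⟩ := duality B (relG Ngen) Finset.univ (Finset.univ.erase v) 5
  have := finite_star B v
  have h : Subsingleton (HK B (sw (relG Ngen)) (Finset.univ.erase v) Finset.univ 5) := this
  exact e1.toEquiv.subsingleton

theorem hvan (v : Fin 8) : ∀ z ∈ Kc B (relG Ngen) Finset.univ (Finset.univ.erase v) (5 + 1),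
    bd z = 0 → ∃ y ∈ Kc B (relG Ngen) Finset.univ (Finset.univ.erase v) 5, bd y = z := by
  intro z hz hbz
  have h1 := hk_star B v
  have hz' : z ∈ Kc B (relG Ngen) Finset.univ (Finset.univ.erase v) (5 + 1) ⊓
      (bdA B (Finset.univ : Finset (Fin 20))).ker := by
    refine ⟨hz, ?_⟩
    change bdA B (Finset.univ : Finset (Fin 20)) z = 0
    rw [bdA_univ_eq, bdh_apply, hbz]
  have h2 : (QuotientAddGroup.mk (⟨z, hz'⟩ : ↥(Kc B (relG Ngen) Finset.univ
      (Finset.univ.erase v) (5 + 1) ⊓ (bdA B (Finset.univ : Finset (Fin 20))).ker)) :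
      HK B (relG Ngen) Finset.univ (Finset.univ.erase v) 5) = 0 := Subsingleton.elim _ _
  rw [QuotientAddGroup.eq_zero_iff, AddSubgroup.mem_addSubgroupOf] at h2
  obtain ⟨y, hy, hyz⟩ := h2
  have h3 : bdA B (Finset.univ : Finset (Fin 20)) y = z := hyz
  rw [bdA_univ_eq, bdh_apply] at h3
  exact ⟨y, hy, h3⟩

/-- Elements killed by two. -/
def K2 (G : Type*) [AddCommGroup G] : Type _ := {x : G // (2 : ℤ) • x = 0}

theorem card_K2_congr {G H : Type*} [AddCommGroup G] [AddCommGroup H] (e : G ≃+ H) :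
    Nat.card (K2 G) = Nat.card (K2 H) :=
  Nat.card_congr (e.toEquiv.subtypeEquiv fun x => by
    change (2 : ℤ) • x = 0 ↔ (2 : ℤ) • e x = 0
    rw [← map_zsmul, EmbeddingLike.map_eq_zero_iff])

theorem card_SK : Nat.card (SK Ngen B 5 ⧸ (BK Ngen B 5).addSubgroupOf (SK Ngen B 5)) =
    Nat.card (K2 (B × (B ⧸ two B))) := by
  obtain ⟨e⟩ := hk_equiv B
  rw [← card_K2_congr e]
  have hz : ∀ z : Finset (Fin 20) → B, z ∈ Kc B (relG Ngen) Finset.univ Finset.univ (5 + 1) →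
      bd z = 0 → z ∈ Kc B (relG Ngen) Finset.univ Finset.univ (5 + 1) ⊓
      (bdA B (Finset.univ : Finset (Fin 20))).ker := by
    intro z h1 h2
    refine ⟨h1, ?_⟩
    change bdA B (Finset.univ : Finset (Fin 20)) z = 0
    rw [bdA_univ_eq, bdh_apply, h2]
  have h0 : ∀ z : ↥(Kc B (relG Ngen) Finset.univ Finset.univ (5 + 1) ⊓
      (bdA B (Finset.univ : Finset (Fin 20))).ker),
      (QuotientAddGroup.mk z : HK B (relG Ngen) Finset.univ Finset.univ 5) = 0 ↔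
        z.1 ∈ BK Ngen B 5 := by
    intro z
    rw [QuotientAddGroup.eq_zero_iff, AddSubgroup.mem_addSubgroupOf]
    rfl
  let φ : SK Ngen B 5 →+ HK B (relG Ngen) Finset.univ Finset.univ 5 :=
    (QuotientAddGroup.mk' _).comp
    { toFun := fun z => ⟨z.1, hz z.1 z.2.1 z.2.2.1⟩
      map_zero' := rfl
      map_add' := fun _ _ => rfl }
  have hφ : ∀ z, (2 : ℤ) • φ z = 0 := by
    intro z
    rw [← map_zsmul]
    exact (h0 _).mpr z.2.2.2
  have hk : φ.ker = (BK Ngen B 5).addSubgroupOf (SK Ngen B 5) := by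
    ext z
    rw [AddMonoidHom.mem_ker, AddSubgroup.mem_addSubgroupOf]
    exact h0 _
  rw [← hk]
  refine Nat.card_congr ((QuotientAddGroup.quotientKerEquivRange φ).toEquiv.trans
    (Equiv.subtypeEquivRight fun x => ?_))
  constructor
  · rintro ⟨z, rfl⟩
    exact hφ z
  · intro hx
    obtain ⟨⟨z, hz1, hz2⟩, rfl⟩ := QuotientAddGroup.mk_surjective x
    have hz3 : bd z = 0 := by
      have h1 : bdA B (Finset.univ : Finset (Fin 20)) z = 0 := hz2
      rwa [bdA_univ_eq, bdh_apply] at h1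
    rw [← QuotientAddGroup.mk_zsmul] at hx
    have h1 := (h0 _).mp hx
    exact ⟨⟨z, hz1, hz3, h1⟩, rfl⟩

theorem card_SF (htor : ∀ b : B, ∃ M : ℕ, (2 ^ M : ℤ) • b = 0) :
    Nat.card (SF Ngen B 5 ⧸ (BF Ngen B 5).addSubgroupOf (SF Ngen B 5)) =
    Nat.card (K2 (B × (B ⧸ two B))) := by
  obtain ⟨e⟩ := socle_equiv htor 5 (hvan B)
  rw [← Nat.card_congr e.toEquiv, card_SK]

end Count

section Two

theorem card_equal : Nat.card (K2 (ZMod 2 × (ZMod 2 ⧸ two (ZMod 2)))) = 2 ^ 2 := by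
  have h1 : two (ZMod 2) = ⊥ := by
    rw [eq_bot_iff]
    rintro _ ⟨x, rfl⟩
    exact char_two_smul x
  have h2 : ∀ x : ZMod 2 × (ZMod 2 ⧸ two (ZMod 2)), (2 : ℤ) • x = 0 := by
    rintro ⟨x, y⟩
    obtain ⟨y, rfl⟩ := QuotientAddGroup.mk_surjective y
    refine Prod.ext (char_two_smul x) ?_
    change (2 : ℤ) • (QuotientAddGroup.mk y : ZMod 2 ⧸ two (ZMod 2)) = 0
    rw [← QuotientAddGroup.mk_zsmul, char_two_smul]
    rfl
  have h3 : Nat.card (K2 (ZMod 2 × (ZMod 2 ⧸ two (ZMod 2)))) =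
      Nat.card (ZMod 2 × (ZMod 2 ⧸ two (ZMod 2))) :=
    Nat.card_congr (Equiv.subtypeUnivEquiv h2)
  rw [h3, Nat.card_prod, h1, Nat.card_congr (QuotientAddGroup.quotientBot (G := ZMod 2)).toEquiv,
    Nat.card_zmod]
  norm_num

/-- The quotient of the 2-adic numbers by the 2-adic integers. -/
abbrev PQ : Type := QA ℤ_[2] ℚ_[2]

theorem PQ_tor (b : PQ) : ∃ M : ℕ, (2 ^ M : ℤ) • b = 0 := by
  obtain ⟨x, rfl⟩ := mkQ_surjective b
  obtain ⟨M, hM⟩ := pow_unbounded_of_one_lt ‖x‖ (one_lt_two)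
  refine ⟨M, ?_⟩
  rw [← map_zsmul, mkQ_eq_zero]
  have h1 : ‖(2 ^ M : ℤ) • x‖ ≤ 1 := by
    rw [zsmul_eq_mul]
    push_cast
    rw [norm_mul, norm_pow]
    have h2 : ‖(2 : ℚ_[2])‖ = 2⁻¹ := by
      have := Padic.norm_p (p := 2)
      exact_mod_cast this
    rw [h2, inv_pow, inv_mul_le_iff₀ (by positivity), mul_one]
    exact hM.le
  exact ⟨⟨_, h1⟩, rfl⟩

theorem two_PQ : two PQ = ⊤ := by
  rw [eq_top_iff]
  rintro b -
  obtain ⟨x, rfl⟩ := mkQ_surjective b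
  refine ⟨mkQ _ _ (x / 2), ?_⟩
  change (2 : ℤ) • mkQ ℤ_[2] ℚ_[2] (x / 2) = _
  rw [← map_zsmul, zsmul_eq_mul]
  push_cast
  rw [mul_div_cancel₀ x two_ne_zero]

theorem half_ne : mkQ ℤ_[2] ℚ_[2] (1 / 2) ≠ 0 := by
  rw [Ne, mkQ_eq_zero]
  rintro ⟨a, ha⟩
  have h1 : ‖(1 / 2 : ℚ_[2])‖ ≤ 1 := by
    rw [← ha]
    exact a.2
  have h2 : ‖(2 : ℚ_[2])‖ = 2⁻¹ := by
    have := Padic.norm_p (p := 2)
    exact_mod_cast this
  rw [norm_div, h2, norm_one] at h1
  norm_num at h1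

theorem two_dvd_of {a : ℤ_[2]} (h : PadicInt.toZMod a = 0) : ∃ b, a = 2 * b := by
  have h1 : a ∈ RingHom.ker (PadicInt.toZMod (p := 2)) := h
  rw [PadicInt.ker_toZMod, PadicInt.maximalIdeal_eq_span_p, Ideal.mem_span_singleton] at h1
  exact h1

theorem card_K2_PQ : Nat.card (K2 PQ) = 2 := by
  have h0 : (2 : ℤ) • mkQ ℤ_[2] ℚ_[2] (1 / 2) = 0 := by
    rw [← map_zsmul, zsmul_eq_mul, mkQ_eq_zero]
    refine ⟨1, ?_⟩
    rw [map_one]
    push_cast
    norm_num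
  have h1 : ∀ b : PQ, (2 : ℤ) • b = 0 → b = 0 ∨ b = mkQ ℤ_[2] ℚ_[2] (1 / 2) := by
    intro b hb
    obtain ⟨x, rfl⟩ := mkQ_surjective b
    rw [← map_zsmul, mkQ_eq_zero] at hb
    obtain ⟨a, ha⟩ := hb
    rw [zsmul_eq_mul] at ha
    push_cast at ha
    have h2 : PadicInt.toZMod a = 0 ∨ PadicInt.toZMod (a - 1) = 0 := by
      rw [map_sub, map_one]
      generalize PadicInt.toZMod a = t
      revert t
      decide
    rcases h2 with h2 | h2
    · left
      obtain ⟨c, rfl⟩ := two_dvd_of h2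
      refine mkQ_eq_zero.mpr ⟨c, ?_⟩
      rw [map_mul, map_ofNat] at ha
      exact mul_left_cancel₀ two_ne_zero ha
    · right
      obtain ⟨c, hc⟩ := two_dvd_of h2
      rw [← sub_eq_zero, ← map_sub, mkQ_eq_zero]
      refine ⟨c, ?_⟩
      have h3 : a = 1 + 2 * c := by rw [← hc]; ring
      rw [h3, map_add, map_mul, map_ofNat, map_one] at ha
      have h4 : (2 : ℚ_[2]) * (algebraMap ℤ_[2] ℚ_[2] c) = 2 * (x - 1 / 2) := by
        linear_combination ha
      exact mul_left_cancel₀ two_ne_zero h4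
  rw [Nat.card_eq_two_iff]
  refine ⟨⟨0, smul_zero _⟩, ⟨_, h0⟩, ?_, ?_⟩
  · intro h
    exact half_ne (congrArg Subtype.val h).symm
  · rw [Set.eq_univ_iff_forall]
    rintro ⟨b, hb⟩
    rcases h1 b hb with rfl | rfl
    · left; rfl
    · right; rfl

theorem card_mixed : Nat.card (K2 (PQ × (PQ ⧸ two PQ))) = 2 ^ 1 := by
  have h1 : Subsingleton (PQ ⧸ two PQ) := by
    rw [two_PQ]
    exact QuotientAddGroup.subsingleton_quotient_top
  rw [pow_one]
  refine (Nat.card_congr ?_).trans card_K2_PQ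
  exact
    { toFun := fun x => ⟨x.1.1, congrArg Prod.fst x.2⟩
      invFun := fun x => ⟨(x.1, 0), Prod.ext x.2 (Subsingleton.elim _ _)⟩
      left_inv := fun x => Subtype.ext (Prod.ext rfl (Subsingleton.elim _ _))
      right_inv := fun x => rfl }

end Two

end Pool.Agent.Lib.MP_52a0c0_ag
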