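import Mathlib
import Pool.Agent.Lib.MP_52a0c0_ag.Defs

/-! # Lyubeznik numbers -/

noncomputable section

namespace Pool.Agent.Lib.MP_52a0c0_ag

open IsLocalRing CategoryTheory

section Lyu

/-- The dimension over the residue field `K = S / m` of `Ext^i_S(K, H^k_I(S))`, for the ideal `I`
generated by the `f i`.  It is taken as the length over `S`; this is the dimension over `K`,
since `Ext^i_S(K, -)` is killed by `m`. -/
def extDim {S : Type} [CommRing S] [IsDomain S] [IsLocalRing S] {r : ℕ} (f : Fin r → S)
    (i k : ℕ) : ℕ∞ :=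
  Module.length S (Abelian.Ext (ModuleCat.of S (S ⧸ maximalIdeal S))
    (ModuleCat.of S (LocCoh f k)) i)

/-- The ring `R` is the quotient of the regular local ring `S` of dimension `n` by the ideal
generated by the nonzero elements `f i`. -/
structure Presents (R S : Type) [CommRing R] [CommRing S] (n : ℕ) {r : ℕ} (f : Fin r → S) :
    Prop where
  regular : IsRegularLocalRing S
  dim : ringKrullDim S = n
  nonzero : ∀ i, f i ≠ 0
  quot : ∃ π : S →+* R, Function.Surjective π ∧ RingHom.ker π = Ideal.span (Set.range f)

/-- For a complete local ring `R`: the Lyubeznik number of `R` with indices `i`, `j` equals `d`,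
the number being computed from a surjection `S → R` from a regular local ring `S`, of dimension
`k + j`, that contains a field. -/
def EqualLyu (R : Type) [CommRing R] (i j : ℕ) (d : ℕ∞) : Prop :=
  ∃ (S : Type) (_ : CommRing S) (_ : IsDomain S) (_ : IsLocalRing S) (k r : ℕ) (f : Fin r → S),
    (∃ F : Subring S, IsField F) ∧ Presents R S (k + j) f ∧ extDim f i k = d

/-- For a complete local ring `R` of residue characteristic `p`: the mixed characteristic
Lyubeznik number of `R` with indices `i`, `j` equals `d`, the number being computed from a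
surjection `S → R` from an unramified regular local ring `S` of mixed characteristic, of
dimension `k + j`. -/
def MixedLyu (p : ℕ) (R : Type) [CommRing R] (i j : ℕ) (d : ℕ∞) : Prop :=
  ∃ (S : Type) (_ : CommRing S) (_ : IsDomain S) (_ : IsLocalRing S) (k r : ℕ) (f : Fin r → S),
    (CharZero S ∧ (p : S) ∈ maximalIdeal S ∧ (p : S) ∉ maximalIdeal S ^ 2) ∧
      Presents R S (k + j) f ∧ extDim f i k = d

end Lyu

section Ext0

variable {S : Type} [CommRing S]

theorem hom_equiv (I : Ideal S) (M : Type) [AddCommGroup M] [Module S M] :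
    Nonempty (((S ⧸ I) →ₗ[S] M) ≃ₗ[S] Submodule.torsionBySet S M (I : Set S)) := by
  let φ : ((S ⧸ I) →ₗ[S] M) →ₗ[S] Submodule.torsionBySet S M (I : Set S) :=
    { toFun := fun g => ⟨g (Submodule.Quotient.mk 1), by
        rw [Submodule.mem_torsionBySet_iff]
        rintro ⟨a, ha⟩
        change a • g (Submodule.Quotient.mk 1) = 0
        rw [← map_smul, ← Submodule.Quotient.mk_smul, smul_eq_mul, mul_one,
          (Submodule.Quotient.mk_eq_zero I).mpr ha, map_zero]⟩
      map_add' := fun _ _ => rfl
      map_smul' := fun _ _ => rfl }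
  refine ⟨LinearEquiv.ofBijective φ ⟨?_, ?_⟩⟩
  · intro g g' h
    have h1 : g (Submodule.Quotient.mk 1) = g' (Submodule.Quotient.mk 1) :=
      congrArg Subtype.val h
    refine LinearMap.ext fun x => ?_
    obtain ⟨a, rfl⟩ := Submodule.Quotient.mk_surjective I x
    have h2 : (Submodule.Quotient.mk a : S ⧸ I) = a • Submodule.Quotient.mk 1 := by
      rw [← Submodule.Quotient.mk_smul, smul_eq_mul, mul_one]
    rw [h2, map_smul, map_smul, h1]
  · rintro ⟨x, hx⟩
    rw [Submodule.mem_torsionBySet_iff] at hx
    refine ⟨Submodule.liftQ I (LinearMap.toSpanSingleton S M x) ?_, ?_⟩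
    · intro a ha
      exact hx ⟨a, ha⟩
    · apply Subtype.ext
      change (1 : S) • x = x
      rw [one_smul]

variable [IsDomain S] [IsLocalRing S]

/-- The case `i = 0`. -/
theorem extDim_zero {r : ℕ} (f : Fin r → S) (k d : ℕ)
    (hfin : Finite (Submodule.torsionBySet S (LocCoh f k) (maximalIdeal S : Set S)))
    (h : socleDim f k = d) : extDim f 0 k = d := by
  obtain ⟨e⟩ := hom_equiv (maximalIdeal S) (LocCoh f k)
  unfold extDim
  let _ := Ideal.Quotient.field (maximalIdeal S)
  rw [(Abelian.Ext.linearEquiv₀ (R := S)).length_eq,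
    (ModuleCat.homLinearEquiv (R := S) (S := S)).length_eq]
  have h1 : Module.length S ((S ⧸ maximalIdeal S) →ₗ[S] LocCoh f k) = d := by
    rw [e.length_eq, Module.length_eq_of_surjective (R := S ⧸ maximalIdeal S)
      Ideal.Quotient.mk_surjective, Module.length_eq_finrank]
    exact congrArg Nat.cast h
  exact h1

end Ext0

end Pool.Agent.Lib.MP_52a0c0_ag
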