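import Mathlib
import Pool.Agent.Lib.MP_52a0c0_ag.Count

/-! # Ring theoretic properties of power series rings -/

noncomputable section

namespace Pool.Agent.Lib.MP_52a0c0_ag

open IsLocalRing

section Dim

theorem dim_ps (T : Type) [CommRing T] [IsDomain T] [IsNoetherianRing T] [IsLocalRing T] :
    ringKrullDim (PowerSeries T) = ringKrullDim T + 1 := by
  have hs : Function.Surjective (PowerSeries.constantCoeff (R := T)) :=
    fun a => ⟨PowerSeries.C a, PowerSeries.constantCoeff_C a⟩
  have hk : RingHom.ker (PowerSeries.constantCoeff (R := T)) = Ideal.span {PowerSeries.X} := by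
    ext p
    rw [RingHom.mem_ker, Ideal.mem_span_singleton, PowerSeries.X_dvd_iff]
  have h1 : (PowerSeries.X : PowerSeries T) ∈ nonZeroDivisors (PowerSeries T) :=
    mem_nonZeroDivisors_of_ne_zero PowerSeries.X_ne_zero
  have h2 : (PowerSeries.X : PowerSeries T) ∈ maximalIdeal (PowerSeries T) := by
    rw [mem_maximalIdeal, mem_nonunits_iff]
    intro h
    have h3 := h.map (PowerSeries.constantCoeff (R := T))
    rw [PowerSeries.constantCoeff_X] at h3
    exact not_isUnit_zero h3
  rw [← ringKrullDim_quotient_span_singleton_succ_eq_ringKrullDim_of_mem_nonZeroDivisors h1 h2,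
    ← hk, ringKrullDim_eq_of_ringEquiv (RingHom.quotientKerEquivOfSurjective hs)]

theorem dim_mv (T : Type) [CommRing T] [IsDomain T] [IsNoetherianRing T] [IsLocalRing T]
    (d : ℕ) (hd : ringKrullDim T = d) (n : ℕ) :
    ringKrullDim (MvPowerSeries (Fin n) T) = (d + n : ℕ) := by
  induction n with
  | zero =>
    rw [ringKrullDim_eq_of_ringEquiv (MvPowerSeries.isEmptyEquiv (Fin 0) T).toRingEquiv, hd]
    simp
  | succ n ih =>
    rw [ringKrullDim_eq_of_ringEquiv (MvPowerSeries.finSuccEquiv T n).toRingEquiv, dim_ps, ih]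
    push_cast
    rw [add_assoc]

end Dim

section Complete

theorem complete_quotient {S : Type} [CommRing S] [IsLocalRing S] [IsNoetherianRing S]
    [IsAdicComplete (maximalIdeal S) S] (I : Ideal S) [IsLocalRing (S ⧸ I)] :
    IsAdicComplete (maximalIdeal (S ⧸ I)) (S ⧸ I) := by
  have h1 : IsPrecomplete (maximalIdeal S) (S ⧸ I) := by
    rw [← AdicCompletion.of_surjective_iff]
    have h2 : Function.Surjective (AdicCompletion.map (maximalIdeal S) (Submodule.mkQ I)) :=
      AdicCompletion.map_surjective (maximalIdeal S) (Submodule.mkQ_surjective I)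
    have h3 := AdicCompletion.of_surjective (maximalIdeal S) S
    intro x
    obtain ⟨y, rfl⟩ := h2 x
    obtain ⟨z, rfl⟩ := h3 y
    exact ⟨Submodule.mkQ I z, (AdicCompletion.map_of _ _ _).symm⟩
  have h4 : IsPrecomplete (maximalIdeal (S ⧸ I)) (S ⧸ I) := by
    rw [← map_maximalIdeal_of_surjective (algebraMap S (S ⧸ I)) Ideal.Quotient.mk_surjective]
    exact (IsPrecomplete.map_algebraMap_iff).mpr h1
  have h5 : IsHausdorff (maximalIdeal (S ⧸ I)) (S ⧸ I) := inferInstance
  exact { toIsHausdorff := h5, toIsPrecomplete := h4 }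

end Complete

end Pool.Agent.Lib.MP_52a0c0_ag
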